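import Pool.Agent.OHT.All

/-!
# The final assembly
-/

set_option autoImplicit false

open PowerSeries Finset Filter Topology

namespace Pool.Agent.OHT

variable {V : Type} [Fintype V] [DecidableEq V]

/-! ### Elementary facts on the exponential factors -/

theorem rexp_mul (a b : ℝ) :
    rescale a (exp ℝ) * rescale b (exp ℝ) = rescale (a + b) (exp ℝ) :=
  (exp_mul_exp_eq_exp_add a b)

theorem rexp_zero : rescale (0 : ℝ) (exp ℝ) = 1 := by
  rw [rescale_zero_apply]
  simp

theorem rexp_mul_neg (a : ℝ) : rescale a (exp ℝ) * rescale (-a) (exp ℝ) = 1 := by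
  rw [rexp_mul, add_neg_cancel, rexp_zero]

theorem sinhcHalf_mul_inv : sinhcHalf * sinhcHalf⁻¹ = 1 := by
  apply PowerSeries.mul_inv_cancel
  unfold sinhcHalf
  rw [← coeff_zero_eq_constantCoeff_apply, coeff_mk]
  simp

theorem rescale_rescale_apply' (a b : ℝ) (f : ℝ⟦X⟧) :
    rescale a (rescale b f) = rescale (a * b) f := by
  ext k
  rw [coeff_rescale, coeff_rescale, coeff_rescale, mul_pow, mul_assoc]

theorem rescale_sign_sign (σ : Bool) (f : ℝ⟦X⟧) :
    rescale (sign σ) (rescale (sign σ) f) = f := by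
  rw [rescale_rescale_apply']
  cases σ <;> simp [sign]

theorem conv_rexp (κ : ℝ) : Conv (rescale κ (exp ℝ)) := by
  refine ⟨Real.exp |κ|, 1, one_pos, fun k => ?_⟩
  rw [coeff_rescale, coeff_exp, one_pow, mul_one, abs_mul, abs_pow]
  have h1 : |(algebraMap ℚ ℝ) (1 / (k.factorial : ℚ))| = 1 / (k.factorial : ℝ) := by
    rw [abs_of_nonneg] <;> simp
  rw [h1, mul_one_div]
  exact Real.pow_div_factorial_le_exp |κ| (abs_nonneg κ) k

theorem conv_sinhcHalf : Conv sinhcHalf := by
  refine ⟨1, 1, one_pos, fun k => ?_⟩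
  unfold sinhcHalf
  rw [coeff_mk, one_pow, mul_one]
  split_ifs
  · rw [abs_of_nonneg (by positivity), div_le_one (by positivity)]
    have h1 : (1 / 2 : ℝ) ^ k ≤ 1 := pow_le_one₀ (by norm_num) (by norm_num)
    have h2 : (1 : ℝ) ≤ ((k + 1).factorial : ℝ) := by exact_mod_cast Nat.succ_le_iff.2 (Nat.factorial_pos _)
    linarith
  · simp

theorem gev_one (ρ : ℝ) (hρ : 0 < ρ) : Gev ρ 1 := by
  refine ⟨1, fun k => ?_⟩
  rw [coeff_one]
  split_ifs with h
  · subst h
    simp
  · rw [abs_zero]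
    positivity

theorem gev_conv {ρ : ℝ} (hρ : 0 < ρ) {f : ℝ⟦X⟧} (hf : Conv f) : Gev ρ f := by
  have h := gev_mul_conv hρ (gev_one ρ hρ) hf
  rwa [mul_one] at h

theorem gev_rescale_sign {ρ : ℝ} {f : ℝ⟦X⟧} (σ : Bool) (h : Gev ρ f) :
    Gev ρ (rescale (sign σ) f) := by
  obtain ⟨C, hC⟩ := h
  refine ⟨C, fun k => ?_⟩
  rw [coeff_rescale, abs_mul, abs_pow]
  have h1 : |sign σ| = 1 := by cases σ <;> simp [sign]
  rw [h1, one_pow, one_mul]
  exact hC k

theorem top_pos {D : Data V} (h : D.IsSplice) : 0 < top D := by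
  obtain ⟨v⟩ := h.tree.connected.nonempty
  exact lt_of_lt_of_le (lk_pos h v v) (Finset.le_sup (f := fun v => D.lk v v) (mem_univ v))

/-- The logarithmic form of the equality of two series. -/
theorem series_eq {κ κ' : ℝ} {A B : ℝ⟦X⟧}
    (h : rescale κ (exp ℝ) * sinhcHalf⁻¹ * A = rescale κ' (exp ℝ) * sinhcHalf⁻¹ * B) :
    rescale (κ - κ') (exp ℝ) * A = B := by
  have h1 : rescale κ (exp ℝ) * A = rescale κ' (exp ℝ) * B := by
    linear_combination sinhcHalf * h -
      (rescale κ (exp ℝ) * A - rescale κ' (exp ℝ) * B) * sinhcHalf_mul_inv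
  have h2 : rescale (κ - κ') (exp ℝ) = rescale κ (exp ℝ) * rescale (-κ') (exp ℝ) := by
    rw [rexp_mul, sub_eq_add_neg]
  rw [h2]
  linear_combination rescale (-κ') (exp ℝ) * h1 + B * rexp_mul_neg κ'

theorem not_conv_part {D : Data V} (h : D.IsSplice) : ¬ Conv (part D) := fun hc => by
  have ht : (0 : ℝ) < top D := by exact_mod_cast top_pos h
  have hπ : 0 < Real.pi := Real.pi_pos
  refine part_not_gev h (ρ := (top D : ℝ) / Real.pi ^ 2 / 2) (by positivity) ?_
    (gev_conv (by positivity) hc)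
  have : 0 < (top D : ℝ) / Real.pi ^ 2 := by positivity
  linarith

theorem top_le {V' : Type} [Fintype V'] [DecidableEq V'] {D : Data V} (h : D.IsSplice)
    {D' : Data V'} (h' : D'.IsSplice) {κ : ℝ}
    (he : rescale κ (exp ℝ) * part D = part D') : top D' ≤ top D := by
  by_contra hlt
  push Not at hlt
  have hπ : 0 < Real.pi ^ 2 := by positivity
  have ht : (0 : ℝ) < top D := by exact_mod_cast top_pos h
  have hlt' : (top D : ℝ) / Real.pi ^ 2 < (top D' : ℝ) / Real.pi ^ 2 :=
    div_lt_div_of_pos_right (by exact_mod_cast hlt) hπ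
  obtain ⟨ρ, h1, h2⟩ := exists_between hlt'
  have h0 : 0 < ρ := lt_trans (by positivity) h1
  refine part_not_gev h' h0 h2 ?_
  rw [← he]
  exact gev_mul_conv h0 (part_gev h h1) (conv_rexp κ)

theorem flip_eq {A B : ℝ⟦X⟧} {κ : ℝ} (he : rescale κ (exp ℝ) * A = B) :
    rescale (-κ) (exp ℝ) * B = A := by
  rw [← he, ← mul_assoc, mul_comm (rescale (-κ) (exp ℝ)), rexp_mul_neg, one_mul]

/-! ### The analysis at infinity -/

/-- If `exp (c h) h ^ a → L > 0` with `c ≥ 0` then `c = 0` and `a = 0`. -/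
theorem exp_pow_limit {c a L : ℝ} (hc : 0 ≤ c) (hL : 0 < L)
    (h : Tendsto (fun x : ℝ => Real.exp (c * x) * x ^ a) atTop (𝓝 L)) : c = 0 ∧ a = 0 := by
  have hlog : Tendsto (fun x : ℝ => c * x + a * Real.log x) atTop (𝓝 (Real.log L)) := by
    have h1 := (Real.continuousAt_log hL.ne').tendsto.comp h
    refine h1.congr' ?_
    filter_upwards [eventually_gt_atTop 0] with x hx
    simp only [Function.comp]
    rw [Real.log_mul (Real.exp_pos _).ne' (Real.rpow_pos_of_pos hx a).ne', Real.log_exp,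
      Real.log_rpow hx]
  have hc0 : c = 0 := by
    by_contra hne
    have hcp : 0 < c := lt_of_le_of_ne hc (Ne.symm hne)
    have h2 : Tendsto (fun x : ℝ => (c * x + a * Real.log x) / x) atTop (𝓝 0) :=
      hlog.div_atTop tendsto_id
    have h3 : Tendsto (fun x : ℝ => (c * x + a * Real.log x) / x) atTop (𝓝 (c + a * 0)) := by
      have h4 : Tendsto (fun x : ℝ => Real.log x / x) atTop (𝓝 0) := by
        simpa using (Real.isLittleO_log_id_atTop.tendsto_div_nhds_zero)
      refine (tendsto_const_nhds.add (h4.const_mul a)).congr' ?_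
      filter_upwards [eventually_gt_atTop 0] with x hx
      field_simp
    have h5 := tendsto_nhds_unique h2 h3
    simp at h5
    exact hne h5.symm
  refine ⟨hc0, ?_⟩
  subst hc0
  by_contra hne
  rcases lt_or_gt_of_ne hne with ha | ha
  · have h6 : Tendsto (fun x : ℝ => 0 * x + a * Real.log x) atTop atBot := by
      simp only [zero_mul, zero_add]
      exact Real.tendsto_log_atTop.const_mul_atTop_of_neg ha
    exact not_tendsto_nhds_of_tendsto_atBot h6 _ hlog
  · have h6 : Tendsto (fun x : ℝ => 0 * x + a * Real.log x) atTop atTop := by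
      simp only [zero_mul, zero_add]
      exact Real.tendsto_log_atTop.const_mul_atTop ha
    exact not_tendsto_nhds_of_tendsto_atTop h6 _ hlog

theorem nodes_eq_of_nonneg {V' : Type} [Fintype V'] [DecidableEq V'] {D : Data V}
    (h : D.IsSplice) {D' : Data V'} (h' : D'.IsSplice)
    (hv : ∀ v, ∑ k ∈ D.leaf v, (1 / k : ℝ) < ((D.val v - 2 : ℕ) : ℝ))
    (hv' : ∀ v, ∑ k ∈ D'.leaf v, (1 / k : ℝ) < ((D'.val v - 2 : ℕ) : ℝ))
    {κ : ℝ} (hκ : 0 ≤ κ) (he : rescale κ (exp ℝ) * part D = part D') :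
    κ = 0 ∧ Fintype.card V = Fintype.card V' := by
  obtain ⟨C, hC, hl⟩ := fn_limit h hv
  obtain ⟨C', hC', hl'⟩ := fn_limit h' hv'
  obtain ⟨a, ha⟩ : ∃ a : ℝ, a = (3 : ℝ) * Fintype.card V' / 2 - (3 : ℝ) * Fintype.card V / 2 :=
    ⟨_, rfl⟩
  have hkey : Tendsto (fun x : ℝ => (((Real.exp (κ * x) * x ^ a : ℝ) : ℂ))) atTop
      (𝓝 ((C' : ℂ) / C)) := by
    have hCne : (C : ℂ) ≠ 0 := by exact_mod_cast hC.ne'
    have hdiv := hl'.div hl hCne
    refine hdiv.congr' ?_
    have hne : ∀ᶠ x : ℝ in atTop,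
        ((x ^ ((3 : ℝ) * Fintype.card V / 2) : ℝ) : ℂ) * fn D x ≠ 0 := hl.eventually_ne hCne
    filter_upwards [hne, eventually_gt_atTop 0] with x hx hx0
    simp only [Pi.div_apply]
    have hf : fn D' x = Complex.exp (κ * x) * fn D x := (fn_eq h h' hκ he hx0.le).symm
    have hfn : fn D x ≠ 0 := right_ne_zero_of_mul hx
    have hxp : ((x ^ ((3 : ℝ) * Fintype.card V / 2) : ℝ) : ℂ) ≠ 0 := left_ne_zero_of_mul hx
    rw [hf, ha, Real.rpow_sub hx0]
    push_cast
    field_simp
  have hre : Tendsto (fun x : ℝ => Real.exp (κ * x) * x ^ a) atTop (𝓝 (C' / C)) := by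
    have := (Complex.continuous_re.tendsto _).comp hkey
    have h3 : ((C' : ℂ) / C).re = C' / C := by
      rw [← Complex.ofReal_div, Complex.ofReal_re]
    rw [h3] at this
    refine this.congr fun x => ?_
    simp only [Function.comp, Complex.ofReal_re]
  obtain ⟨h1, h2⟩ := exp_pow_limit hκ (by positivity) hre
  refine ⟨h1, ?_⟩
  rw [ha] at h2
  have h4 : (Fintype.card V : ℝ) = Fintype.card V' := by linarith
  exact_mod_cast h4

theorem nodes_eq_good {V' : Type} [Fintype V'] [DecidableEq V'] {D : Data V}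
    (h : D.IsSplice) {D' : Data V'} (h' : D'.IsSplice)
    (hv : ∀ v, ∑ k ∈ D.leaf v, (1 / k : ℝ) < ((D.val v - 2 : ℕ) : ℝ))
    (hv' : ∀ v, ∑ k ∈ D'.leaf v, (1 / k : ℝ) < ((D'.val v - 2 : ℕ) : ℝ))
    {κ : ℝ} (he : rescale κ (exp ℝ) * part D = part D') :
    κ = 0 ∧ Fintype.card V = Fintype.card V' := by
  rcases le_total 0 κ with hκ | hκ
  · exact nodes_eq_of_nonneg h h' hv hv' hκ he
  · obtain ⟨h1, h2⟩ := nodes_eq_of_nonneg h' h hv' hv (neg_nonneg.2 hκ) (flip_eq he)
    exact ⟨neg_eq_zero.1 h1, h2.symm⟩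

theorem rexp_eq_one {κ : ℝ} (h : rescale κ (exp ℝ) = 1) : κ = 0 := by
  have h1 := congrArg (coeff 1) h
  rw [coeff_rescale, coeff_exp, coeff_one] at h1
  simpa using h1

theorem part_ne_zero {D : Data V} (h : D.IsSplice) : part D ≠ 0 := fun h0 =>
  not_conv_part h (by rw [h0]; exact ⟨0, 1, one_pos, fun k => by simp⟩)

/-- The exceptional case: one of the two is the Poincaré sphere. -/
theorem nodes_eq_bad {n n' : ℕ} {D : Data (Fin (n + 1))} (h : D.IsSplice)
    {D' : Data (Fin (n' + 1))} (h' : D'.IsSplice) {κ : ℝ}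
    (he : rescale κ (exp ℝ) * part D = part D') {v : Fin (n + 1)}
    (hv : ¬ (∑ k ∈ D.leaf v, (1 / k : ℝ) < ((D.val v - 2 : ℕ) : ℝ))) :
    κ = 0 ∧ n = n' := by
  have hb : ¬ (2 ≤ Fintype.card (Fin (n + 1)) ∨ D.leaf v ≠ {2, 3, 5}) :=
    fun hor => hv (sum_inv_lt h v hor)
  push Not at hb
  obtain ⟨hc, hl⟩ := hb
  have hn : n = 0 := by
    rw [Fintype.card_fin] at hc
    omega
  subst hn
  have hsub : Subsingleton (Fin (0 + 1)) := inferInstanceAs (Subsingleton (Fin 1))
  have hnb : D.nbr v = ∅ := by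
    unfold Data.nbr
    rw [filter_eq_empty_iff]
    intro w _
    rw [Subsingleton.elim w v, h.irrefl]
    simp
  have ht : top D = 30 := by
    have h1 : D.lk v v = 30 := by
      rw [lk_self h, hnb, hl, Finset.prod_empty]
      decide
    have h2 : top D = D.lk v v := by
      unfold top
      apply le_antisymm
      · refine Finset.sup_le fun w _ => ?_
        rw [Subsingleton.elim w v]
      · exact Finset.le_sup (f := fun v => D.lk v v) (mem_univ v)
    rw [h2, h1]
  have ht' : top D' = 30 := by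
    rw [← ht]
    exact le_antisymm (top_le h h' he) (top_le h' h (flip_eq he))
  have hn' : n' = 0 := by
    by_contra hne
    obtain ⟨w, hw⟩ := exists_lk_ge h' (by rw [Fintype.card_fin]; omega)
    have : D'.lk w w ≤ top D' := Finset.le_sup (f := fun v => D'.lk v v) (mem_univ w)
    omega
  subst hn'
  have hlf' : ∀ w, D'.leaf w = {2, 3, 5} := by
    intro w
    refine leaf_of_thirty h' (by simp) (v := w) ?_
    have h2 : top D' = D'.lk w w := by
      unfold top
      apply le_antisymm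
      · refine Finset.sup_le fun x _ => ?_
        rw [Subsingleton.elim x w]
      · exact Finset.le_sup (f := fun v => D'.lk v v) (mem_univ w)
    rw [← h2, ht']
  have hDD : D = D' := by
    have e1 : D.leaf = D'.leaf := by
      funext w
      rw [hlf' w, Subsingleton.elim w v, hl]
    have e2 : D.wt = D'.wt := by
      funext w x
      rw [Subsingleton.elim x w, h.irrefl, h'.irrefl]
    cases D
    cases D'
    simp only at e1 e2
    subst e1 e2
    rfl
  subst hDD
  refine ⟨rexp_eq_one ?_, rfl⟩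
  have h9 : (rescale κ (exp ℝ) - 1) * part D = 0 := by linear_combination he
  rcases mul_eq_zero.1 h9 with h10 | h10
  · exact sub_eq_zero.1 h10
  · exact absurd h10 (part_ne_zero h)

theorem nodes_eq {n n' : ℕ} {D : Data (Fin (n + 1))} (h : D.IsSplice)
    {D' : Data (Fin (n' + 1))} (h' : D'.IsSplice) {κ : ℝ}
    (he : rescale κ (exp ℝ) * part D = part D') : κ = 0 ∧ n = n' := by
  by_cases hv : ∀ v, ∑ k ∈ D.leaf v, (1 / k : ℝ) < ((D.val v - 2 : ℕ) : ℝ)
  · by_cases hv' : ∀ v, ∑ k ∈ D'.leaf v, (1 / k : ℝ) < ((D'.val v - 2 : ℕ) : ℝ)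
    · obtain ⟨h1, h2⟩ := nodes_eq_good h h' hv hv' he
      rw [Fintype.card_fin, Fintype.card_fin] at h2
      exact ⟨h1, by omega⟩
    · rw [not_forall] at hv'
      obtain ⟨v, hv'⟩ := hv'
      obtain ⟨h1, h2⟩ := nodes_eq_bad h' h (flip_eq he) hv'
      exact ⟨neg_eq_zero.1 h1, h2.symm⟩
  · rw [not_forall] at hv
    obtain ⟨v, hv⟩ := hv
    exact nodes_eq_bad h h' he hv

theorem three_link {κ' : ℝ} {σ : Bool} {D : Data V} (hD : D.IsSplice)
    (h : 1 = rescale κ' (exp ℝ) * sinhcHalf⁻¹ * rescale (sign σ) (part D)) : False := by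
  have h1 : rescale (sign σ) (part D) = sinhcHalf * rescale (-κ') (exp ℝ) := by
    have e1 := sinhcHalf_mul_inv
    have e2 := rexp_mul_neg κ'
    have : rescale κ' (exp ℝ) * rescale (sign σ) (part D) = sinhcHalf := by
      linear_combination -sinhcHalf * h - rescale κ' (exp ℝ) * rescale (sign σ) (part D) * e1
    linear_combination rescale (-κ') (exp ℝ) * this - rescale (sign σ) (part D) * e2
  have ht : (0 : ℝ) < top D := by exact_mod_cast top_pos hD
  have hπ : 0 < Real.pi := Real.pi_pos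
  have hρ : 0 < (top D : ℝ) / Real.pi ^ 2 / 2 := by positivity
  refine part_not_gev hD (ρ := (top D : ℝ) / Real.pi ^ 2 / 2) hρ ?_ ?_
  · have : 0 < (top D : ℝ) / Real.pi ^ 2 := by positivity
    linarith
  · have h2 : Gev ((top D : ℝ) / Real.pi ^ 2 / 2) (rescale (sign σ) (part D)) := by
      rw [h1]
      exact gev_mul_conv hρ (gev_conv hρ (conv_rexp _)) conv_sinhcHalf
    have h3 := gev_rescale_sign σ h2
    rwa [rescale_sign_sign] at h3

theorem determined (κ κ' : ℝ) (M M' : Sphere) (h : series κ M = series κ' M') :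
    M.nodes = M'.nodes ∧ M.SameSign M' ∧ M.maxLk = M'.maxLk ∧ (M.nodes ≠ 0 → κ = κ') := by
  cases M with
  | three =>
    cases M' with
    | three => exact ⟨rfl, trivial, rfl, fun h0 => absurd rfl h0⟩
    | link σ' n' D' hD' => exact (three_link hD' h).elim
  | link σ n D hD =>
    cases M' with
    | three => exact (three_link hD h.symm).elim
    | link σ' n' D' hD' =>
      have h1 : rescale (κ - κ') (exp ℝ) * rescale (sign σ) (part D) =
        rescale (sign σ') (part D') := series_eq h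
      have h2 := congrArg (rescale (sign σ)) h1
      rw [map_mul, rescale_sign_sign, rescale_rescale_apply'] at h2
      by_cases hσ : σ = σ'
      · subst hσ
        rw [rescale_sign_sign] at h2
        obtain ⟨h3, h4⟩ := nodes_eq hD hD' h2
        subst h4
        have hs : sign σ ≠ 0 := by cases σ <;> simp [sign]
        have h5 : κ - κ' = 0 := by
          rcases mul_eq_zero.1 h3 with h6 | h6
          · first
              | exact h6
              | exact absurd h6 hs
          · first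
              | exact h6
              | exact absurd h6 hs
        refine ⟨rfl, rfl, ?_, fun _ => by linarith⟩
        exact le_antisymm (top_le hD' hD (flip_eq h2)) (top_le hD hD' h2)
      · exfalso
        have h3 : rescale (sign σ) (rescale (sign σ') (part D')) =
            rescale (-1 : ℝ) (part D') := by
          rw [rescale_rescale_apply']
          congr 1
          cases σ <;> cases σ' <;> simp_all [sign]
        rw [h3] at h2
        have : Nonempty (Fin (n + 1)) := ⟨0⟩
        have : Nonempty (Fin (n' + 1)) := ⟨0⟩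
        exact orientation hD hD' _ h2

end Pool.Agent.OHT
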