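import Pool.Agent.OHT.Defs2

set_option autoImplicit false

open PowerSeries Finset MeasureTheory

namespace Pool.Agent.OHT

variable {V : Type} [Fintype V] [DecidableEq V]

theorem a1_on_comm (D : Data V) (v w u : V) : D.On v w u ↔ D.On w v u := by
  unfold Data.On
  rw [SimpleGraph.dist_comm (u := v) (v := u), SimpleGraph.dist_comm (u := u) (v := w),
    SimpleGraph.dist_comm (u := v) (v := w), add_comm]

theorem a1_on_self {D : Data V} (h : D.IsSplice) (v u : V) : D.On v v u ↔ u = v := by
  unfold Data.On
  constructor
  · intro hu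
    rw [SimpleGraph.dist_self] at hu
    have h0 : D.graph.dist u v = 0 := by omega
    exact (h.tree.connected.dist_eq_zero_iff).1 h0
  · rintro rfl
    simp

theorem lk_comm {D : Data V} (h : D.IsSplice) (v w : V) : D.lk v w = D.lk w v := by
  unfold Data.lk
  refine Finset.prod_congr (Finset.filter_congr fun u _ => a1_on_comm D v w u) fun u _ => ?_
  congr 1
  refine Finset.prod_congr (Finset.filter_congr fun x _ => not_congr (a1_on_comm D v w x))
    fun x _ => rfl

theorem lk_pos {D : Data V} (h : D.IsSplice) (v w : V) : 0 < D.lk v w := by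
  unfold Data.lk
  refine Finset.prod_pos fun u _ => Nat.mul_pos ?_ ?_
  · exact Finset.prod_pos fun k hk => lt_of_lt_of_le (by norm_num) (h.two_le u k hk)
  · refine Finset.prod_pos fun x hx => Nat.pos_of_ne_zero ?_
    have hx' := (Finset.mem_filter.1 hx).1
    exact (Finset.mem_filter.1 hx').2

theorem lk_self {D : Data V} (h : D.IsSplice) (v : V) :
    D.lk v v = (∏ k ∈ D.leaf v, k) * ∏ x ∈ D.nbr v, D.wt v x := by
  unfold Data.lk
  have h1 : (univ.filter fun u => D.On v v u) = {v} := by
    ext u
    simp [a1_on_self h]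
  rw [h1, Finset.prod_singleton]
  congr 1
  refine Finset.prod_congr ?_ fun x _ => rfl
  refine Finset.filter_true_of_mem fun x hx hon => ?_
  rw [a1_on_self h] at hon
  subst hon
  exact (Finset.mem_filter.1 hx).2 (h.irrefl x)

end Pool.Agent.OHT
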