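import Pool.Agent.OHT.Defs2
import Pool.Agent.OHT.A1

set_option autoImplicit false

open PowerSeries Finset MeasureTheory

namespace Pool.Agent.OHT

variable {V : Type} [Fintype V] [DecidableEq V]

private theorem a2_mem {G : SimpleGraph V} (hc : G.Connected) {a b y : V} (p : G.Walk a b)
    (hp : p.length = G.dist a b) (hy : y ∈ p.support) :
    G.dist a y + G.dist y b = G.dist a b := by
  have h1 := SimpleGraph.dist_le (p.takeUntil y hy)
  have h2 := SimpleGraph.dist_le (p.dropUntil y hy)
  have h3 : (p.takeUntil y hy).length + (p.dropUntil y hy).length = p.length := by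
    rw [← SimpleGraph.Walk.length_append, SimpleGraph.Walk.take_spec]
  have h4 := hc.dist_triangle (u := a) (v := y) (w := b)
  omega

private theorem a2_or {D : Data V} (h : D.IsSplice) {v w u y : V} (hu : D.On v w u)
    (hy : D.On v w y) : D.On v u y ∨ D.On u w y := by
  have hc := h.tree.connected
  obtain ⟨p1, hp1⟩ := hc.exists_walk_length_eq_dist v u
  obtain ⟨p2, hp2⟩ := hc.exists_walk_length_eq_dist u w
  obtain ⟨q1, hq1⟩ := hc.exists_walk_length_eq_dist v y
  obtain ⟨q2, hq2⟩ := hc.exists_walk_length_eq_dist y w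
  have hP : (p1.append p2).length = D.graph.dist v w := by
    rw [SimpleGraph.Walk.length_append, hp1, hp2]
    exact hu
  have hQ : (q1.append q2).length = D.graph.dist v w := by
    rw [SimpleGraph.Walk.length_append, hq1, hq2]
    exact hy
  have hPp := (p1.append p2).isPath_of_length_eq_dist hP
  have hQp := (q1.append q2).isPath_of_length_eq_dist hQ
  have he := h.tree.IsAcyclic.path_unique ⟨p1.append p2, hPp⟩ ⟨q1.append q2, hQp⟩
  have he' : p1.append p2 = q1.append q2 := congrArg Subtype.val he
  have hmem : y ∈ (p1.append p2).support := by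
    rw [he', SimpleGraph.Walk.mem_support_append_iff]
    exact Or.inl q1.end_mem_support
  rw [SimpleGraph.Walk.mem_support_append_iff] at hmem
  rcases hmem with hm | hm
  · exact Or.inl (a2_mem hc p1 hp1 hm)
  · exact Or.inr (a2_mem hc p2 hp2 hm)

private theorem a2_left {D : Data V} (h : D.IsSplice) {v w u y : V} (hu : D.On v w u)
    (hy : D.On v u y) : D.On v w y := by
  have hc := h.tree.connected
  have h1 := hc.dist_triangle (u := v) (v := y) (w := w)
  have h2 := hc.dist_triangle (u := y) (v := u) (w := w)
  unfold Data.On at *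
  omega

private theorem a2_right {D : Data V} (h : D.IsSplice) {v w u y : V} (hu : D.On v w u)
    (hy : D.On u w y) : D.On v w y := by
  have hc := h.tree.connected
  have h1 := hc.dist_triangle (u := v) (v := y) (w := w)
  have h2 := hc.dist_triangle (u := v) (v := u) (w := y)
  unfold Data.On at *
  omega

private theorem a2_inter {D : Data V} (h : D.IsSplice) {v w u y : V} (hu : D.On v w u)
    (h1 : D.On v u y) (h2 : D.On u w y) : y = u := by
  have hc := h.tree.connected
  have h3 := hc.dist_triangle (u := v) (v := y) (w := w)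
  have h4 : D.graph.dist u y = D.graph.dist y u := SimpleGraph.dist_comm
  unfold Data.On at *
  exact hc.dist_eq_zero_iff.mp (by omega)

private theorem a2_adj {D : Data V} (h : D.IsSplice) {y x : V} (hx : x ∈ D.nbr y) :
    D.graph.dist y x = 1 := by
  have hx' : D.wt y x ≠ 0 := by simpa [Data.nbr] using hx
  rw [SimpleGraph.dist_eq_one_iff_adj]
  unfold Data.graph
  rw [SimpleGraph.fromRel_adj]
  refine ⟨?_, Or.inl hx'⟩
  rintro rfl
  exact hx' (h.irrefl y)

private theorem a2_iff_left {D : Data V} (h : D.IsSplice) {v w u y x : V} (hu : D.On v w u)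
    (hy : D.On v u y) (hne : y ≠ u) (hx : x ∈ D.nbr y) : D.On v w x ↔ D.On v u x := by
  constructor
  · intro hw
    rcases a2_or h hu hw with h1 | h1
    · exact h1
    · have hc := h.tree.connected
      have e1 := a2_adj h hx
      have h3 := hc.dist_triangle (u := v) (v := y) (w := w)
      have h4 := hc.dist_triangle (u := y) (v := x) (w := w)
      have h5 : 0 < D.graph.dist y u := hc.pos_dist_of_ne hne
      have h6 : D.graph.dist u x = 0 := by
        unfold Data.On at *
        omega
      have h7 : u = x := hc.dist_eq_zero_iff.mp h6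
      subst h7
      unfold Data.On
      rw [SimpleGraph.dist_self, add_zero]
  · intro h1
    exact a2_left h hu h1

private theorem a2_iff_right {D : Data V} (h : D.IsSplice) {v w u y x : V} (hu : D.On v w u)
    (hy : D.On u w y) (hne : y ≠ u) (hx : x ∈ D.nbr y) : D.On v w x ↔ D.On u w x := by
  constructor
  · intro hw
    rcases a2_or h hu hw with h1 | h1
    · have hc := h.tree.connected
      have e1 := a2_adj h hx
      have h3 := hc.dist_triangle (u := v) (v := y) (w := w)
      have h4 := hc.dist_triangle (u := v) (v := x) (w := y)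
      have e2 : D.graph.dist x y = D.graph.dist y x := SimpleGraph.dist_comm
      have h5 : 0 < D.graph.dist u y := hc.pos_dist_of_ne (Ne.symm hne)
      have h6 : D.graph.dist x u = 0 := by
        unfold Data.On at *
        omega
      have h7 : x = u := hc.dist_eq_zero_iff.mp h6
      subst h7
      unfold Data.On
      rw [SimpleGraph.dist_self, zero_add]
    · exact h1
  · intro h1
    exact a2_right h hu h1

private theorem a2_self {D : Data V} (h : D.IsSplice) {u x : V} (hx : D.On u u x) : x = u := by
  have hc := h.tree.connected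
  unfold Data.On at hx
  rw [SimpleGraph.dist_self] at hx
  exact hc.dist_eq_zero_iff.mp (by omega)

private theorem a2_prod {ι : Type} [DecidableEq ι] (s : Finset ι) (p q : ι → Prop)
    [DecidablePred p] [DecidablePred q] (hpq : ∀ x ∈ s, p x → ¬ q x) (f : ι → ℕ) :
    (∏ x ∈ s with ¬ (p x ∨ q x), f x) * ∏ x ∈ s, f x =
      (∏ x ∈ s with ¬ p x, f x) * ∏ x ∈ s with ¬ q x, f x := by
  induction s using Finset.induction_on with
  | empty => simp
  | insert a s ha ih =>
    have ih' := ih fun x hx => hpq x (Finset.mem_insert_of_mem hx)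
    have hfa := hpq a (Finset.mem_insert_self a s)
    rw [Finset.filter_insert, Finset.filter_insert, Finset.filter_insert,
      Finset.prod_insert ha]
    by_cases hp : p a
    · have hq := hfa hp
      rw [if_neg (by simp [hp]), if_neg (by simp [hp]), if_pos hq,
        Finset.prod_insert (by simp [ha])]
      rw [mul_left_comm, ih', mul_left_comm]
    · by_cases hq : q a
      · rw [if_neg (by simp [hq]), if_pos hp, if_neg (by simp [hq]),
          Finset.prod_insert (by simp [ha])]
        rw [mul_left_comm, ih', mul_assoc]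
      · rw [if_pos (by simp [hp, hq]), if_pos hp, if_pos hq,
          Finset.prod_insert (by simp [ha]), Finset.prod_insert (by simp [ha]),
          Finset.prod_insert (by simp [ha])]
        calc f a * (∏ x ∈ s with ¬ (p x ∨ q x), f x) * (f a * ∏ x ∈ s, f x)
            = f a * f a * ((∏ x ∈ s with ¬ (p x ∨ q x), f x) * ∏ x ∈ s, f x) := by ring
          _ = f a * f a * ((∏ x ∈ s with ¬ p x, f x) * ∏ x ∈ s with ¬ q x, f x) := by rw [ih']
          _ = f a * (∏ x ∈ s with ¬ p x, f x) * (f a * ∏ x ∈ s with ¬ q x, f x) := by ring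

theorem lk_markov {D : Data V} (h : D.IsSplice) {v w u : V} (hu : D.On v w u) :
    D.lk v w * D.lk u u = D.lk v u * D.lk u w := by
  have hvu : D.On v u u := by unfold Data.On; rw [SimpleGraph.dist_self, add_zero]
  have huw : D.On u w u := by unfold Data.On; rw [SimpleGraph.dist_self, zero_add]
  have huu : D.On u u u := by unfold Data.On; rw [SimpleGraph.dist_self]
  -- the local factors
  let g : V → V → V → ℕ := fun a b y =>
    (∏ k ∈ D.leaf y, k) * ∏ x ∈ D.nbr y with ¬ D.On a b x, D.wt y x
  have hlk : ∀ a b, D.lk a b = ∏ y with D.On a b y, g a b y := fun a b => rfl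
  -- the set of the nodes on the path
  have hset : (univ.filter fun y => D.On v w y) =
      insert u (((univ.filter fun y => D.On v u y).erase u) ∪
        ((univ.filter fun y => D.On u w y).erase u)) := by
    ext y
    simp only [mem_filter, mem_univ, true_and, mem_insert, mem_union, mem_erase]
    constructor
    · intro hy
      by_cases hne : y = u
      · exact Or.inl hne
      · rcases a2_or h hu hy with h1 | h1
        · exact Or.inr (Or.inl ⟨hne, h1⟩)
        · exact Or.inr (Or.inr ⟨hne, h1⟩)
    · rintro (rfl | ⟨_, h1⟩ | ⟨_, h1⟩)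
      · exact hu
      · exact a2_left h hu h1
      · exact a2_right h hu h1
  have hdisj : Disjoint ((univ.filter fun y => D.On v u y).erase u)
      ((univ.filter fun y => D.On u w y).erase u) := by
    rw [Finset.disjoint_left]
    intro y h1 h2
    simp only [mem_filter, mem_univ, true_and, mem_erase] at h1 h2
    exact h1.1 (a2_inter h hu h1.2 h2.2)
  have hnot : u ∉ ((univ.filter fun y => D.On v u y).erase u) ∪
        ((univ.filter fun y => D.On u w y).erase u) := by
    simp
  have e1 : D.lk v w = g v w u * ((∏ y ∈ (univ.filter fun y => D.On v u y).erase u, g v u y) *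
      ∏ y ∈ (univ.filter fun y => D.On u w y).erase u, g u w y) := by
    rw [hlk, hset, Finset.prod_insert hnot, Finset.prod_union hdisj]
    congr 2
    · refine Finset.prod_congr rfl fun y hy => ?_
      simp only [mem_filter, mem_univ, true_and, mem_erase] at hy
      show (∏ k ∈ D.leaf y, k) * _ = (∏ k ∈ D.leaf y, k) * _
      congr 1
      refine Finset.prod_congr ?_ fun _ _ => rfl
      refine Finset.filter_congr fun x hx => ?_
      rw [a2_iff_left h hu hy.2 hy.1 hx]
    · refine Finset.prod_congr rfl fun y hy => ?_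
      simp only [mem_filter, mem_univ, true_and, mem_erase] at hy
      show (∏ k ∈ D.leaf y, k) * _ = (∏ k ∈ D.leaf y, k) * _
      congr 1
      refine Finset.prod_congr ?_ fun _ _ => rfl
      refine Finset.filter_congr fun x hx => ?_
      rw [a2_iff_right h hu hy.2 hy.1 hx]
  have e2 : D.lk v u = g v u u * ∏ y ∈ (univ.filter fun y => D.On v u y).erase u, g v u y := by
    rw [hlk, Finset.mul_prod_erase _ _ (by simp [hvu])]
  have e3 : D.lk u w = g u w u * ∏ y ∈ (univ.filter fun y => D.On u w y).erase u, g u w y := by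
    rw [hlk, Finset.mul_prod_erase _ _ (by simp [huw])]
  have e4 : D.lk u u = (∏ k ∈ D.leaf u, k) * ∏ x ∈ D.nbr u, D.wt u x := lk_self h u
  have hun : u ∉ D.nbr u := by simp [Data.nbr, h.irrefl u]
  have e5 : (∏ x ∈ D.nbr u with ¬ D.On v w x, D.wt u x) =
      ∏ x ∈ D.nbr u with ¬ (D.On v u x ∨ D.On u w x), D.wt u x := by
    refine Finset.prod_congr ?_ fun _ _ => rfl
    refine Finset.filter_congr fun x hx => ?_
    refine not_congr ⟨fun hw => a2_or h hu hw, ?_⟩
    rintro (h1 | h1)
    · exact a2_left h hu h1
    · exact a2_right h hu h1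
  have e6 := a2_prod (D.nbr u) (fun x => D.On v u x) (fun x => D.On u w x)
    (fun x hx h1 h2 => hun ((a2_inter h hu h1 h2) ▸ hx)) (fun x => D.wt u x)
  have e7 : g v w u * D.lk u u = g v u u * g u w u := by
    rw [e4]
    show ((∏ k ∈ D.leaf u, k) * ∏ x ∈ D.nbr u with ¬ D.On v w x, D.wt u x) *
      ((∏ k ∈ D.leaf u, k) * ∏ x ∈ D.nbr u, D.wt u x) =
      ((∏ k ∈ D.leaf u, k) * ∏ x ∈ D.nbr u with ¬ D.On v u x, D.wt u x) *
      ((∏ k ∈ D.leaf u, k) * ∏ x ∈ D.nbr u with ¬ D.On u w x, D.wt u x)
    rw [e5]
    calc _ = (∏ k ∈ D.leaf u, k) * (∏ k ∈ D.leaf u, k) *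
          ((∏ x ∈ D.nbr u with ¬ (D.On v u x ∨ D.On u w x), D.wt u x) *
            ∏ x ∈ D.nbr u, D.wt u x) := by ring
      _ = _ := by rw [e6]; ring
  rw [e1, e2, e3]
  calc _ = (g v w u * D.lk u u) * ((∏ y ∈ (univ.filter fun y => D.On v u y).erase u, g v u y) *
      ∏ y ∈ (univ.filter fun y => D.On u w y).erase u, g u w y) := by ring
    _ = _ := by rw [e7]; ring

end Pool.Agent.OHT
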