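import Pool.Agent.OHT.Defs2
import Pool.Agent.OHT.A1

set_option autoImplicit false

open PowerSeries Finset MeasureTheory

namespace Pool.Agent.OHT

variable {V : Type} [Fintype V] [DecidableEq V]

theorem lk_adj {D : Data V} (h : D.IsSplice) {v w : V} (hw : w ∈ D.nbr v) :
    D.lk v v * D.lk w w = D.lk v w * (D.wt v w * D.wt w v) := by
  have hwt : D.wt v w ≠ 0 := by simpa [Data.nbr] using hw
  have hv : v ∈ D.nbr w := by simpa [Data.nbr] using h.symm _ _ hwt
  have hne : v ≠ w := by
    rintro rfl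
    exact hwt (h.irrefl _)
  have hadj : D.graph.Adj v w := by
    rw [Data.graph, SimpleGraph.fromRel_adj]
    exact ⟨hne, Or.inl hwt⟩
  have hc := h.tree.connected
  have hd : D.graph.dist v w = 1 := SimpleGraph.dist_eq_one_iff_adj.mpr hadj
  have hon : ∀ u, D.On v w u ↔ u = v ∨ u = w := by
    intro u
    rw [Data.On, hd]
    constructor
    · intro he
      rcases Nat.eq_zero_or_pos (D.graph.dist v u) with h0 | h0
      · exact Or.inl (hc.dist_eq_zero_iff.mp h0).symm
      · exact Or.inr (hc.dist_eq_zero_iff.mp (by omega))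
    · rintro (rfl | rfl)
      · rw [SimpleGraph.dist_self, hd]
      · rw [SimpleGraph.dist_self, hd]
  have hvv : v ∉ D.nbr v := by simp [Data.nbr, h.irrefl v]
  have hww : w ∉ D.nbr w := by simp [Data.nbr, h.irrefl w]
  have hf : (univ.filter fun u => D.On v w u) = {v, w} := by
    ext u
    simp [hon]
  have hf1 : ((D.nbr v).filter fun x => ¬ D.On v w x) = (D.nbr v).erase w := by
    ext x
    rw [Finset.mem_filter, Finset.mem_erase, hon]
    constructor
    · rintro ⟨h1, h2⟩
      exact ⟨fun h3 => h2 (Or.inr h3), h1⟩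
    · rintro ⟨h1, h2⟩
      refine ⟨h2, ?_⟩
      rintro (rfl | h3)
      · exact hvv h2
      · exact h1 h3
  have hf2 : ((D.nbr w).filter fun x => ¬ D.On v w x) = (D.nbr w).erase v := by
    ext x
    rw [Finset.mem_filter, Finset.mem_erase, hon]
    constructor
    · rintro ⟨h1, h2⟩
      exact ⟨fun h3 => h2 (Or.inl h3), h1⟩
    · rintro ⟨h1, h2⟩
      refine ⟨h2, ?_⟩
      rintro (h3 | rfl)
      · exact h1 h3
      · exact hww h2
  have hlk : D.lk v w = ((∏ k ∈ D.leaf v, k) * ∏ x ∈ (D.nbr v).erase w, D.wt v x) *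
      ((∏ k ∈ D.leaf w, k) * ∏ x ∈ (D.nbr w).erase v, D.wt w x) := by
    rw [Data.lk, hf, Finset.prod_pair hne, hf1, hf2]
  rw [lk_self h, lk_self h, hlk, ← Finset.mul_prod_erase _ _ hw, ← Finset.mul_prod_erase _ _ hv]
  ring

end Pool.Agent.OHT
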