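import Pool.Agent.OHT.Defs2

set_option autoImplicit false

open PowerSeries Finset MeasureTheory

namespace Pool.Agent.OHT

variable {V : Type} [Fintype V] [DecidableEq V]

/-- the vertices of a shortest walk from `r` to `y` -/
private theorem a4_geo {G : SimpleGraph V} (hG : G.Connected) {r y : V} (p : G.Walk r y)
    (hp : p.length = G.dist r y) {v : V} (hv : v ∈ p.support) :
    G.dist r v + G.dist v y = G.dist r y := by
  have h1 := SimpleGraph.dist_le (p.takeUntil v hv)
  have h2 := SimpleGraph.dist_le (p.dropUntil v hv)
  have h3 : (p.takeUntil v hv).length + (p.dropUntil v hv).length = p.length := by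
    rw [← SimpleGraph.Walk.length_append, SimpleGraph.Walk.take_spec]
  have h4 := hG.dist_triangle (u := r) (v := v) (w := y)
  omega

/-- the distance over an edge of a tree -/
theorem a4_cross {G : SimpleGraph V} (hG : G.IsTree) {r w x y : V} (hadj : G.Adj y x)
    (hr : G.dist r x = G.dist r y + 1) (hw : G.dist w y = G.dist w x + 1) :
    G.dist r w = G.dist r y + 1 + G.dist x w := by
  have hc := hG.connected
  obtain ⟨p, hp, hpl⟩ := hc.exists_path_of_dist r y
  obtain ⟨q, hq, hql⟩ := hc.exists_path_of_dist x w
  obtain ⟨s, hs, hsl⟩ := hc.exists_path_of_dist r w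
  have hdis : ∀ v, v ∈ p.support → v ∈ q.support → False := by
    intro v hv hv'
    have h1 := a4_geo hc p hpl hv
    have h2 := a4_geo hc q hql hv'
    have h3 := hc.dist_triangle (u := r) (v := v) (w := x)
    have h4 := hc.dist_triangle (u := y) (v := v) (w := w)
    have e1 := G.dist_comm (u := w) (v := y)
    have e2 := G.dist_comm (u := w) (v := x)
    have e3 := G.dist_comm (u := y) (v := v)
    have e4 := G.dist_comm (u := x) (v := v)
    omega
  have hpath : (p.append (SimpleGraph.Walk.cons hadj q)).IsPath := by
    rw [SimpleGraph.Walk.isPath_def, SimpleGraph.Walk.support_append,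
      SimpleGraph.Walk.support_cons, List.tail_cons, List.nodup_append]
    refine ⟨hp.support_nodup, hq.support_nodup, fun a ha b hb hab => ?_⟩
    subst hab
    exact hdis a ha hb
  have huniq := hG.isAcyclic.path_unique ⟨s, hs⟩ ⟨_, hpath⟩
  have hlen : s.length = (p.append (SimpleGraph.Walk.cons hadj q)).length := by
    have := congrArg (fun t : G.Path r w => (t : G.Walk r w).length) huniq
    exact this
  rw [SimpleGraph.Walk.length_append, SimpleGraph.Walk.length_cons] at hlen
  omega

private theorem a4_expand (S : Finset V) (R : V → V → ℝ) (hs : ∀ v w, R v w = R w v) (z : V → ℝ)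
    (y : V) (hy : y ∈ S) (d : ℝ) :
    ∑ v ∈ S, ∑ w ∈ S, (z v + if v = y then d else 0) * (z w + if w = y then d else 0) * R v w =
      ∑ v ∈ S, ∑ w ∈ S, z v * z w * R v w + 2 * d * ∑ w ∈ S, z w * R y w + d ^ 2 * R y y := by
  have h1 : ∀ v, ∑ w ∈ S, (z v + if v = y then d else 0) * (z w + if w = y then d else 0) * R v w =
      (z v + if v = y then d else 0) * (∑ w ∈ S, z w * R v w + d * R v y) := by
    intro v
    rw [mul_add, Finset.mul_sum]
    have : ∀ w, (z v + if v = y then d else 0) * (z w + if w = y then d else 0) * R v w =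
        (z v + if v = y then d else 0) * (z w * R v w) +
          if w = y then (z v + if v = y then d else 0) * (d * R v w) else 0 := by
      intro w
      by_cases hw : w = y
      · simp only [hw, if_true]; ring
      · simp only [hw, if_false]; ring
    rw [Finset.sum_congr rfl fun w _ => this w, Finset.sum_add_distrib, Finset.sum_ite_eq',
      if_pos hy]
  rw [Finset.sum_congr rfl fun v _ => h1 v]
  have h2 : ∀ v, (z v + if v = y then d else 0) * (∑ w ∈ S, z w * R v w + d * R v y) =
      (∑ w ∈ S, z v * z w * R v w + d * (z v * R y v)) +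
        if v = y then d * (∑ w ∈ S, z w * R v w + d * R v y) else 0 := by
    intro v
    have e : ∑ w ∈ S, z v * z w * R v w = z v * ∑ w ∈ S, z w * R v w := by
      rw [Finset.mul_sum]
      exact Finset.sum_congr rfl fun w _ => by ring
    rw [e, hs y v]
    by_cases hv : v = y
    · simp only [hv, if_true]; ring
    · simp only [hv, if_false]; ring
  rw [Finset.sum_congr rfl fun v _ => h2 v, Finset.sum_add_distrib, Finset.sum_add_distrib,
    Finset.sum_ite_eq', if_pos hy, ← Finset.mul_sum]
  ring

private theorem a4_main {G : SimpleGraph V} (hG : G.IsTree) {R : V → V → ℝ}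
    (hs : ∀ v w, R v w = R w v) (hp : ∀ v, 0 < R v v)
    (ha : ∀ v w, G.Adj v w → R v w ^ 2 < R v v * R w w)
    (hm : ∀ v w u, G.dist v u + G.dist u w = G.dist v w → R v w * R u u = R v u * R u w)
    (r : V) (n : ℕ) : ∀ S : Finset V, S.card = n →
    (∀ a ∈ S, ∀ b, G.Adj a b → G.dist r b + 1 = G.dist r a → b ∈ S) →
    ∀ z : V → ℝ, (∃ v ∈ S, z v ≠ 0) → 0 < ∑ v ∈ S, ∑ w ∈ S, z v * z w * R v w := by
  have hc := hG.connected
  induction n using Nat.strong_induction_on with
  | _ n ih =>
    intro S hS hcl z hz
    obtain ⟨v0, hv0, hzv0⟩ := hz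
    obtain ⟨x, hx, hmax⟩ := Finset.exists_max_image S (fun v => G.dist r v) ⟨v0, hv0⟩
    by_cases hone : S = {x}
    · have : v0 = x := by rw [hone, Finset.mem_singleton] at hv0; exact hv0
      subst this
      rw [hone, Finset.sum_singleton, Finset.sum_singleton]
      have h1 := hp v0
      have h2 : 0 < z v0 * z v0 := mul_self_pos.mpr hzv0
      positivity
    -- another element
    have hx0 : x ≠ r := by
      intro hxr
      apply hone
      ext w
      rw [Finset.mem_singleton]
      constructor
      · intro hw
        have h1 := hmax w hw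
        rw [hxr, G.dist_self] at h1
        have h2 : G.dist r w = 0 := by omega
        rw [hxr]
        exact (hc.dist_eq_zero_iff.mp h2).symm
      · rintro rfl
        exact hx
    obtain ⟨p, hpl⟩ := hc.exists_walk_length_eq_dist x r
    obtain ⟨y, hxy, q, rfl⟩ : ∃ (y : V) (hxy : G.Adj x y) (q : G.Walk y r),
        p = SimpleGraph.Walk.cons hxy q := by
      cases p with
      | nil => exact absurd rfl hx0
      | cons hadj q => exact ⟨_, hadj, q, rfl⟩
    have hyr : G.dist r y + 1 = G.dist r x := by
      have h1 := SimpleGraph.dist_le q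
      rw [SimpleGraph.Walk.length_cons] at hpl
      have h2 := G.dist_comm (u := x) (v := r)
      have h3 := G.dist_comm (u := y) (v := r)
      rcases hG.dist_eq_dist_add_one_of_adj r hxy with h4 | h4 <;> omega
    have hyS : y ∈ S := hcl x hx y hxy hyr
    have hyx : y ≠ x := hxy.ne'
    set S' := S.erase x with hS'
    have hyS' : y ∈ S' := Finset.mem_erase.mpr ⟨hyx, hyS⟩
    have hcl' : ∀ a ∈ S', ∀ b, G.Adj a b → G.dist r b + 1 = G.dist r a → b ∈ S' := by
      intro a ha' b hab hb
      have haS := Finset.mem_of_mem_erase ha'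
      refine Finset.mem_erase.mpr ⟨?_, hcl a haS b hab hb⟩
      rintro rfl
      have := hmax a haS
      omega
    have hcard : S'.card < n := by
      rw [← hS]; exact Finset.card_erase_lt_of_mem hx
    have hyy := hp y
    have hrel : ∀ w ∈ S', R x w = R x y / R y y * R y w := by
      intro w hw
      have hwS := Finset.mem_of_mem_erase hw
      have hwx := Finset.ne_of_mem_erase hw
      have h1 : R x w * R y y = R x y * R y w := by
        apply hm
        have h2 : G.dist x y = 1 := SimpleGraph.dist_eq_one_iff_adj.mpr hxy
        have e1 := G.dist_comm (u := w) (v := x)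
        have e2 := G.dist_comm (u := w) (v := y)
        rcases hG.dist_eq_dist_add_one_of_adj w hxy with h4 | h4
        · omega
        · exfalso
          have h5 := a4_cross hG hxy.symm hyr.symm h4
          have h6 := hmax w hwS
          have h7 : G.dist x w = 0 := by omega
          exact hwx (hc.dist_eq_zero_iff.mp h7).symm
      field_simp
      linarith
    set c : ℝ := R x y / R y y with hcdef
    -- the quadratic form
    have hQ : ∑ v ∈ S, ∑ w ∈ S, z v * z w * R v w =
        ∑ v ∈ S', ∑ w ∈ S', (z v + if v = y then c * z x else 0) *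
          (z w + if w = y then c * z x else 0) * R v w + z x ^ 2 * (R x x - c ^ 2 * R y y) := by
      rw [a4_expand S' R hs z y hyS' (c * z x)]
      have hA : ∀ v, ∑ w ∈ S, z v * z w * R v w = z v * z x * R v x +
          ∑ w ∈ S', z v * z w * R v w := fun v => (Finset.add_sum_erase S _ hx).symm
      rw [Finset.sum_congr rfl fun v _ => hA v, Finset.sum_add_distrib,
        ← Finset.add_sum_erase S (fun v => z v * z x * R v x) hx,
        ← Finset.add_sum_erase S (fun v => ∑ w ∈ S', z v * z w * R v w) hx]
      have hB : ∑ v ∈ S', z v * z x * R v x = c * z x * ∑ w ∈ S', z w * R y w := by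
        rw [Finset.mul_sum]
        refine Finset.sum_congr rfl fun v hv => ?_
        rw [hs v x, hrel v hv]
        ring
      have hC : ∑ w ∈ S', z x * z w * R x w = c * z x * ∑ w ∈ S', z w * R y w := by
        rw [Finset.mul_sum]
        refine Finset.sum_congr rfl fun v hv => ?_
        rw [hrel v hv]
        ring
      rw [← hS', hB, hC]
      ring
    have hpos : 0 < R x x - c ^ 2 * R y y := by
      have h1 := ha x y hxy
      have : c ^ 2 * R y y = R x y ^ 2 / R y y := by
        rw [hcdef]; field_simp
      rw [this, sub_pos, div_lt_iff₀ hyy]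
      exact h1
    rw [hQ]
    by_cases hzx : z x = 0
    · have hv0S' : v0 ∈ S' := by
        refine Finset.mem_erase.mpr ⟨?_, hv0⟩
        rintro rfl
        exact hzv0 hzx
      have := ih S'.card hcard S' rfl hcl' z ⟨v0, hv0S', hzv0⟩
      simp only [hzx, mul_zero, ite_self, add_zero]
      simpa using this
    · have h1 : 0 ≤ ∑ v ∈ S', ∑ w ∈ S', (z v + if v = y then c * z x else 0) *
          (z w + if w = y then c * z x else 0) * R v w := by
        by_cases hex : ∃ v ∈ S', (z v + if v = y then c * z x else 0) ≠ 0
        · exact (ih S'.card hcard S' rfl hcl' (fun v => z v + if v = y then c * z x else 0)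
            hex).le
        · push Not at hex
          refine (Finset.sum_eq_zero fun v hv => Finset.sum_eq_zero fun w _ => ?_).ge
          rw [hex v hv, zero_mul, zero_mul]
      have h2 : 0 < z x ^ 2 * (R x x - c ^ 2 * R y y) := by positivity
      linarith

theorem posDef_of_tree {G : SimpleGraph V} (hG : G.IsTree) {R : V → V → ℝ}
    (hs : ∀ v w, R v w = R w v) (hp : ∀ v, 0 < R v v)
    (ha : ∀ v w, G.Adj v w → R v w ^ 2 < R v v * R w w)
    (hm : ∀ v w u, G.dist v u + G.dist u w = G.dist v w → R v w * R u u = R v u * R u w) :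
    (Matrix.of R).PosDef := by
  obtain ⟨r⟩ := hG.connected.nonempty
  refine Matrix.PosDef.of_dotProduct_mulVec_pos ?_ ?_
  · ext v w
    simp only [Matrix.conjTranspose_apply, Matrix.of_apply, star_trivial]
    exact hs w v
  · intro z hz
    obtain ⟨v, hv⟩ : ∃ v, z v ≠ 0 := by
      by_contra hcon
      push Not at hcon
      exact hz (funext hcon)
    have := a4_main hG hs hp ha hm r _ Finset.univ rfl (fun a _ b _ _ => Finset.mem_univ b) z
      ⟨v, Finset.mem_univ v, hv⟩
    have e : star z ⬝ᵥ (Matrix.of R).mulVec z = ∑ v, ∑ w, z v * z w * R v w := by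
      simp only [dotProduct, Matrix.mulVec, Matrix.of_apply, star_trivial, Finset.mul_sum,
        Pi.star_apply]
      refine Finset.sum_congr rfl fun v _ => Finset.sum_congr rfl fun w _ => ?_
      ring
    rw [e]
    exact this

end Pool.Agent.OHT
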