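import Pool.Agent.OHT.Defs2
import Pool.Agent.OHT.A1
import Pool.Agent.OHT.A2
import Pool.Agent.OHT.A3
import Pool.Agent.OHT.A4

set_option autoImplicit false

open PowerSeries Finset MeasureTheory

namespace Pool.Agent.OHT

variable {V : Type} [Fintype V] [DecidableEq V]

private theorem a4b_lk {D : Data V} (h : D.IsSplice) :
    (Matrix.of fun v w => (D.lk v w : ℝ)).PosDef := by
  have hpos : ∀ v w, (0 : ℝ) < (D.lk v w : ℝ) := fun v w => by exact_mod_cast lk_pos h v w
  refine posDef_of_tree h.tree (R := fun v w => (D.lk v w : ℝ)) ?_ ?_ ?_ ?_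
  · intro v w
    simp only [lk_comm h v w]
  · intro v
    exact hpos v v
  · intro v w hadj
    have hw : w ∈ D.nbr v := by
      rw [Data.graph, SimpleGraph.fromRel_adj] at hadj
      obtain ⟨_, h1 | h1⟩ := hadj
      · simpa [Data.nbr] using h1
      · simpa [Data.nbr] using h.symm _ _ h1
    have h1 : ((D.lk v v : ℝ)) * (D.lk w w : ℝ) =
        (D.lk v w : ℝ) * ((D.wt v w : ℝ) * (D.wt w v : ℝ)) := by
      exact_mod_cast lk_adj h hw
    have h2 : (D.lk v w : ℝ) < (D.wt v w : ℝ) * (D.wt w v : ℝ) := by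
      exact_mod_cast h.edge_det v w hw
    show (D.lk v w : ℝ) ^ 2 < (D.lk v v : ℝ) * (D.lk w w : ℝ)
    rw [h1, pow_two]
    exact mul_lt_mul_of_pos_left h2 (hpos v w)
  · intro v w u hu
    have := lk_markov h (v := v) (w := w) (u := u) hu
    show (D.lk v w : ℝ) * (D.lk u u : ℝ) = (D.lk v u : ℝ) * (D.lk u w : ℝ)
    exact_mod_cast this

theorem cov_posDef {D : Data V} (h : D.IsSplice) : (cov D).PosDef := by
  have hL := a4b_lk h
  have hform : ∀ y : V → ℝ, y ≠ 0 → 0 < ∑ v, ∑ w, y v * y w * (D.lk v w : ℝ) := by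
    intro y hy
    have := hL.dotProduct_mulVec_pos hy
    have e : star y ⬝ᵥ (Matrix.of fun v w => (D.lk v w : ℝ)).mulVec y =
        ∑ v, ∑ w, y v * y w * (D.lk v w : ℝ) := by
      simp only [dotProduct, Matrix.mulVec, Matrix.of_apply, star_trivial, Finset.mul_sum,
        Pi.star_apply]
      refine Finset.sum_congr rfl fun v _ => Finset.sum_congr rfl fun w _ => ?_
      ring
    rw [e] at this
    exact this
  have hform0 : ∀ y : V → ℝ, 0 ≤ ∑ v, ∑ w, y v * y w * (D.lk v w : ℝ) := by
    intro y
    rcases eq_or_ne y 0 with rfl | hy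
    · simp
    · exact (hform y hy).le
  refine Matrix.PosDef.of_dotProduct_mulVec_pos ?_ ?_
  · ext a b
    simp only [Matrix.conjTranspose_apply, cov, Matrix.of_apply, star_trivial]
    by_cases hab : a.2 = b.2
    · rw [if_pos hab, if_pos hab.symm, lk_comm h]
    · rw [if_neg hab, if_neg (fun hc => hab hc.symm)]
  · intro z hz
    have e : star z ⬝ᵥ (cov D).mulVec z =
        ∑ i : Fin 3, 2 * ∑ v, ∑ w, z (v, i) * z (w, i) * (D.lk v w : ℝ) := by
      have e1 : star z ⬝ᵥ (cov D).mulVec z = ∑ a, ∑ b, z a * z b * cov D a b := by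
        simp only [dotProduct, Matrix.mulVec, star_trivial, Finset.mul_sum, Pi.star_apply]
        refine Finset.sum_congr rfl fun v _ => Finset.sum_congr rfl fun w _ => ?_
        ring
      rw [e1, Fintype.sum_prod_type, Finset.sum_comm]
      refine Finset.sum_congr rfl fun i _ => ?_
      rw [Finset.mul_sum]
      refine Finset.sum_congr rfl fun v _ => ?_
      rw [Fintype.sum_prod_type, Finset.mul_sum]
      refine Finset.sum_congr rfl fun w _ => ?_
      rw [Finset.sum_eq_single i]
      · simp only [cov, Matrix.of_apply, if_true]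
        ring
      · intro j _ hj
        simp only [cov, Matrix.of_apply, if_neg hj.symm, mul_zero]
      · intro hi
        exact absurd (Finset.mem_univ i) hi
    rw [e]
    obtain ⟨⟨v, i⟩, hv⟩ : ∃ a, z a ≠ 0 := by
      by_contra hcon
      push Not at hcon
      exact hz (funext hcon)
    refine Finset.sum_pos' (fun j _ => mul_nonneg (by norm_num) (hform0 fun v => z (v, j)))
      ⟨i, Finset.mem_univ i, mul_pos (by norm_num) (hform (fun v => z (v, i)) fun h0 => hv ?_)⟩
    exact congrFun h0 v

end Pool.Agent.OHT
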