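import Pool.Agent.OHT.Defs2
import Pool.Agent.OHT.A1

set_option autoImplicit false

open PowerSeries Finset MeasureTheory

namespace Pool.Agent.OHT

variable {V : Type} [Fintype V] [DecidableEq V]

/-- the diagram given by bounded data -/
private def a5_data (B n : ℕ)
    (t : (Fin (n + 1) → Finset (Fin (B + 1))) × (Fin (n + 1) → Fin (n + 1) → Fin (B + 1))) :
    Data (Fin (n + 1)) where
  leaf := fun v => (t.1 v).map Fin.valEmbedding
  wt := fun v w => (t.2 v w : ℕ)

private theorem a5_surj {B n : ℕ} (D : Data (Fin (n + 1))) (hl : ∀ v, ∀ k ∈ D.leaf v, k ≤ B)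
    (hw : ∀ v w, D.wt v w ≤ B) : ∃ t, a5_data B n t = D := by
  refine ⟨(fun v => univ.filter fun i : Fin (B + 1) => (i : ℕ) ∈ D.leaf v,
    fun v w => ⟨D.wt v w, by have := hw v w; omega⟩), ?_⟩
  obtain ⟨leaf, wt⟩ := D
  unfold a5_data
  congr 1
  funext v
  ext k
  simp only [mem_map, mem_filter, mem_univ, true_and, Fin.valEmbedding_apply]
  constructor
  · rintro ⟨i, hi, rfl⟩
    exact hi
  · intro hk
    exact ⟨⟨k, by have := hl v k hk; omega⟩, hk, rfl⟩

private theorem a5_leaf {D : Data V} (h : D.IsSplice) {B : ℕ} (v : V) (hB : D.lk v v ≤ B)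
    (k : ℕ) (hk : k ∈ D.leaf v) : k ≤ B := by
  have h1 := lk_pos h v v
  have h2 : k ∣ D.lk v v := by
    rw [lk_self h v]
    exact Dvd.dvd.mul_right (Finset.dvd_prod_of_mem (fun k => k) hk) _
  exact (Nat.le_of_dvd h1 h2).trans hB

private theorem a5_wt {D : Data V} (h : D.IsSplice) {B : ℕ} (v : V) (hB : D.lk v v ≤ B)
    (w : V) : D.wt v w ≤ B := by
  by_cases h0 : D.wt v w = 0
  · omega
  · have h1 := lk_pos h v v
    have h2 : D.wt v w ∣ D.lk v v := by
      rw [lk_self h v]
      refine Dvd.dvd.mul_left (Finset.dvd_prod_of_mem (fun x => D.wt v x) ?_) _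
      simp [Data.nbr, h0]
    exact (Nat.le_of_dvd h1 h2).trans hB

theorem finite_bounded (B : ℕ) : {M : Sphere | M.nodes ≤ B ∧ ∀ σ n D hD, M = .link σ n D hD →
    ∀ v, D.lk v v ≤ B}.Finite := by
  have hfin : ({Sphere.three} ∪ ⋃ n ∈ Finset.range B, ⋃ σ : Bool,
      Set.range (fun t : {t // (a5_data B n t).IsSplice} =>
        Sphere.link σ n (a5_data B n t.1) t.2)).Finite := by
    refine (Set.finite_singleton _).union ?_
    refine Set.Finite.biUnion (Finset.finite_toSet _) fun n _ => ?_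
    exact Set.finite_iUnion fun σ => Set.finite_range _
  refine hfin.subset ?_
  rintro M ⟨hn, hM⟩
  cases M with
  | three => exact Or.inl rfl
  | link σ n D hD =>
    right
    have hb := hM σ n D hD rfl
    obtain ⟨t, ht⟩ := a5_surj (B := B) D (fun v k hk => a5_leaf hD v (hb v) k hk)
      (fun v w => a5_wt hD v (hb v) w)
    subst ht
    simp only [Set.mem_iUnion, Finset.mem_range]
    refine ⟨n, ?_, σ, ⟨⟨t, hD⟩, rfl⟩⟩
    simp only [Sphere.nodes] at hn
    omega

end Pool.Agent.OHT
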