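import Pool.Agent.OHT.Defs2
import Pool.Agent.OHT.A1
import Pool.Agent.OHT.A3

set_option autoImplicit false

open PowerSeries Finset MeasureTheory

namespace Pool.Agent.OHT

variable {V : Type} [Fintype V] [DecidableEq V]

/-- the product of the weights at `v` except the one towards `w` -/
private def a6_a (D : Data V) (v w : V) : ℕ := (∏ k ∈ D.leaf v, k) * ∏ x ∈ (D.nbr v).erase w, D.wt v x

private theorem a6_mem {D : Data V} {v w : V} : w ∈ D.nbr v ↔ D.wt v w ≠ 0 := by
  simp [Data.nbr]

private theorem a6_adj {D : Data V} (h : D.IsSplice) {v w : V} :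
    D.graph.Adj v w ↔ w ∈ D.nbr v := by
  rw [a6_mem, Data.graph, SimpleGraph.fromRel_adj]
  constructor
  · rintro ⟨_, h1 | h1⟩
    · exact h1
    · exact h.symm _ _ h1
  · intro h1
    refine ⟨?_, Or.inl h1⟩
    rintro rfl
    exact h1 (h.irrefl _)

private theorem a6_self {D : Data V} (h : D.IsSplice) {v w : V} (hw : w ∈ D.nbr v) :
    D.lk v v = a6_a D v w * D.wt v w := by
  rw [lk_self h, a6_a, mul_assoc, mul_comm (∏ x ∈ (D.nbr v).erase w, D.wt v x),
    Finset.mul_prod_erase _ _ hw]

private theorem a6_leafpos {D : Data V} (h : D.IsSplice) (v : V) : 0 < ∏ k ∈ D.leaf v, k :=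
  Finset.prod_pos fun k hk => by have := h.two_le v k hk; omega

private theorem a6_pos {D : Data V} (h : D.IsSplice) (v w : V) : 0 < a6_a D v w := by
  refine Nat.mul_pos (a6_leafpos h v) (Finset.prod_pos fun x hx => ?_)
  exact Nat.pos_of_ne_zero (a6_mem.mp (Finset.mem_of_mem_erase hx))

private theorem a6_le {D : Data V} (h : D.IsSplice) {v w x : V} (hw : w ∈ D.nbr v)
    (hwx : w ≠ x) : D.wt v w ≤ a6_a D v x := by
  apply Nat.le_of_dvd (a6_pos h v x)
  exact Dvd.dvd.mul_left (Finset.dvd_prod_of_mem _ (Finset.mem_erase.mpr ⟨hwx, hw⟩)) _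

private theorem a6_det {D : Data V} (h : D.IsSplice) {v w : V} (hw : w ∈ D.nbr v) :
    a6_a D v w * a6_a D w v < D.wt v w * D.wt w v := by
  have hv : v ∈ D.nbr w := a6_mem.mpr (h.symm _ _ (a6_mem.mp hw))
  have h1 := lk_adj h hw
  rw [a6_self h hw, a6_self h hv] at h1
  have hp : 0 < D.wt v w * D.wt w v :=
    Nat.mul_pos (Nat.pos_of_ne_zero (a6_mem.mp hw)) (Nat.pos_of_ne_zero (a6_mem.mp hv))
  have h2 : a6_a D v w * a6_a D w v = D.lk v w := by
    apply Nat.eq_of_mul_eq_mul_right hp
    rw [← h1]
    ring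
  rw [h2]
  exact h.edge_det v w hw

/-- a node with one neighbour -/
private theorem a6_end {D : Data V} (h : D.IsSplice) {v w : V} (hw : w ∈ D.nbr v)
    (hone : D.nbr v = {w}) (hN : D.lk v v ≤ 41) : D.wt v w < a6_a D v w := by
  have hval := h.three_le v
  rw [Data.val, hone, Finset.card_singleton] at hval
  obtain ⟨k, hk, l, hl, hkl⟩ := Finset.one_lt_card.mp (by omega : 1 < (D.leaf v).card)
  have ha : a6_a D v w = ∏ k ∈ D.leaf v, k := by
    rw [a6_a, hone, Finset.erase_singleton, Finset.prod_empty, mul_one]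
  have hk2 := h.two_le v k hk
  have hl2 := h.two_le v l hl
  have hdvd : k * l ∣ ∏ k ∈ D.leaf v, k := by
    have h1 : k * l = ∏ i ∈ ({k, l} : Finset ℕ), i := by
      rw [Finset.prod_pair hkl]
    rw [h1]
    apply Finset.prod_dvd_prod_of_subset
    intro i hi
    rw [Finset.mem_insert, Finset.mem_singleton] at hi
    rcases hi with rfl | rfl
    · exact hk
    · exact hl
  have h6 : 6 ≤ k * l := by
    rcases Nat.lt_or_gt_of_ne hkl with hc | hc
    · nlinarith
    · nlinarith
  have ha6 : 6 ≤ a6_a D v w := by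
    rw [ha]
    exact h6.trans (Nat.le_of_dvd (a6_leafpos h v) hdvd)
  rw [a6_self h hw] at hN
  by_contra hcon
  push Not at hcon
  have e1 : a6_a D v w = 6 := by
    by_contra hne
    have : 7 ≤ a6_a D v w := by omega
    nlinarith
  rw [e1] at hN hcon
  have e2 : D.wt v w = 6 := by omega
  have hco := h.coprime_mixed v k hk w hw
  rw [e2] at hco
  have hkd : k ∣ 6 := by
    rw [← e1, ha]
    exact Finset.dvd_prod_of_mem _ hk
  have := Nat.Coprime.eq_one_of_dvd hco hkd
  omega

/-- the branch at `x` is smaller than the branch at `v` -/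
private theorem a6_branch {G : SimpleGraph V} (hG : G.IsTree) {v w x : V} (hvw : G.Adj v w)
    (hvx : G.Adj v x) (hxw : x ≠ w) :
    (univ.filter fun u => G.dist u x < G.dist u v).card <
      (univ.filter fun u => G.dist u v < G.dist u w).card := by
  have hc := hG.connected
  apply Finset.card_lt_card
  refine ⟨?_, ?_⟩
  · intro u hu
    rw [Finset.mem_filter] at hu ⊢
    refine ⟨Finset.mem_univ _, ?_⟩
    have h1 := hu.2
    -- if `w` were nearer, the walks through `x` and `w` would be two shortest paths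
    by_contra hcon
    have h2 : G.dist u v = G.dist u w + 1 := by
      rcases hG.dist_eq_dist_add_one_of_adj u hvw with h3 | h3 <;> omega
    have h3 : G.dist u v = G.dist u x + 1 := by
      rcases hG.dist_eq_dist_add_one_of_adj u hvx with h3 | h3 <;> omega
    obtain ⟨p, hp, hpl⟩ := hc.exists_path_of_dist u x
    obtain ⟨q, hq, hql⟩ := hc.exists_path_of_dist u w
    have l1 : (p.concat hvx.symm).length = G.dist u v := by
      rw [SimpleGraph.Walk.length_concat]; omega
    have l2 : (q.concat hvw.symm).length = G.dist u v := by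
      rw [SimpleGraph.Walk.length_concat]; omega
    have p1 := SimpleGraph.Walk.isPath_of_length_eq_dist _ l1
    have p2 := SimpleGraph.Walk.isPath_of_length_eq_dist _ l2
    have he := hG.existsUnique_path u v
    have heq := he.unique p1 p2
    have := congrArg SimpleGraph.Walk.penultimate heq
    rw [SimpleGraph.Walk.penultimate_concat, SimpleGraph.Walk.penultimate_concat] at this
    exact hxw this
  · intro hsub
    have h1 : v ∈ univ.filter fun u => G.dist u v < G.dist u w := by
      rw [Finset.mem_filter, G.dist_self]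
      exact ⟨Finset.mem_univ _, hc.pos_dist_of_ne hvw.ne⟩
    have h2 := hsub h1
    rw [Finset.mem_filter, G.dist_self] at h2
    exact absurd h2.2 (Nat.not_lt_zero _)

private theorem a6_main {D : Data V} (h : D.IsSplice) (hN : ∀ v, D.lk v v ≤ 41) (n : ℕ) :
    ∀ v w : V, w ∈ D.nbr v →
      (univ.filter fun u => D.graph.dist u v < D.graph.dist u w).card = n →
      D.wt v w < a6_a D v w := by
  induction n using Nat.strong_induction_on with
  | _ n ih =>
    intro v w hw hn
    by_cases hone : D.nbr v = {w}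
    · exact a6_end h hw hone (hN v)
    · obtain ⟨x, hx, hxw⟩ : ∃ x ∈ D.nbr v, x ≠ w := by
        by_contra hcon
        push Not at hcon
        exact hone (Finset.eq_singleton_iff_unique_mem.mpr ⟨hw, hcon⟩)
      have hvx : v ∈ D.nbr x := a6_mem.mpr (h.symm _ _ (a6_mem.mp hx))
      have hlt := a6_branch h.tree ((a6_adj h).mpr hw) ((a6_adj h).mpr hx) hxw
      rw [hn] at hlt
      have hP := ih _ hlt x v hvx rfl
      have hdet := a6_det h hx
      have h1 : a6_a D v x < D.wt v x := by
        by_contra hcon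
        push Not at hcon
        have := Nat.mul_le_mul hcon hP.le
        omega
      have h2 := a6_le h hw hxw.symm
      have h3 := a6_le h hx hxw
      omega

theorem exists_lk_ge {D : Data V} (h : D.IsSplice) (hV : 2 ≤ Fintype.card V) :
    ∃ v, 42 ≤ D.lk v v := by
  by_contra hcon
  push Not at hcon
  have hN : ∀ v, D.lk v v ≤ 41 := fun v => by have := hcon v; omega
  obtain ⟨v, w, hvw⟩ := Fintype.exists_pair_of_one_lt_card (by omega : 1 < Fintype.card V)
  obtain ⟨p⟩ := h.tree.connected.preconnected v w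
  obtain ⟨x, hx⟩ : ∃ x, D.graph.Adj v x := by
    cases p with
    | nil => exact absurd rfl hvw
    | cons hadj q => exact ⟨_, hadj⟩
  have h1 : x ∈ D.nbr v := (a6_adj h).mp hx
  have h2 : v ∈ D.nbr x := (a6_adj h).mp hx.symm
  have p1 := a6_main h hN _ v x h1 rfl
  have p2 := a6_main h hN _ x v h2 rfl
  have hdet := a6_det h h1
  have := Nat.mul_le_mul p1.le p2.le
  omega

end Pool.Agent.OHT
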