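import Pool.Agent.OHT.Defs2
import Pool.Agent.OHT.A1

set_option autoImplicit false

open PowerSeries Finset MeasureTheory

namespace Pool.Agent.OHT

variable {V : Type} [Fintype V] [DecidableEq V]

private theorem a7_dec : ∀ S ∈ ({2, 3, 5, 6, 10, 15, 30} : Finset ℕ).powerset, 3 ≤ S.card →
    (∀ k ∈ S, ∀ l ∈ S, k ≠ l → Nat.Coprime k l) → S = {2, 3, 5} := by
  decide +kernel

theorem leaf_of_thirty {D : Data V} (h : D.IsSplice) (hV : Fintype.card V = 1) {v : V}
    (hv : D.lk v v = 30) : D.leaf v = {2, 3, 5} := by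
  have hsub : Subsingleton V := Fintype.card_le_one_iff_subsingleton.1 hV.le
  have hnbr : D.nbr v = ∅ := by
    rw [Finset.eq_empty_iff_forall_notMem]
    intro w hw
    have : w = v := Subsingleton.elim _ _
    subst this
    simp only [Data.nbr, mem_filter, mem_univ, true_and] at hw
    exact hw (h.irrefl w)
  have hprod : ∏ k ∈ D.leaf v, k = 30 := by
    rw [← hv, lk_self h, hnbr]; simp
  have hcard : 3 ≤ (D.leaf v).card := by
    have := h.three_le v
    rw [Data.val, hnbr] at this
    simpa using this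
  apply a7_dec _ _ hcard (h.coprime_leaf v)
  rw [Finset.mem_powerset]
  intro k hk
  have h2 := h.two_le v k hk
  have hd : k ∣ 30 := hprod ▸ Finset.dvd_prod_of_mem _ hk
  have hmem : k ∈ Nat.divisors 30 := Nat.mem_divisors.2 ⟨hd, by norm_num⟩
  have : Nat.divisors 30 = {1, 2, 3, 5, 6, 10, 15, 30} := by decide +kernel
  rw [this] at hmem
  simp only [mem_insert, mem_singleton] at hmem ⊢
  omega

private theorem a7_nbr {D : Data V} (h : D.IsSplice) (v : V) (hD : 2 ≤ Fintype.card V) :
    1 ≤ (D.nbr v).card := by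
  rw [Nat.one_le_iff_ne_zero, Finset.card_ne_zero]
  obtain ⟨w, hw⟩ := Fintype.exists_ne_of_one_lt_card (by omega : 1 < Fintype.card V) v
  obtain ⟨p⟩ := h.tree.connected.preconnected v w
  cases p with
  | nil => exact absurd rfl hw
  | cons hadj _ =>
    have h2 := hadj
    rw [Data.graph, SimpleGraph.fromRel_adj] at h2
    have h4 := h2.2.elim (fun h3 => h3) (fun h3 => h.symm _ _ h3)
    exact ⟨_, by simpa only [Data.nbr, mem_filter, mem_univ, true_and] using h4⟩

private theorem a7_sum (S : Finset ℕ) (h2 : ∀ k ∈ S, 2 ≤ k) :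
    ∑ k ∈ S, (1 / k : ℝ) ≤ S.card / 4 + 1 / 3 := by
  have h1 : ∑ k ∈ S, ((1 / k : ℝ) - 1 / 4) ≤ ∑ k ∈ ({2, 3} : Finset ℕ), ((1 / k : ℝ) - 1 / 4) := by
    calc ∑ k ∈ S, ((1 / k : ℝ) - 1 / 4)
        = ∑ k ∈ S ∩ {2, 3}, ((1 / k : ℝ) - 1 / 4) + ∑ k ∈ S \ {2, 3}, ((1 / k : ℝ) - 1 / 4) := by
          rw [← Finset.sum_inter_add_sum_sdiff S ({2, 3} : Finset ℕ)]
      _ ≤ ∑ k ∈ ({2, 3} : Finset ℕ), ((1 / k : ℝ) - 1 / 4) + 0 := by
          apply add_le_add
          · apply Finset.sum_le_sum_of_subset_of_nonneg Finset.inter_subset_right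
            intro k hk _
            simp only [mem_insert, mem_singleton] at hk
            rcases hk with rfl | rfl <;> norm_num
          · apply Finset.sum_nonpos
            intro k hk
            simp only [mem_sdiff, mem_insert, mem_singleton] at hk
            have hk4 : 4 ≤ k := by
              have := h2 k hk.1
              omega
            have : (4 : ℝ) ≤ k := by exact_mod_cast hk4
            have := one_div_le_one_div_of_le (by norm_num : (0 : ℝ) < 4) this
            linarith
      _ = _ := by ring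
  have h3 : ∑ k ∈ S, ((1 / k : ℝ) - 1 / 4) = ∑ k ∈ S, (1 / k : ℝ) - S.card / 4 := by
    rw [Finset.sum_sub_distrib, Finset.sum_const, nsmul_eq_mul]; ring
  rw [h3, Finset.sum_pair (by norm_num)] at h1
  norm_num at h1 ⊢
  linarith

private theorem a7_inv {k m : ℕ} (hm : 0 < m) (h : m ≤ k) : (1 / k : ℝ) ≤ 1 / m :=
  one_div_le_one_div_of_le (by exact_mod_cast hm) (by exact_mod_cast h)

private theorem a7_three (S : Finset ℕ) (h2 : ∀ k ∈ S, 2 ≤ k)
    (hc : ∀ k ∈ S, ∀ l ∈ S, k ≠ l → Nat.Coprime k l) (h3 : S.card = 3) (hS : S ≠ {2, 3, 5}) :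
    ∑ k ∈ S, (1 / k : ℝ) < 1 := by
  by_cases m2 : 2 ∈ S
  · have hodd : ∀ k ∈ S.erase 2, k % 2 = 1 := by
      intro k hk
      have hk' := Finset.mem_erase.1 hk
      have := hc k hk'.2 2 m2 hk'.1
      exact Nat.odd_iff.1 (Nat.coprime_two_right.1 this)
    have hcard2 : (S.erase 2).card = 2 := by rw [Finset.card_erase_of_mem m2, h3]
    rw [← Finset.add_sum_erase S _ m2]
    by_cases m3 : 3 ∈ S
    · have m3' : 3 ∈ S.erase 2 := Finset.mem_erase.2 ⟨by norm_num, m3⟩
      have hcard1 : ((S.erase 2).erase 3).card = 1 := by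
        rw [Finset.card_erase_of_mem m3', hcard2]
      rw [← Finset.add_sum_erase (S.erase 2) _ m3']
      obtain ⟨c, hcc⟩ := Finset.card_eq_one.1 hcard1
      rw [hcc, Finset.sum_singleton]
      have hcm : c ∈ (S.erase 2).erase 3 := by rw [hcc]; exact Finset.mem_singleton_self c
      have hc1 := Finset.mem_erase.1 hcm
      have hc2 := Finset.mem_erase.1 hc1.2
      have hco := hodd c hc1.2
      have hc3 : c % 3 ≠ 0 := by
        have := hc c hc2.2 3 m3 hc1.1
        intro h0
        have hd : 3 ∣ c := Nat.dvd_of_mod_eq_zero h0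
        have h1 : Nat.gcd c 3 = 3 := Nat.gcd_eq_right hd
        rw [Nat.Coprime, h1] at this
        omega
      have hc5 : c ≠ 5 := by
        rintro rfl
        apply hS
        rw [← Finset.insert_erase m2, ← Finset.insert_erase m3', hcc]
      have hcge := h2 c hc2.2
      have hc7 : 7 ≤ c := by omega
      have := a7_inv (by norm_num) hc7
      norm_num at this ⊢
      linarith
    · have hsum : ∑ k ∈ S.erase 2, (1 / k : ℝ) ≤ ∑ k ∈ S.erase 2, (1 / 5 : ℝ) := by
        apply Finset.sum_le_sum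
        intro k hk
        have hk' := Finset.mem_erase.1 hk
        have h5 : 5 ≤ k := by
          have h1 := hodd k hk
          have h4 := h2 k hk'.2
          have h6 : k ≠ 3 := fun h => m3 (h ▸ hk'.2)
          omega
        have := a7_inv (by norm_num) h5
        norm_num at this ⊢
        linarith
      rw [Finset.sum_const, hcard2] at hsum
      norm_num at hsum ⊢
      linarith
  · have h1 : ∑ k ∈ S, ((1 / k : ℝ) - 1 / 4) ≤ ∑ k ∈ ({3} : Finset ℕ), ((1 / k : ℝ) - 1 / 4) := by
      calc ∑ k ∈ S, ((1 / k : ℝ) - 1 / 4)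
          = ∑ k ∈ S ∩ {3}, ((1 / k : ℝ) - 1 / 4) + ∑ k ∈ S \ {3}, ((1 / k : ℝ) - 1 / 4) := by
            rw [← Finset.sum_inter_add_sum_sdiff S ({3} : Finset ℕ)]
        _ ≤ ∑ k ∈ ({3} : Finset ℕ), ((1 / k : ℝ) - 1 / 4) + 0 := by
            apply add_le_add
            · apply Finset.sum_le_sum_of_subset_of_nonneg Finset.inter_subset_right
              intro k hk _
              simp only [mem_singleton] at hk
              subst hk; norm_num
            · apply Finset.sum_nonpos
              intro k hk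
              simp only [mem_sdiff, mem_singleton] at hk
              have hk4 : 4 ≤ k := by
                have := h2 k hk.1
                have h6 : k ≠ 2 := fun h => m2 (h ▸ hk.1)
                omega
              have := a7_inv (by norm_num) hk4
              norm_num at this ⊢
              linarith
        _ = _ := by ring
    have h5 : ∑ k ∈ S, ((1 / k : ℝ) - 1 / 4) = ∑ k ∈ S, (1 / k : ℝ) - S.card / 4 := by
      rw [Finset.sum_sub_distrib, Finset.sum_const, nsmul_eq_mul]; ring
    rw [h5, h3, Finset.sum_singleton] at h1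
    norm_num at h1 ⊢
    linarith

theorem sum_inv_lt {D : Data V} (h : D.IsSplice) (v : V)
    (hD : 2 ≤ Fintype.card V ∨ D.leaf v ≠ {2, 3, 5}) :
    ∑ k ∈ D.leaf v, (1 / k : ℝ) < ((D.val v - 2 : ℕ) : ℝ) := by
  have h3 := h.three_le v
  have hm : ((D.val v - 2 : ℕ) : ℝ) = (D.leaf v).card + (D.nbr v).card - 2 := by
    rw [Nat.cast_sub (by omega), Data.val]; push_cast; ring
  rw [hm]
  have hval : 3 ≤ (D.leaf v).card + (D.nbr v).card := h3
  have hs := a7_sum (D.leaf v) (h.two_le v)
  by_cases he : 1 ≤ (D.nbr v).card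
  · have he' : (1 : ℝ) ≤ (D.nbr v).card := by exact_mod_cast he
    have hval' : (3 : ℝ) ≤ (D.leaf v).card + (D.nbr v).card := by exact_mod_cast hval
    by_cases h2 : 2 ≤ (D.leaf v).card
    · have h2' : (2 : ℝ) ≤ (D.leaf v).card := by exact_mod_cast h2
      linarith
    · have h2' : ((D.leaf v).card : ℝ) ≤ 1 := by exact_mod_cast (by omega : (D.leaf v).card ≤ 1)
      linarith
  · have he0 : (D.nbr v).card = 0 := by omega
    have hV : ¬ 2 ≤ Fintype.card V := fun hV => he (a7_nbr h v hV)
    have hne : D.leaf v ≠ {2, 3, 5} := hD.resolve_left hV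
    rw [he0] at hval ⊢
    by_cases h4 : 4 ≤ (D.leaf v).card
    · have h4' : (4 : ℝ) ≤ (D.leaf v).card := by exact_mod_cast h4
      push_cast
      linarith
    · have h5 : (D.leaf v).card = 3 := by omega
      have := a7_three (D.leaf v) (h.two_le v) (h.coprime_leaf v) h5 hne
      rw [h5]
      push_cast
      linarith

end Pool.Agent.OHT
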