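import Pool.Agent.OHT.Defs2

set_option autoImplicit false

open PowerSeries Finset MeasureTheory

namespace Pool.Agent.OHT

variable {V : Type} [Fintype V] [DecidableEq V]

/-- The operator `y d/dy`. -/
private noncomputable def b1_th (f : ℝ⟦X⟧) : ℝ⟦X⟧ := PowerSeries.mk fun n => (n : ℝ) * coeff n f

private theorem b1_coeff_th (f : ℝ⟦X⟧) (n : ℕ) : coeff n (b1_th f) = n * coeff n f := by
  unfold b1_th
  rw [coeff_mk]

private theorem b1_th_mul (f g : ℝ⟦X⟧) : b1_th (f * g) = b1_th f * g + f * b1_th g := by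
  ext n
  rw [b1_coeff_th, map_add, coeff_mul, coeff_mul, coeff_mul, ← Finset.sum_add_distrib,
    Finset.mul_sum]
  refine Finset.sum_congr rfl fun p hp => ?_
  rw [HasAntidiagonal.mem_antidiagonal] at hp
  rw [b1_coeff_th, b1_coeff_th, ← hp]
  push_cast
  ring

private theorem b1_th_one : b1_th 1 = 0 := by
  ext n
  rw [b1_coeff_th, coeff_one]
  by_cases h : n = 0
  · simp [h]
  · simp [h]

private theorem b1_th_rescale (a : ℝ) (f : ℝ⟦X⟧) :
    b1_th (rescale a f) = rescale a (b1_th f) := by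
  ext n
  rw [b1_coeff_th, coeff_rescale, coeff_rescale, b1_coeff_th]
  ring

/-- `g` is the logarithmic derivative of `f`. -/
private def b1_Log (f g : ℝ⟦X⟧) : Prop := b1_th f = g * f

private theorem b1_log_one : b1_Log 1 0 := by
  unfold b1_Log
  rw [b1_th_one, zero_mul]

private theorem b1_log_mul {f f' g g' : ℝ⟦X⟧} (h : b1_Log f g) (h' : b1_Log f' g') :
    b1_Log (f * f') (g + g') := by
  unfold b1_Log at *
  rw [b1_th_mul, h, h']
  ring

private theorem b1_log_pow {f g : ℝ⟦X⟧} (h : b1_Log f g) (m : ℕ) :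
    b1_Log (f ^ m) ((m : ℝ) • g) := by
  induction m with
  | zero => simpa using b1_log_one
  | succ m ih =>
    have h1 := b1_log_mul ih h
    rw [pow_succ]
    have h2 : ((m + 1 : ℕ) : ℝ) • g = (m : ℝ) • g + g := by
      push_cast
      rw [add_smul, one_smul]
    rw [h2]
    exact h1

private theorem b1_log_prod {ι : Type} (s : Finset ι) (f g : ι → ℝ⟦X⟧)
    (h : ∀ i ∈ s, b1_Log (f i) (g i)) : b1_Log (∏ i ∈ s, f i) (∑ i ∈ s, g i) := by
  classical
  induction s using Finset.induction_on with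
  | empty => simpa using b1_log_one
  | insert i s hi ih =>
    rw [Finset.prod_insert hi, Finset.sum_insert hi]
    exact b1_log_mul (h i (Finset.mem_insert_self i s))
      (ih fun j hj => h j (Finset.mem_insert_of_mem hj))

private theorem b1_log_inv {f g : ℝ⟦X⟧} (h : b1_Log f g) (hf : constantCoeff f ≠ 0) :
    b1_Log f⁻¹ (-g) := by
  unfold b1_Log at *
  have h1 : f * f⁻¹ = 1 := PowerSeries.mul_inv_cancel _ hf
  have h2 : b1_th (f * f⁻¹) = 0 := by rw [h1, b1_th_one]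
  rw [b1_th_mul, h] at h2
  have h3 : f * (b1_th f⁻¹ + g * f⁻¹) = 0 := by
    rw [← h2]
    ring
  have h4 : f ≠ 0 := by
    rintro rfl
    exact hf (map_zero _)
  have h5 := (mul_eq_zero.1 h3).resolve_left h4
  have h6 : b1_th f⁻¹ = -(g * f⁻¹) := eq_neg_of_add_eq_zero_left h5
  rw [h6, neg_mul]

private theorem b1_log_rescale {f g : ℝ⟦X⟧} (h : b1_Log f g) (a : ℝ) :
    b1_Log (rescale a f) (rescale a g) := by
  unfold b1_Log at *
  rw [b1_th_rescale, h, map_mul]

/-- A series whose logarithmic derivative has nonnegative coefficients. -/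
private theorem b1_nonneg {f g : ℝ⟦X⟧} (h : b1_Log f g) (h0 : 0 ≤ coeff 0 f)
    (hg0 : coeff 0 g = 0) (hg : ∀ n, 0 ≤ coeff n g) (n : ℕ) : 0 ≤ coeff n f := by
  induction n using Nat.strong_induction_on with
  | _ n ih =>
    rcases Nat.eq_zero_or_pos n with rfl | hn
    · exact h0
    · have h1 : (n : ℝ) * coeff n f = coeff n (g * f) := by
        rw [← b1_coeff_th]
        exact congrArg _ h
      have h2 : 0 ≤ coeff n (g * f) := by
        rw [coeff_mul]
        refine Finset.sum_nonneg fun p hp => ?_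
        rw [HasAntidiagonal.mem_antidiagonal] at hp
        rcases Nat.eq_zero_or_pos p.1 with hp1 | hp1
        · rw [hp1, hg0, zero_mul]
        · exact mul_nonneg (hg _) (ih p.2 (by omega))
      rw [← h1] at h2
      exact nonneg_of_mul_nonneg_right h2 (by exact_mod_cast hn)

/-- The series of `sin (x / 2) / (x / 2)` in `y = x ^ 2`. -/
private noncomputable def b1_A : ℝ⟦X⟧ := rescale (-1 : ℝ) (sinhc 1)

private theorem b1_coeff_A (n : ℕ) :
    coeff n b1_A = (-1) ^ n * (1 / ((2 * ((1 : ℕ) : ℝ)) ^ (2 * n) * (2 * n + 1).factorial)) := by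
  unfold b1_A sinhc
  rw [coeff_rescale, coeff_mk]

private theorem b1_constA : constantCoeff b1_A = 1 := by
  rw [← coeff_zero_eq_constantCoeff_apply, b1_coeff_A]
  norm_num

private theorem b1_ode : (2 : ℝ) • b1_th (b1_th b1_A) + b1_th b1_A = -((1 / 8 : ℝ) • (X * b1_A)) := by
  ext n
  rw [map_add, coeff_smul, b1_coeff_th, b1_coeff_th, map_neg, coeff_smul]
  cases n with
  | zero => simp
  | succ n =>
    rw [coeff_succ_X_mul, b1_coeff_A, b1_coeff_A]
    have h1 : (2 * (n + 1) + 1).factorial = (2 * n + 3) * ((2 * n + 2) * (2 * n + 1).factorial) := by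
      rw [show 2 * (n + 1) + 1 = (2 * n + 2) + 1 by ring, Nat.factorial_succ,
        show 2 * n + 2 = (2 * n + 1) + 1 by ring, Nat.factorial_succ]
    have h2 : ((2 * n + 1).factorial : ℝ) ≠ 0 := by positivity
    have h3 : (2 * ((1 : ℕ) : ℝ)) ^ (2 * (n + 1)) = 4 * (2 * ((1 : ℕ) : ℝ)) ^ (2 * n) := by
      push_cast
      rw [show 2 * (n + 1) = 2 * n + 2 by ring, pow_add]
      ring
    have h4 : (2 * ((1 : ℕ) : ℝ)) ^ (2 * n) ≠ 0 := by positivity
    rw [h1, h3, smul_eq_mul, smul_eq_mul]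
    push_cast
    have h5 : (2 * (n : ℝ) + 3) ≠ 0 := by positivity
    have h6 : (2 * (n : ℝ) + 2) ≠ 0 := by positivity
    rw [pow_succ]
    push_cast at h4
    field_simp
    ring

/-- The negative of the logarithmic derivative of `b1_A`. -/
private noncomputable def b1_g : ℝ⟦X⟧ := -(b1_th b1_A * b1_A⁻¹)

private theorem b1_logA : b1_Log b1_A (-b1_g) := by
  unfold b1_Log b1_g
  rw [neg_neg, mul_assoc, PowerSeries.inv_mul_cancel _ (by rw [b1_constA]; norm_num), mul_one]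

private theorem b1_g_zero : coeff 0 b1_g = 0 := by
  unfold b1_g
  rw [map_neg, coeff_mul]
  simp [b1_coeff_th]

private theorem b1_riccati : b1_g + (2 : ℝ) • b1_th b1_g = (1 / 8 : ℝ) • X + (2 : ℝ) • (b1_g * b1_g) := by
  have hA : b1_A ≠ 0 := by
    intro h
    have := b1_constA
    rw [h, map_zero] at this
    exact zero_ne_one this
  have h1 : b1_th b1_A = -b1_g * b1_A := b1_logA
  have hneg : b1_th (-b1_g) = -b1_th b1_g := by
    ext n
    rw [b1_coeff_th, map_neg, map_neg, b1_coeff_th]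
    ring
  have h2 : b1_th (b1_th b1_A) = (-b1_th b1_g + b1_g * b1_g) * b1_A := by
    rw [h1, b1_th_mul, hneg, h1]
    ring
  have h3 := b1_ode
  rw [h2, h1] at h3
  apply mul_right_cancel₀ hA
  have e1 : (2 : ℝ) • ((-b1_th b1_g + b1_g * b1_g) * b1_A) =
      ((2 : ℝ) • (-b1_th b1_g + b1_g * b1_g)) * b1_A := by rw [smul_mul_assoc]
  have e2 : (1 / 8 : ℝ) • (X * b1_A) = ((1 / 8 : ℝ) • X) * b1_A := by rw [smul_mul_assoc]
  rw [e1, e2] at h3
  have e3 : (2 : ℝ) • (-b1_th b1_g + b1_g * b1_g) =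
      -((2 : ℝ) • b1_th b1_g) + (2 : ℝ) • (b1_g * b1_g) := by
    rw [smul_add, smul_neg]
  rw [e3] at h3
  linear_combination -h3

private theorem b1_g_nonneg (n : ℕ) : 0 ≤ coeff n b1_g := by
  induction n using Nat.strong_induction_on with
  | _ n ih =>
    rcases Nat.eq_zero_or_pos n with rfl | hn
    · rw [b1_g_zero]
    · have h1 := congrArg (coeff n) b1_riccati
      rw [map_add, map_add, coeff_smul, coeff_smul, coeff_smul, b1_coeff_th] at h1
      simp only [smul_eq_mul] at h1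
      have h2 : 0 ≤ coeff n (b1_g * b1_g) := by
        rw [coeff_mul]
        refine Finset.sum_nonneg fun p hp => ?_
        rw [HasAntidiagonal.mem_antidiagonal] at hp
        rcases Nat.eq_zero_or_pos p.1 with hp1 | hp1
        · rw [hp1, b1_g_zero, zero_mul]
        · rcases Nat.eq_zero_or_pos p.2 with hp2 | hp2
          · rw [hp2, b1_g_zero, mul_zero]
          · exact mul_nonneg (ih p.1 (by omega)) (ih p.2 (by omega))
      have h3 : 0 ≤ coeff n (X : ℝ⟦X⟧) := by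
        rw [coeff_X]
        split_ifs <;> norm_num
      have h4 : 0 ≤ (1 + 2 * (n : ℝ)) * coeff n b1_g := by nlinarith
      exact nonneg_of_mul_nonneg_right h4 (by positivity)

private theorem b1_sinhc_eq (k : ℕ) (hk : 1 ≤ k) :
    rescale (-1 : ℝ) (sinhc k) = rescale (((k : ℝ) ^ 2)⁻¹) b1_A := by
  ext n
  unfold b1_A sinhc
  rw [coeff_rescale, coeff_rescale, coeff_rescale, coeff_mk, coeff_mk]
  have hk' : (k : ℝ) ≠ 0 := by
    have : 0 < k := hk
    positivity
  have h1 : (2 * (k : ℝ)) ^ (2 * n) = (k : ℝ) ^ (2 * n) * 2 ^ (2 * n) := by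
    rw [mul_pow, mul_comm]
  have h2 : (((k : ℝ) ^ 2)⁻¹) ^ n = ((k : ℝ) ^ (2 * n))⁻¹ := by
    rw [inv_pow, pow_mul]
  rw [h1, h2]
  push_cast
  rw [mul_one]
  field_simp

private theorem b1_sum_le (N : ℕ) :
    ∑ k ∈ Finset.Icc 2 (N + 1), (((k : ℝ) ^ 2)⁻¹) ≤ 1 - 1 / ((N : ℝ) + 1) := by
  induction N with
  | zero => simp
  | succ N ih =>
    rw [Finset.sum_Icc_succ_top (by omega)]
    have h1 : (((N + 1 + 1 : ℕ) : ℝ) ^ 2)⁻¹ ≤ 1 / ((N : ℝ) + 1) - 1 / ((N : ℝ) + 1 + 1) := by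
      have hN : (0 : ℝ) < (N : ℝ) + 1 := by positivity
      have hN2 : (0 : ℝ) < (N : ℝ) + 1 + 1 := by positivity
      rw [div_sub_div _ _ hN.ne' hN2.ne', inv_eq_one_div]
      push_cast
      rw [div_le_div_iff₀ (by positivity) (by positivity)]
      nlinarith
    push_cast at *
    linarith

private theorem b1_sum_le_one (s : Finset ℕ) (hs : ∀ k ∈ s, 2 ≤ k) {n : ℕ} (hn : 1 ≤ n) :
    ∑ k ∈ s, (((k : ℝ) ^ 2)⁻¹) ^ n ≤ 1 := by
  have h1 : ∑ k ∈ s, (((k : ℝ) ^ 2)⁻¹) ^ n ≤ ∑ k ∈ s, (((k : ℝ) ^ 2)⁻¹) := by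
    refine Finset.sum_le_sum fun k hk => ?_
    have h2 : (1 : ℝ) ≤ (k : ℝ) ^ 2 := by
      have : (2 : ℝ) ≤ k := by exact_mod_cast hs k hk
      nlinarith
    have h3 : ((k : ℝ) ^ 2)⁻¹ ≤ 1 := inv_le_one_of_one_le₀ h2
    calc (((k : ℝ) ^ 2)⁻¹) ^ n ≤ (((k : ℝ) ^ 2)⁻¹) ^ 1 :=
          pow_le_pow_of_le_one (by positivity) h3 hn
      _ = ((k : ℝ) ^ 2)⁻¹ := pow_one _
  have h2 : ∑ k ∈ s, (((k : ℝ) ^ 2)⁻¹) ≤ ∑ k ∈ Finset.Icc 2 (s.sup id + 1), (((k : ℝ) ^ 2)⁻¹) := by
    refine Finset.sum_le_sum_of_subset_of_nonneg (fun k hk => ?_) (fun _ _ _ => by positivity)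
    rw [Finset.mem_Icc]
    have h3 : k ≤ s.sup id := Finset.le_sup (f := id) hk
    exact ⟨hs k hk, by omega⟩
  have h3 := b1_sum_le (s.sup id)
  have h4 : (0 : ℝ) ≤ 1 / (((s.sup id : ℕ) : ℝ) + 1) := by positivity
  linarith

theorem node_sign {D : Data V} (h : D.IsSplice) (v : V) (j : ℕ) :
    0 ≤ (-1) ^ j * coeff j (node D v) := by
  have hc : constantCoeff b1_A ≠ 0 := by
    rw [b1_constA]
    norm_num
  set m : ℕ := D.val v - 2 with hm
  have hm1 : 1 ≤ m := by
    have := h.three_le v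
    omega
  have h1 : rescale (-1 : ℝ) (node D v) =
      (∏ k ∈ D.leaf v, rescale (((k : ℝ) ^ 2)⁻¹) b1_A) * (b1_A⁻¹) ^ m := by
    have hinv : rescale (-1 : ℝ) ((sinhc 1)⁻¹) = b1_A⁻¹ := by
      have hc1 : constantCoeff (sinhc 1) ≠ 0 := by
        rw [← coeff_zero_eq_constantCoeff_apply]
        unfold sinhc
        rw [coeff_mk]
        norm_num
      have e1 : rescale (-1 : ℝ) ((sinhc 1)⁻¹) * b1_A = 1 := by
        unfold b1_A
        rw [← map_mul, PowerSeries.inv_mul_cancel _ hc1, map_one]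
      exact (PowerSeries.eq_inv_iff_mul_eq_one hc).2 e1
    unfold node
    rw [map_mul, map_pow, hinv, map_prod]
    congr 1
    refine Finset.prod_congr rfl fun k hk => ?_
    exact b1_sinhc_eq k (by have := h.two_le v k hk; omega)
  have h2 : b1_Log (rescale (-1 : ℝ) (node D v))
      ((∑ k ∈ D.leaf v, rescale (((k : ℝ) ^ 2)⁻¹) (-b1_g)) + (m : ℝ) • (- -b1_g)) := by
    rw [h1]
    exact b1_log_mul (b1_log_prod _ _ _ fun k _ => b1_log_rescale b1_logA _)
      (b1_log_pow (b1_log_inv b1_logA hc) m)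
  have h3 : ∀ n, coeff n ((∑ k ∈ D.leaf v, rescale (((k : ℝ) ^ 2)⁻¹) (-b1_g)) +
      (m : ℝ) • (- -b1_g)) =
      ((m : ℝ) - ∑ k ∈ D.leaf v, (((k : ℝ) ^ 2)⁻¹) ^ n) * coeff n b1_g := by
    intro n
    rw [map_add, map_sum, coeff_smul, neg_neg, smul_eq_mul]
    simp only [coeff_rescale, map_neg]
    rw [sub_mul, Finset.sum_mul]
    simp only [mul_neg, Finset.sum_neg_distrib]
    ring
  have h4 : coeff j (rescale (-1 : ℝ) (node D v)) = (-1) ^ j * coeff j (node D v) := by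
    rw [coeff_rescale]
  rw [← h4]
  refine b1_nonneg h2 ?_ ?_ ?_ j
  · rw [h1, coeff_zero_eq_constantCoeff_apply, map_mul, map_pow, map_prod]
    have e1 : constantCoeff (b1_A⁻¹) = 1 := by
      rw [PowerSeries.constantCoeff_inv, b1_constA, inv_one]
    have e2 : ∀ k : ℕ, constantCoeff (rescale (((k : ℝ) ^ 2)⁻¹) b1_A) = 1 := by
      intro k
      rw [← coeff_zero_eq_constantCoeff_apply, coeff_rescale, coeff_zero_eq_constantCoeff_apply,
        b1_constA]
      simp
    rw [e1, one_pow, mul_one]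
    simp only [e2, Finset.prod_const_one]
    norm_num
  · rw [h3, b1_g_zero, mul_zero]
  · intro n
    rw [h3]
    rcases Nat.eq_zero_or_pos n with rfl | hn
    · rw [b1_g_zero, mul_zero]
    · refine mul_nonneg ?_ (b1_g_nonneg n)
      have e1 := b1_sum_le_one (D.leaf v) (h.two_le v) hn
      have e2 : (1 : ℝ) ≤ m := by exact_mod_cast hm1
      linarith

end Pool.Agent.OHT
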