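import Pool.Agent.OHT.Defs2

set_option autoImplicit false

open PowerSeries Finset MeasureTheory

namespace Pool.Agent.OHT

variable {V : Type} [Fintype V] [DecidableEq V]

/-- absolute convergence at `z` -/
private def b2_ac (z : ℝ) (f : ℝ⟦X⟧) : Prop := Summable fun j => ‖coeff j f * z ^ j‖

/-- the value at `z` -/
private noncomputable def b2_ev (z : ℝ) (f : ℝ⟦X⟧) : ℝ := ∑' j, coeff j f * z ^ j

private theorem b2_conv (z : ℝ) (f g : ℝ⟦X⟧) (j : ℕ) :
    coeff j (f * g) * z ^ j =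
      ∑ p ∈ antidiagonal j, (coeff p.1 f * z ^ p.1) * (coeff p.2 g * z ^ p.2) := by
  rw [coeff_mul, Finset.sum_mul]
  refine Finset.sum_congr rfl fun p hp => ?_
  rw [← mem_antidiagonal.1 hp, pow_add]
  ring

private theorem b2_ac_mul {z : ℝ} {f g : ℝ⟦X⟧} (hf : b2_ac z f) (hg : b2_ac z g) :
    b2_ac z (f * g) := by
  have h := summable_norm_sum_mul_antidiagonal_of_summable_norm hf hg
  refine h.congr fun j => ?_
  rw [b2_conv]

private theorem b2_ev_mul {z : ℝ} {f g : ℝ⟦X⟧} (hf : b2_ac z f) (hg : b2_ac z g) :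
    b2_ev z (f * g) = b2_ev z f * b2_ev z g := by
  unfold b2_ev
  rw [tsum_mul_tsum_eq_tsum_sum_antidiagonal_of_summable_norm hf hg]
  exact tsum_congr fun j => b2_conv z f g j

private theorem b2_one_aux (z : ℝ) (j : ℕ) : coeff j (1 : ℝ⟦X⟧) * z ^ j = if j = 0 then 1 else 0 := by
  rw [coeff_one]
  split_ifs with h
  · rw [h]
    simp
  · simp

private theorem b2_ac_one (z : ℝ) : b2_ac z 1 := by
  unfold b2_ac
  simp only [b2_one_aux]
  refine summable_of_ne_finset_zero (s := {0}) fun j hj => ?_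
  rw [mem_singleton] at hj
  simp [hj]

private theorem b2_ev_one (z : ℝ) : b2_ev z 1 = 1 := by
  unfold b2_ev
  simp only [b2_one_aux]
  exact tsum_ite_eq 0 _

private theorem b2_pow {z : ℝ} {f : ℝ⟦X⟧} (hf : b2_ac z f) (m : ℕ) :
    b2_ac z (f ^ m) ∧ b2_ev z (f ^ m) = b2_ev z f ^ m := by
  induction m with
  | zero => simpa using ⟨b2_ac_one z, b2_ev_one z⟩
  | succ m ih =>
    rw [pow_succ, pow_succ]
    exact ⟨b2_ac_mul ih.1 hf, by rw [b2_ev_mul ih.1 hf, ih.2]⟩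

private theorem b2_prod {z : ℝ} (s : Finset ℕ) (f : ℕ → ℝ⟦X⟧) (hf : ∀ k ∈ s, b2_ac z (f k)) :
    b2_ac z (∏ k ∈ s, f k) ∧ b2_ev z (∏ k ∈ s, f k) = ∏ k ∈ s, b2_ev z (f k) := by
  induction s using Finset.induction_on with
  | empty => simpa using ⟨b2_ac_one z, b2_ev_one z⟩
  | insert a s ha ih =>
    have h1 := ih fun k hk => hf k (mem_insert_of_mem hk)
    have h2 := hf a (mem_insert_self a s)
    rw [Finset.prod_insert ha, Finset.prod_insert ha]
    exact ⟨b2_ac_mul h2 h1.1, by rw [b2_ev_mul h2 h1.1, h1.2]⟩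

private theorem b2_term (k : ℕ) (hk : 0 < k) (j : ℕ) :
    coeff j (sinhc k) * (-(4 * Real.pi ^ 2)) ^ j =
      (Real.pi / k)⁻¹ * ((-1) ^ j * (Real.pi / k) ^ (2 * j + 1) / (2 * j + 1).factorial) := by
  have hk' : (k : ℝ) ≠ 0 := by exact_mod_cast hk.ne'
  have hpi := Real.pi_ne_zero
  have hpk : Real.pi / k ≠ 0 := div_ne_zero hpi hk'
  rw [sinhc, coeff_mk]
  have e : (-(4 * Real.pi ^ 2)) ^ j = (-1) ^ j * ((Real.pi / k) ^ (2 * j) * (2 * k) ^ (2 * j)) := by
    rw [← mul_pow, show Real.pi / k * (2 * k) = 2 * Real.pi by field_simp, neg_pow, pow_mul]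
    congr 2
    ring
  rw [e, pow_succ]
  have h2k : ((2 * k : ℝ)) ^ (2 * j) ≠ 0 := pow_ne_zero _ (by positivity)
  field_simp

private theorem b2_hasSum (k : ℕ) (hk : 0 < k) :
    HasSum (fun j => coeff j (sinhc k) * (-(4 * Real.pi ^ 2)) ^ j)
      ((Real.pi / k)⁻¹ * Real.sin (Real.pi / k)) := by
  simp only [b2_term k hk]
  exact (Real.hasSum_sin (Real.pi / k)).mul_left _

private theorem b2_ac_sinhc (k : ℕ) (hk : 0 < k) : b2_ac (-(4 * Real.pi ^ 2)) (sinhc k) :=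
  (b2_hasSum k hk).summable.norm

private theorem b2_ev_sinhc (k : ℕ) (hk : 0 < k) :
    b2_ev (-(4 * Real.pi ^ 2)) (sinhc k) = (Real.pi / k)⁻¹ * Real.sin (Real.pi / k) :=
  (b2_hasSum k hk).tsum_eq

theorem node_unbounded {D : Data V} (h : D.IsSplice) (v : V) {r : ℝ} (hr : 4 * Real.pi ^ 2 < r)
    (C : ℝ) : ∃ j, C < |coeff j (node D v)| * r ^ j := by
  by_contra hc
  push Not at hc
  set ρ : ℝ := 4 * Real.pi ^ 2 with hρ
  have hρ0 : 0 < ρ := by positivity
  have hr0 : 0 < r := hρ0.trans hr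
  have hN : b2_ac (-ρ) (node D v) := by
    unfold b2_ac
    have hq : ρ / r < 1 := (div_lt_one hr0).2 hr
    refine Summable.of_nonneg_of_le (fun j => norm_nonneg _) (fun j => ?_)
      ((summable_geometric_of_lt_one (div_nonneg hρ0.le hr0.le) hq).mul_left C)
    rw [norm_mul, norm_pow, norm_neg, Real.norm_of_nonneg hρ0.le, Real.norm_eq_abs]
    have e : ρ ^ j = r ^ j * (ρ / r) ^ j := by
      rw [← mul_pow, mul_div_cancel₀ _ hr0.ne']
    rw [e, ← mul_assoc]
    exact mul_le_mul_of_nonneg_right (hc j) (by positivity)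
  have hval := h.three_le v
  obtain ⟨m, hm⟩ : ∃ m, D.val v - 2 = m + 1 := ⟨D.val v - 3, by omega⟩
  have hmul : node D v * sinhc 1 ^ (m + 1) = ∏ k ∈ D.leaf v, sinhc k := by
    have h1 : sinhc 1 ≠ 0 := by
      intro h0
      have := congrArg (coeff 0) h0
      simp [sinhc] at this
    have h2 : (sinhc 1)⁻¹ * sinhc 1 = 1 := by
      rw [PowerSeries.inv_mul_cancel]
      rw [← coeff_zero_eq_constantCoeff_apply]
      simp [sinhc]
    rw [node, hm, mul_assoc, ← mul_pow, h2, one_pow, mul_one]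
  have hac1 := b2_ac_sinhc 1 one_pos
  rw [← hρ] at hac1
  have hpow := b2_pow hac1 (m + 1)
  have hleft : b2_ev (-ρ) (node D v * sinhc 1 ^ (m + 1)) = 0 := by
    rw [b2_ev_mul hN hpow.1, hpow.2, hρ, b2_ev_sinhc 1 one_pos]
    simp
  have hk0 : ∀ k ∈ D.leaf v, 0 < k := fun k hk => by
    have := h.two_le v k hk
    omega
  have hright := (b2_prod (z := -ρ) (D.leaf v) sinhc (fun k hk => b2_ac_sinhc k (hk0 k hk))).2
  rw [← hmul, hleft] at hright
  have h3 : ∏ k ∈ D.leaf v, b2_ev (-ρ) (sinhc k) ≠ 0 := by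
    refine Finset.prod_ne_zero_iff.2 fun k hk => ?_
    have hk2 := h.two_le v k hk
    have hkp := hk0 k hk
    have hkr : (2 : ℝ) ≤ k := by exact_mod_cast hk2
    rw [hρ, b2_ev_sinhc k hkp]
    have hpk : 0 < Real.pi / k := div_pos Real.pi_pos (by linarith)
    refine mul_ne_zero (inv_ne_zero hpk.ne') (Real.sin_pos_of_pos_of_lt_pi hpk ?_).ne'
    rw [div_lt_iff₀ (by linarith)]
    nlinarith [Real.pi_pos]
  exact h3 hright.symm

end Pool.Agent.OHT
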