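import Pool.Agent.OHT.Defs2
import Pool.Agent.H99.Seif.InvE
import Pool.Agent.H99.Seif.SinhSer

set_option autoImplicit false

open PowerSeries Finset MeasureTheory

namespace Pool.Agent.OHT

variable {V : Type} [Fintype V] [DecidableEq V]

private theorem b3_sinhc (k : ℕ) : sinhc k = Pool.Agent.H99.Seif.E k := by
  ext m
  simp only [sinhc, Pool.Agent.H99.Seif.E, coeff_mk]

private theorem b3_inv : Pool.Agent.H99.Seif.Hol (4 * Real.pi ^ 2) ((sinhc 1)⁻¹) := by
  have h := Pool.Agent.H99.Seif.hol_inv 0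
  rw [b3_sinhc]
  simpa using h

theorem node_bounded {D : Data V} (h : D.IsSplice) (v : V) {r : ℝ} (h0 : 0 < r)
    (hr : r < 4 * Real.pi ^ 2) : ∃ C, ∀ j, |coeff j (node D v)| * r ^ j ≤ C := by
  have h1 : Pool.Agent.H99.Seif.Hol (4 * Real.pi ^ 2) (node D v) := by
    unfold node
    refine Pool.Agent.H99.Seif.hol_mul (Pool.Agent.H99.Seif.hol_prod _ fun k hk => ?_)
      (Pool.Agent.H99.Seif.hol_pow b3_inv _)
    rw [b3_sinhc]
    exact Pool.Agent.H99.Seif.hol_E (le_trans (by norm_num) (h.two_le v k hk)) _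
  exact h1 r h0 hr

end Pool.Agent.OHT
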