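import Pool.Agent.OHT.Defs2
import Pool.Agent.OHT.B3

set_option autoImplicit false

open PowerSeries Finset MeasureTheory

namespace Pool.Agent.OHT

variable {V : Type} [Fintype V] [DecidableEq V]

theorem b5_term_le (k m : ℕ) (z : ℂ) :
    ‖z ^ m / ((2 * k : ℂ) ^ (2 * m) * (2 * m + 1).factorial)‖ ≤ ‖z‖ ^ m / (m.factorial : ℝ) := by
  have h3 : (0 : ℝ) < (m.factorial : ℝ) := by exact_mod_cast Nat.factorial_pos m
  rcases Nat.eq_zero_or_pos k with rfl | hk
  · rcases Nat.eq_zero_or_pos m with rfl | hm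
    · simp
    · have : (2 * ((0 : ℕ) : ℂ)) ^ (2 * m) = 0 := by
        rw [Nat.cast_zero, mul_zero]
        exact zero_pow (by omega)
      rw [this, zero_mul, div_zero, norm_zero]
      positivity
  · have hk' : (1 : ℝ) ≤ (k : ℝ) := by exact_mod_cast hk
    have h1 : (1 : ℝ) ≤ (2 * k : ℝ) ^ (2 * m) := one_le_pow₀ (by linarith)
    have h2 : (m.factorial : ℝ) ≤ ((2 * m + 1).factorial : ℝ) := by
      exact_mod_cast Nat.factorial_le (by omega)
    rw [norm_div, norm_pow]
    refine div_le_div_of_nonneg_left (by positivity) h3 ?_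
    have e : ‖(2 * (k : ℂ)) ^ (2 * m) * ((2 * m + 1).factorial : ℂ)‖ =
        (2 * k : ℝ) ^ (2 * m) * ((2 * m + 1).factorial : ℝ) := by
      rw [norm_mul, norm_pow, norm_mul, Complex.norm_natCast, Complex.norm_natCast,
        Complex.norm_ofNat]
    rw [e]
    nlinarith

theorem b5_summable (k : ℕ) (z : ℂ) :
    Summable fun m : ℕ => ‖z ^ m / ((2 * k : ℂ) ^ (2 * m) * (2 * m + 1).factorial)‖ :=
  Summable.of_nonneg_of_le (fun _ => norm_nonneg _) (fun m => b5_term_le k m z)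
    (Real.summable_pow_div_factorial ‖z‖)

theorem differentiable_Ec (k : ℕ) : Differentiable ℂ (Ec k) := by
  intro z
  have hU : IsOpen (Metric.ball (0 : ℂ) (‖z‖ + 1)) := Metric.isOpen_ball
  have hz : z ∈ Metric.ball (0 : ℂ) (‖z‖ + 1) := by
    rw [mem_ball_zero_iff]
    linarith
  have h := Complex.differentiableOn_tsum_of_summable_norm
    (F := fun (m : ℕ) (w : ℂ) => w ^ m / ((2 * k : ℂ) ^ (2 * m) * (2 * m + 1).factorial))
    (Real.summable_pow_div_factorial (‖z‖ + 1))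
    (fun m => ((differentiable_id.pow m).div_const _).differentiableOn) hU
    (fun m w hw => by
      refine (b5_term_le k m w).trans ?_
      rw [mem_ball_zero_iff] at hw
      have h3 : (0 : ℝ) < (m.factorial : ℝ) := by exact_mod_cast Nat.factorial_pos m
      exact div_le_div_of_nonneg_right (pow_le_pow_left₀ (norm_nonneg _) hw.le m) h3.le)
  exact (h z hz).differentiableAt (hU.mem_nhds hz)

theorem b5_Ec_sq {w : ℂ} (hw : w ≠ 0) : Ec 1 (w ^ 2) = Complex.sinh (w / 2) / (w / 2) := by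
  have h := (Complex.hasSum_sinh (w / 2)).div_const (w / 2)
  unfold Ec
  rw [← h.tsum_eq]
  refine tsum_congr fun m => ?_
  have hf : ((2 * m + 1).factorial : ℂ) ≠ 0 := by exact_mod_cast Nat.factorial_ne_zero _
  have hw2 : w / 2 ≠ 0 := div_ne_zero hw two_ne_zero
  have e : (w / 2) ^ (2 * m + 1) = (w ^ 2) ^ m / 2 ^ (2 * m) * (w / 2) := by
    rw [pow_succ, div_pow, pow_mul w 2 m]
  rw [e, Nat.cast_one, mul_one]
  field_simp

theorem Ec_one_ne_zero {z : ℂ} (hz : z ∈ slit (4 * Real.pi ^ 2)) : Ec 1 z ≠ 0 := by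
  intro h0
  obtain ⟨w, hw⟩ := IsAlgClosed.exists_pow_nat_eq z (n := 2) (by norm_num)
  rcases eq_or_ne w 0 with h | h
  · have hz0 : z = 0 := by rw [← hw, h]; simp
    rw [hz0] at h0
    have : Ec 1 0 = 1 := by
      unfold Ec
      rw [tsum_eq_single 0]
      · simp
      · intro m hm
        rw [zero_pow hm, zero_div]
    rw [this] at h0
    exact one_ne_zero h0
  · rw [← hw, b5_Ec_sq h, div_eq_zero_iff] at h0
    have h1 : Complex.sinh (w / 2) = 0 := by
      rcases h0 with h0 | h0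
      · exact h0
      · exact absurd h0 (div_ne_zero h two_ne_zero)
    have h2 : Complex.sin (-(w / 2) * Complex.I) = 0 := by
      have := Complex.sinh_mul_I (-(w / 2) * Complex.I)
      have e : -(w / 2) * Complex.I * Complex.I = w / 2 := by
        rw [mul_assoc, Complex.I_mul_I]; ring
      rw [e, h1] at this
      exact (mul_eq_zero.1 this.symm).resolve_right Complex.I_ne_zero
    obtain ⟨n, hn⟩ := Complex.sin_eq_zero_iff.1 h2
    have e3 : w = 2 * (n * Real.pi) * Complex.I := by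
      rw [← hn]
      have : (2 : ℂ) * (-(w / 2) * Complex.I) * Complex.I = w * (-(Complex.I * Complex.I)) := by
        ring
      rw [this, Complex.I_mul_I]; ring
    have e4 : z = ((-(4 * Real.pi ^ 2 * (n : ℝ) ^ 2) : ℝ) : ℂ) := by
      rw [← hw, e3, mul_pow, Complex.I_sq]
      push_cast
      ring
    have hn0 : n ≠ 0 := by
      rintro rfl
      apply h
      rw [e3]
      simp
    have hn1 : (1 : ℝ) ≤ (n : ℝ) ^ 2 := by
      have : (1 : ℤ) ≤ n ^ 2 := by
        have := sq_nonneg n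
        have h3 : n ^ 2 ≠ 0 := pow_ne_zero 2 hn0
        omega
      exact_mod_cast this
    rcases hz with hz | hz
    · apply hz
      rw [e4, Complex.ofReal_im]
    · rw [e4, Complex.ofReal_re] at hz
      have hpi : 0 < 4 * Real.pi ^ 2 := by positivity
      nlinarith

/-- `f` converges absolutely at `z`, with the value `s`. -/
def b5_Sm (f : ℝ⟦X⟧) (z s : ℂ) : Prop :=
  (Summable fun j => ‖((coeff j f : ℝ) : ℂ) * z ^ j‖) ∧
    HasSum (fun j => ((coeff j f : ℝ) : ℂ) * z ^ j) s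

theorem b5_Sm_mul {f g : ℝ⟦X⟧} {z s t : ℂ} (hf : b5_Sm f z s) (hg : b5_Sm g z t) :
    b5_Sm (f * g) z (s * t) := by
  have e : ∀ j, ((coeff j (f * g) : ℝ) : ℂ) * z ^ j = ∑ p ∈ antidiagonal j,
      (((coeff p.1 f : ℝ) : ℂ) * z ^ p.1) * (((coeff p.2 g : ℝ) : ℂ) * z ^ p.2) := by
    intro j
    rw [coeff_mul, Complex.ofReal_sum, Finset.sum_mul]
    refine Finset.sum_congr rfl fun p hp => ?_
    rw [← mem_antidiagonal.1 hp, pow_add, Complex.ofReal_mul]
    ring
  have h1 := summable_norm_sum_mul_antidiagonal_of_summable_norm hf.1 hg.1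
  have h2 : Summable fun j => ‖((coeff j (f * g) : ℝ) : ℂ) * z ^ j‖ := by
    refine h1.congr fun j => ?_
    rw [e]
  refine ⟨h2, ?_⟩
  have h3 := tsum_mul_tsum_eq_tsum_sum_antidiagonal_of_summable_norm hf.1 hg.1
  rw [hf.2.tsum_eq, hg.2.tsum_eq] at h3
  rw [h3]
  have h4 := h2.of_norm.hasSum
  simp only [e] at h4 ⊢
  exact h4

theorem b5_Sm_one (z : ℂ) : b5_Sm 1 z 1 := by
  have e : ∀ j, j ≠ 0 → ((coeff j (1 : ℝ⟦X⟧) : ℝ) : ℂ) * z ^ j = 0 := by
    intro j hj
    rw [coeff_one, if_neg hj]; simp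
  constructor
  · refine summable_of_ne_finset_zero (s := {0}) fun j hj => ?_
    rw [e j (by simpa using hj), norm_zero]
  · have := hasSum_single (f := fun j => ((coeff j (1 : ℝ⟦X⟧) : ℝ) : ℂ) * z ^ j) 0
      (fun j hj => e j hj)
    simpa using this

theorem b5_Sm_pow {f : ℝ⟦X⟧} {z s : ℂ} (hf : b5_Sm f z s) (n : ℕ) : b5_Sm (f ^ n) z (s ^ n) := by
  induction n with
  | zero => rw [pow_zero, pow_zero]; exact b5_Sm_one z
  | succ n ih => rw [pow_succ, pow_succ]; exact b5_Sm_mul ih hf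

theorem b5_Sm_prod {ι : Type} [DecidableEq ι] (s : Finset ι) {f : ι → ℝ⟦X⟧} {z : ℂ} {g : ι → ℂ}
    (hf : ∀ i ∈ s, b5_Sm (f i) z (g i)) : b5_Sm (∏ i ∈ s, f i) z (∏ i ∈ s, g i) := by
  induction s using Finset.induction_on with
  | empty => rw [Finset.prod_empty, Finset.prod_empty]; exact b5_Sm_one z
  | insert a s ha ih =>
    rw [Finset.prod_insert ha, Finset.prod_insert ha]
    exact b5_Sm_mul (hf a (mem_insert_self _ _)) (ih fun i hi => hf i (mem_insert_of_mem hi))

theorem b5_Sm_sinhc (k : ℕ) (z : ℂ) : b5_Sm (sinhc k) z (Ec k z) := by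
  have e : ∀ m, ((coeff m (sinhc k) : ℝ) : ℂ) * z ^ m =
      z ^ m / ((2 * k : ℂ) ^ (2 * m) * (2 * m + 1).factorial) := by
    intro m
    unfold sinhc
    rw [coeff_mk]
    push_cast
    ring
  have h1 := b5_summable k z
  constructor
  · exact h1.congr fun m => by rw [e]
  · unfold Ec
    simp only [e]
    exact h1.of_norm.hasSum

theorem b5_mem_slit {z : ℂ} (hz : ‖z‖ < 4 * Real.pi ^ 2) : z ∈ slit (4 * Real.pi ^ 2) := by
  right
  have h1 := Complex.abs_re_le_norm z
  have h2 := neg_abs_le z.re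
  linarith

theorem nodeC_hasSum {D : Data V} (h : D.IsSplice) (v : V) {z : ℂ}
    (hz : ‖z‖ < 4 * Real.pi ^ 2) :
    HasSum (fun j => ((coeff j (node D v) : ℝ) : ℂ) * z ^ j) (nodeC D v z) := by
  have hne := Ec_one_ne_zero (b5_mem_slit hz)
  -- absolute convergence of the node series
  have hs : Summable fun j => ‖((coeff j (node D v) : ℝ) : ℂ) * z ^ j‖ := by
    obtain ⟨r, hr1, hr2⟩ := exists_between hz
    have hr0 : 0 < r := lt_of_le_of_lt (norm_nonneg _) hr1
    obtain ⟨C, hC⟩ := node_bounded h v hr0 hr2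
    have hq0 : 0 ≤ ‖z‖ / r := div_nonneg (norm_nonneg _) hr0.le
    have hq1 : ‖z‖ / r < 1 := (div_lt_one hr0).2 hr1
    refine Summable.of_nonneg_of_le (fun _ => norm_nonneg _) (fun j => ?_)
      ((summable_geometric_of_lt_one hq0 hq1).mul_left C)
    have h4 : ‖z‖ ^ j = r ^ j * (‖z‖ / r) ^ j := by
      rw [← mul_pow, mul_div_cancel₀ _ hr0.ne']
    rw [norm_mul, norm_pow, Complex.norm_real, Real.norm_eq_abs, h4, ← mul_assoc]
    exact mul_le_mul_of_nonneg_right (hC j) (by positivity)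
  set S := ∑' j, ((coeff j (node D v) : ℝ) : ℂ) * z ^ j with hS
  have h1 : b5_Sm (node D v) z S := ⟨hs, hs.of_norm.hasSum⟩
  have h2 := b5_Sm_mul h1 (b5_Sm_pow (b5_Sm_sinhc 1 z) (D.val v - 2))
  have h3 := b5_Sm_prod (D.leaf v) (fun k _ => b5_Sm_sinhc k z)
  have hc : constantCoeff (sinhc 1) ≠ 0 := by
    rw [← coeff_zero_eq_constantCoeff_apply]
    unfold sinhc
    rw [coeff_mk]
    norm_num
  have h4 : node D v * sinhc 1 ^ (D.val v - 2) = ∏ k ∈ D.leaf v, sinhc k := by
    unfold node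
    rw [mul_assoc, ← mul_pow, PowerSeries.inv_mul_cancel _ hc, one_pow, mul_one]
  rw [h4] at h2
  have h5 : S * Ec 1 z ^ (D.val v - 2) = ∏ k ∈ D.leaf v, Ec k z := h2.2.unique h3.2
  have h6 : nodeC D v z = S := by
    unfold nodeC
    rw [← h5, mul_assoc, ← mul_pow, mul_inv_cancel₀ hne, one_pow, mul_one]
  rw [h6]
  exact h1.2

end Pool.Agent.OHT
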