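import Pool.Agent.OHT.Defs2

set_option autoImplicit false

open PowerSeries Finset MeasureTheory

namespace Pool.Agent.OHT

variable {V : Type} [Fintype V] [DecidableEq V]

/-- `sinh x / x` -/
private noncomputable def b6_sc (x : ℝ) : ℝ := if x = 0 then 1 else Real.sinh x / x

private theorem b6_hasSum (x : ℝ) :
    HasSum (fun m : ℕ => x ^ (2 * m) / ((2 * m + 1).factorial : ℝ)) (b6_sc x) := by
  unfold b6_sc
  split_ifs with h
  · subst h
    have h1 := hasSum_single (f := fun m : ℕ => (0 : ℝ) ^ (2 * m) / ((2 * m + 1).factorial : ℝ)) 0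
      (fun m hm => by
        rw [zero_pow (by omega : 2 * m ≠ 0), zero_div])
    simpa using h1
  · have h1 := (Real.hasSum_sinh x).div_const x
    have h2 : (fun m : ℕ => x ^ (2 * m) / ((2 * m + 1).factorial : ℝ)) =
        fun m : ℕ => x ^ (2 * m + 1) / ((2 * m + 1).factorial : ℝ) / x := by
      funext m
      rw [pow_succ]
      field_simp
    rw [h2]
    exact h1

private theorem b6_Ec (k : ℕ) (r : ℝ) :
    Ec k ((r ^ 2 : ℝ) : ℂ) = ((b6_sc (r / (2 * k)) : ℝ) : ℂ) := by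
  unfold Ec
  rw [← (b6_hasSum (r / (2 * k))).tsum_eq, Complex.ofReal_tsum]
  refine tsum_congr fun m => ?_
  rw [div_pow, div_div]
  push_cast
  rw [← pow_mul]

private theorem b6_pos {x : ℝ} (hx : 0 ≤ x) : 0 < b6_sc x := by
  unfold b6_sc
  split_ifs with h
  · exact one_pos
  · have h1 : 0 < x := lt_of_le_of_ne hx (Ne.symm h)
    exact div_pos (Real.sinh_pos_iff.2 h1) h1

private theorem b6_le {x : ℝ} (hx : 0 ≤ x) : b6_sc x ≤ Real.exp x := by
  unfold b6_sc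
  split_ifs with h
  · rw [h, Real.exp_zero]
  · have h1 : 0 < x := lt_of_le_of_ne hx (Ne.symm h)
    rw [div_le_iff₀ h1, Real.sinh_eq]
    have h2 := Real.add_one_le_exp (-(2 * x))
    have h3 : Real.exp (-x) = Real.exp x * Real.exp (-(2 * x)) := by
      rw [← Real.exp_add]
      congr 1
      ring
    rw [h3]
    have h4 := Real.exp_pos x
    nlinarith

private theorem b6_ge {x : ℝ} (hx : 0 ≤ x) : Real.exp x ≤ (1 + 2 * x) * b6_sc x := by
  unfold b6_sc
  split_ifs with h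
  · rw [h, Real.exp_zero]
    norm_num
  · have h1 : 0 < x := lt_of_le_of_ne hx (Ne.symm h)
    rw [← mul_div_assoc, le_div_iff₀ h1, Real.sinh_eq]
    have h2 := Real.add_one_le_exp (2 * x)
    have h3 : Real.exp x = Real.exp (-x) * Real.exp (2 * x) := by
      rw [← Real.exp_add]
      congr 1
      ring
    rw [h3]
    have h4 := Real.exp_pos (-x)
    nlinarith

private theorem b6_nodeC (D : Data V) (v : V) (r : ℝ) :
    nodeC D v ((r ^ 2 : ℝ) : ℂ) = (((∏ k ∈ D.leaf v, b6_sc (r / (2 * k))) *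
      ((b6_sc (r / 2))⁻¹) ^ (D.val v - 2) : ℝ) : ℂ) := by
  have e : ∀ k : ℕ, Ec k ((r ^ 2 : ℝ) : ℂ) = ((b6_sc (r / (2 * k)) : ℝ) : ℂ) :=
    fun k => b6_Ec k r
  have e1 := e 1
  rw [Nat.cast_one, mul_one] at e1
  generalize ((r ^ 2 : ℝ) : ℂ) = z at e e1 ⊢
  unfold nodeC
  rw [Complex.ofReal_mul, Complex.ofReal_prod, Complex.ofReal_pow, Complex.ofReal_inv, e1]
  congr 1
  exact Finset.prod_congr rfl fun k _ => e k

theorem nodeC_real (D : Data V) (v : V) {y : ℝ} (hy : 0 ≤ y) :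
    ∃ t : ℝ, 0 < t ∧ nodeC D v y = t := by
  have h := b6_nodeC D v (Real.sqrt y)
  rw [Real.sq_sqrt hy] at h
  refine ⟨_, ?_, h⟩
  have hr := Real.sqrt_nonneg y
  exact mul_pos (Finset.prod_pos fun k _ => b6_pos (by positivity))
    (pow_pos (inv_pos.2 (b6_pos (by positivity))) _)

theorem nodeC_le (D : Data V) (v : V) (h0 : ∀ k ∈ D.leaf v, 1 ≤ k) {r : ℝ} (hr : 0 ≤ r) :
    ‖nodeC D v ((r ^ 2 : ℝ) : ℂ)‖ ≤ (1 + r) ^ (D.val v - 2) *
      Real.exp ((∑ k ∈ D.leaf v, (1 / k : ℝ) - ((D.val v - 2 : ℕ) : ℝ)) * r / 2) := by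
  have hp : ∀ k : ℕ, 0 ≤ r / (2 * k) := fun k => by positivity
  have hr2 : 0 ≤ r / 2 := by positivity
  have h1 : ∏ k ∈ D.leaf v, b6_sc (r / (2 * k)) ≤
      Real.exp ((∑ k ∈ D.leaf v, (1 / k : ℝ)) * r / 2) := by
    calc ∏ k ∈ D.leaf v, b6_sc (r / (2 * k)) ≤ ∏ k ∈ D.leaf v, Real.exp (r / (2 * k)) :=
          Finset.prod_le_prod (fun k _ => (b6_pos (hp k)).le) fun k _ => b6_le (hp k)
      _ = Real.exp ((∑ k ∈ D.leaf v, (1 / k : ℝ)) * r / 2) := by
          rw [← Real.exp_sum, Finset.sum_mul, Finset.sum_div]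
          congr 1
          refine Finset.sum_congr rfl fun k hk => ?_
          have hk' : (k : ℝ) ≠ 0 := by
            have := h0 k hk
            positivity
          field_simp
  have h2 : (b6_sc (r / 2))⁻¹ ≤ (1 + r) * Real.exp (-(r / 2)) := by
    have h3 := b6_ge hr2
    rw [show 1 + 2 * (r / 2) = 1 + r by ring] at h3
    rw [inv_le_iff_one_le_mul₀ (b6_pos hr2)]
    have h4 : Real.exp (-(r / 2)) * Real.exp (r / 2) = 1 := by
      rw [← Real.exp_add, neg_add_cancel, Real.exp_zero]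
    have h5 := Real.exp_pos (-(r / 2))
    nlinarith [mul_le_mul_of_nonneg_left h3 h5.le]
  have h6 : 0 ≤ (b6_sc (r / 2))⁻¹ := (inv_pos.2 (b6_pos hr2)).le
  rw [b6_nodeC, Complex.norm_real, Real.norm_eq_abs, abs_of_nonneg
    (mul_nonneg (Finset.prod_nonneg fun k _ => (b6_pos (hp k)).le) (pow_nonneg h6 _))]
  calc (∏ k ∈ D.leaf v, b6_sc (r / (2 * k))) * ((b6_sc (r / 2))⁻¹) ^ (D.val v - 2)
      ≤ Real.exp ((∑ k ∈ D.leaf v, (1 / k : ℝ)) * r / 2) *
        ((1 + r) * Real.exp (-(r / 2))) ^ (D.val v - 2) :=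
        mul_le_mul h1 (pow_le_pow_left₀ h6 h2 _) (pow_nonneg h6 _) (Real.exp_pos _).le
    _ = (1 + r) ^ (D.val v - 2) *
      Real.exp ((∑ k ∈ D.leaf v, (1 / k : ℝ) - ((D.val v - 2 : ℕ) : ℝ)) * r / 2) := by
        rw [mul_pow, ← Real.exp_nat_mul, ← mul_assoc, mul_comm _ ((1 + r) ^ (D.val v - 2)),
          mul_assoc, ← Real.exp_add]
        congr 2
        ring

end Pool.Agent.OHT
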