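import Pool.Agent.OHT.Defs2
import Pool.Agent.OHT.A4b

set_option autoImplicit false

open PowerSeries Finset MeasureTheory

namespace Pool.Agent.OHT

variable {V : Type} [Fintype V] [DecidableEq V]

open scoped MatrixOrder in
private theorem c1_isUnit_sqrt {ι : Type} [Fintype ι] [DecidableEq ι] {S : Matrix ι ι ℝ}
    (hS : S.PosDef) : IsUnit (CFC.sqrt S) := by
  have hps : (0 : Matrix ι ι ℝ) ≤ S := hS.posSemidef.nonneg
  have hs : CFC.sqrt S * CFC.sqrt S = S := CFC.sqrt_mul_sqrt_self S hps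
  have hu : IsUnit S := hS.isUnit
  rw [Matrix.isUnit_iff_isUnit_det] at hu ⊢
  rw [← hs, Matrix.det_mul] at hu
  exact isUnit_of_mul_isUnit_left hu

open scoped MatrixOrder in
private theorem c1_gaussian {ι : Type} [Fintype ι] [DecidableEq ι] {S : Matrix ι ι ℝ}
    (hS : S.PosDef) : ∃ T : EuclideanSpace ℝ ι ≃L[ℝ] EuclideanSpace ℝ ι,
    ProbabilityTheory.multivariateGaussian 0 S =
      (ProbabilityTheory.stdGaussian (EuclideanSpace ℝ ι)).map T := by
  have hA : IsUnit (Matrix.toEuclideanCLM (n := ι) (𝕜 := ℝ) (CFC.sqrt S)) :=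
    (c1_isUnit_sqrt hS).map (Matrix.toEuclideanCLM (n := ι) (𝕜 := ℝ))
  obtain ⟨U, hU⟩ := hA
  refine ⟨ContinuousLinearEquiv.ofUnit U, ?_⟩
  unfold ProbabilityTheory.multivariateGaussian
  congr 1
  funext x
  rw [zero_add, ← hU]
  rfl

theorem integral_cov {D : Data V} (h : D.IsSplice) : ∃ T : Sp V ≃L[ℝ] Sp V,
    ProbabilityTheory.multivariateGaussian 0 (cov D) =
      (ProbabilityTheory.stdGaussian (Sp V)).map T :=
  c1_gaussian (cov_posDef h)

end Pool.Agent.OHT
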