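import Pool.Agent.OHT.Defs2
import Pool.Agent.OHT.A4b

set_option autoImplicit false

open PowerSeries Finset MeasureTheory

namespace Pool.Agent.OHT

variable {V : Type} [Fintype V] [DecidableEq V]

/-- the normalised even moments of the standard Gaussian law -/
private noncomputable def c2_u (a : ℕ) : ℝ :=
  Real.Gamma (a + 1 / 2) / (Real.sqrt Real.pi * a.factorial)

private theorem c2_u_zero : c2_u 0 = 1 := by
  have : Real.sqrt Real.pi ≠ 0 := (Real.sqrt_pos.mpr Real.pi_pos).ne'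
  rw [c2_u, Nat.cast_zero, zero_add, Real.Gamma_one_half_eq, Nat.factorial_zero, Nat.cast_one,
    mul_one, div_self this]

private theorem c2_u_succ (a : ℕ) : 2 * (a + 1) * c2_u (a + 1) = (2 * a + 1) * c2_u a := by
  have h1 : Real.sqrt Real.pi ≠ 0 := (Real.sqrt_pos.mpr Real.pi_pos).ne'
  have h2 : (a.factorial : ℝ) ≠ 0 := by exact_mod_cast a.factorial_ne_zero
  have h3 : (a + 1 : ℝ) ≠ 0 := by positivity
  have h4 : Real.Gamma (((a + 1 : ℕ) : ℝ) + 1 / 2) = (a + 1 / 2) * Real.Gamma (a + 1 / 2) := by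
    rw [show (((a + 1 : ℕ) : ℝ) + 1 / 2) = (a + 1 / 2) + 1 by push_cast; ring,
      Real.Gamma_add_one (by positivity)]
  rw [c2_u, c2_u, h4, Nat.factorial_succ]
  push_cast
  field_simp

private theorem c2_mom (a : ℕ) : ∫ x, x ^ (2 * a) ∂(ProbabilityTheory.gaussianReal 0 1) =
    2 ^ a * a.factorial * c2_u a := by
  have h1 : Real.sqrt Real.pi ≠ 0 := (Real.sqrt_pos.mpr Real.pi_pos).ne'
  have h2 : (a.factorial : ℝ) ≠ 0 := by exact_mod_cast a.factorial_ne_zero
  rw [ProbabilityTheory.integral_gaussianReal_eq_integral_smul one_ne_zero]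
  have e1 : ∀ x : ℝ, ProbabilityTheory.gaussianPDFReal 0 1 x • x ^ (2 * a) =
      (Real.sqrt (2 * Real.pi))⁻¹ *
        (fun y : ℝ => y ^ ((2 * a : ℕ) : ℝ) * Real.exp (-(1 / 2) * y ^ (2 : ℝ))) |x| := by
    intro x
    simp only [ProbabilityTheory.gaussianPDFReal, smul_eq_mul, NNReal.coe_one, mul_one, sub_zero]
    have habs : |x| ^ (2 * a) = x ^ (2 * a) := by rw [pow_mul, sq_abs, ← pow_mul]
    have h22 : |x| ^ (2 : ℝ) = x ^ 2 := by
      rw [show (2 : ℝ) = ((2 : ℕ) : ℝ) by norm_num, Real.rpow_natCast, sq_abs]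
    rw [Real.rpow_natCast, habs, h22, show -(1 / 2 : ℝ) * x ^ 2 = -x ^ 2 / 2 by ring]
    ring
  rw [integral_congr_ae (Filter.Eventually.of_forall e1), integral_const_mul, integral_comp_abs
      (f := fun y : ℝ => y ^ ((2 * a : ℕ) : ℝ) * Real.exp (-(1 / 2) * y ^ (2 : ℝ))),
    integral_rpow_mul_exp_neg_mul_rpow (by norm_num) (by
      have : (0 : ℝ) ≤ ((2 * a : ℕ) : ℝ) := Nat.cast_nonneg _
      linarith) (by norm_num)]
  have e2 : (((2 * a : ℕ) : ℝ) + 1) / 2 = a + 1 / 2 := by push_cast; ring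
  have e3 : -(((2 * a : ℕ) : ℝ) + 1) / 2 = -(a + 1 / 2) := by push_cast; ring
  have e4 : (1 / 2 : ℝ) ^ (-(a + 1 / 2 : ℝ)) = 2 ^ a * Real.sqrt 2 := by
    rw [one_div, Real.inv_rpow (by norm_num), Real.rpow_neg (by norm_num), inv_inv,
      Real.rpow_add (by norm_num), Real.rpow_natCast, ← one_div, ← Real.sqrt_eq_rpow]
  rw [e2, e3, e4, c2_u, Real.sqrt_mul (by norm_num)]
  have h5 : Real.sqrt 2 ≠ 0 := (Real.sqrt_pos.mpr (by norm_num)).ne'
  field_simp

private theorem c2_conv (k : ℕ) : ∑ p ∈ antidiagonal k, c2_u p.1 * c2_u p.2 = 1 := by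
  induction k with
  | zero => simp [c2_u_zero]
  | succ k ih =>
    have hk : (k + 1 : ℝ) ≠ 0 := by positivity
    have hsym : ∀ n : ℕ, ∑ p ∈ antidiagonal n, 2 * (p.1 : ℝ) * (c2_u p.1 * c2_u p.2) =
        n * ∑ p ∈ antidiagonal n, c2_u p.1 * c2_u p.2 := by
      intro n
      have h1 : ∑ p ∈ antidiagonal n, (p.1 : ℝ) * (c2_u p.1 * c2_u p.2) =
          ∑ p ∈ antidiagonal n, (p.2 : ℝ) * (c2_u p.1 * c2_u p.2) := by
        rw [← Finset.Nat.sum_antidiagonal_swap]
        refine Finset.sum_congr rfl fun p _ => ?_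
        simp only [Prod.fst_swap, Prod.snd_swap]
        ring
      have h2 : ∑ p ∈ antidiagonal n, 2 * (p.1 : ℝ) * (c2_u p.1 * c2_u p.2) =
          ∑ p ∈ antidiagonal n, (p.1 : ℝ) * (c2_u p.1 * c2_u p.2) +
          ∑ p ∈ antidiagonal n, (p.2 : ℝ) * (c2_u p.1 * c2_u p.2) := by
        rw [← h1, ← Finset.sum_add_distrib]
        exact Finset.sum_congr rfl fun p _ => by ring
      rw [h2, ← Finset.sum_add_distrib, Finset.mul_sum]
      refine Finset.sum_congr rfl fun p hp => ?_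
      have := HasAntidiagonal.mem_antidiagonal.mp hp
      have h3 : (p.1 : ℝ) + p.2 = n := by exact_mod_cast this
      rw [← h3]
      ring
    have h4 := hsym (k + 1)
    rw [Finset.Nat.sum_antidiagonal_succ] at h4
    simp only [Nat.cast_zero, mul_zero, zero_mul, zero_add] at h4
    have h5 : ∑ p ∈ antidiagonal k, 2 * (((p.1 + 1 : ℕ) : ℝ)) * (c2_u (p.1 + 1) * c2_u p.2) =
        ∑ p ∈ antidiagonal k, 2 * (p.1 : ℝ) * (c2_u p.1 * c2_u p.2) +
        ∑ p ∈ antidiagonal k, c2_u p.1 * c2_u p.2 := by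
      rw [← Finset.sum_add_distrib]
      refine Finset.sum_congr rfl fun p _ => ?_
      have := c2_u_succ p.1
      push_cast
      linear_combination (c2_u p.2) * this
    rw [h5, hsym k, ih] at h4
    have h6 : ((k + 1 : ℕ) : ℝ) * ∑ p ∈ antidiagonal (k + 1), c2_u p.1 * c2_u p.2 =
        (k + 1 : ℝ) * 1 := by
      rw [← h4]; ring
    push_cast at h6
    exact mul_left_cancel₀ hk h6

private theorem c2_part (k : ℕ) : ∑ p ∈ antidiagonal k, c2_u p.2 = (2 * k + 1) * c2_u k := by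
  induction k with
  | zero => simp
  | succ k ih =>
    rw [Finset.Nat.sum_antidiagonal_succ]
    simp only
    rw [ih]
    have := c2_u_succ k
    push_cast
    linarith

private theorem c2_fac (k : ℕ) : (2 : ℝ) ^ k * k.factorial * ((2 * k + 1) * c2_u k) =
    (2 * k + 1).factorial / (2 ^ k * k.factorial) := by
  induction k with
  | zero => simp [c2_u_zero]
  | succ k ih =>
    have h1 : (k.factorial : ℝ) ≠ 0 := by exact_mod_cast k.factorial_ne_zero
    have h2 := c2_u_succ k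
    have h3 : ((2 * (k + 1) + 1).factorial : ℝ) = (2 * k + 3) * ((2 * k + 2) * (2 * k + 1).factorial) := by
      rw [show 2 * (k + 1) + 1 = (2 * k + 1 + 1) + 1 by ring, Nat.factorial_succ, Nat.factorial_succ]
      push_cast
      ring
    rw [eq_div_iff (by positivity)] at ih
    rw [eq_div_iff (by positivity), h3, Nat.factorial_succ]
    push_cast
    have h4 : (2 : ℝ) ^ (k + 1) = 2 ^ k * 2 := pow_succ _ _
    rw [h4]
    linear_combination (2 * (k : ℝ) + 3) * (2 * k + 2) * ih +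
      (2 : ℝ) ^ k * k.factorial * (2 ^ k * k.factorial) * (2 * (k + 1)) * (2 * k + 3) * h2

private theorem c2_mono (a b c : ℕ) :
    Integrable (fun x : Fin 3 → ℝ => (x 0 ^ 2) ^ a * (x 1 ^ 2) ^ b * (x 2 ^ 2) ^ c)
      (Measure.pi fun _ : Fin 3 => ProbabilityTheory.gaussianReal 0 1) ∧
    ∫ x : Fin 3 → ℝ, (x 0 ^ 2) ^ a * (x 1 ^ 2) ^ b * (x 2 ^ 2) ^ c
      ∂(Measure.pi fun _ : Fin 3 => ProbabilityTheory.gaussianReal 0 1) =
      (2 ^ a * a.factorial * c2_u a) * (2 ^ b * b.factorial * c2_u b) *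
        (2 ^ c * c.factorial * c2_u c) := by
  have e : (fun x : Fin 3 → ℝ => (x 0 ^ 2) ^ a * (x 1 ^ 2) ^ b * (x 2 ^ 2) ^ c) =
      fun x => ∏ i, (fun i (y : ℝ) => y ^ (2 * (![a, b, c] : Fin 3 → ℕ) i)) i (x i) := by
    funext x
    rw [Fin.prod_univ_three]
    simp [pow_mul]
  constructor
  · rw [e]
    refine Integrable.fintype_prod fun i => ?_
    have h1 := ProbabilityTheory.memLp_id_gaussianReal (μ := 0) (v := 1)
      ((2 * (![a, b, c] : Fin 3 → ℕ) i : ℕ) : NNReal)
    have h2 := h1.integrable_norm_pow'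
    have h3 : (fun x : ℝ => ‖id x‖ ^ (2 * (![a, b, c] : Fin 3 → ℕ) i)) =
        fun x : ℝ => x ^ (2 * (![a, b, c] : Fin 3 → ℕ) i) := by
      funext x
      rw [id, Real.norm_eq_abs, pow_mul, pow_mul, sq_abs]
    rw [h3] at h2
    exact h2
  · rw [e, integral_fintype_prod_eq_prod
      (f := fun i (y : ℝ) => y ^ (2 * (![a, b, c] : Fin 3 → ℕ) i)), Fin.prod_univ_three]
    simp only [Matrix.cons_val_zero, Matrix.cons_val_one, Matrix.cons_val_two, Matrix.head_cons,
      Matrix.tail_cons, Matrix.cons_val]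
    rw [c2_mom, c2_mom, c2_mom]

private theorem c2_choose {n : ℕ} {p : ℕ × ℕ} (hp : p ∈ antidiagonal n) :
    (n.choose p.1 : ℝ) * (p.1.factorial * p.2.factorial) = n.factorial := by
  have h := HasAntidiagonal.mem_antidiagonal.mp hp
  have h1 := Nat.choose_mul_factorial_mul_factorial (show p.1 ≤ n by omega)
  rw [show n - p.1 = p.2 by omega] at h1
  rw [← h1]
  push_cast
  ring

private theorem c2_pi (k : ℕ) : ∫ x : Fin 3 → ℝ, (∑ i, x i ^ 2) ^ k
      ∂(Measure.pi fun _ : Fin 3 => ProbabilityTheory.gaussianReal 0 1) =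
    (2 * k + 1).factorial / (2 ^ k * k.factorial) := by
  have e : ∀ x : Fin 3 → ℝ, (∑ i, x i ^ 2) ^ k = ∑ p ∈ antidiagonal k, ∑ q ∈ antidiagonal p.1,
      ((k.choose p.1 : ℝ) * (p.1.choose q.1 : ℝ)) *
        ((x 0 ^ 2) ^ q.1 * (x 1 ^ 2) ^ q.2 * (x 2 ^ 2) ^ p.2) := by
    intro x
    rw [Fin.sum_univ_three, (Commute.all _ _).add_pow']
    refine Finset.sum_congr rfl fun p _ => ?_
    rw [(Commute.all _ _).add_pow', Finset.sum_mul, nsmul_eq_mul, Finset.mul_sum]
    refine Finset.sum_congr rfl fun q _ => ?_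
    rw [nsmul_eq_mul]
    ring
  rw [integral_congr_ae (Filter.Eventually.of_forall e), integral_finsetSum _ fun p _ =>
    integrable_finsetSum _ fun q _ => (c2_mono q.1 q.2 p.2).1.const_mul _]
  have e2 : ∀ p ∈ antidiagonal k, ∫ x : Fin 3 → ℝ, ∑ q ∈ antidiagonal p.1,
      ((k.choose p.1 : ℝ) * (p.1.choose q.1 : ℝ)) *
        ((x 0 ^ 2) ^ q.1 * (x 1 ^ 2) ^ q.2 * (x 2 ^ 2) ^ p.2)
      ∂(Measure.pi fun _ : Fin 3 => ProbabilityTheory.gaussianReal 0 1) =
      2 ^ k * k.factorial * c2_u p.2 := by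
    intro p hp
    rw [integral_finsetSum _ fun q _ => (c2_mono q.1 q.2 p.2).1.const_mul _]
    have e3 : ∀ q ∈ antidiagonal p.1, ∫ x : Fin 3 → ℝ,
        ((k.choose p.1 : ℝ) * (p.1.choose q.1 : ℝ)) *
          ((x 0 ^ 2) ^ q.1 * (x 1 ^ 2) ^ q.2 * (x 2 ^ 2) ^ p.2)
        ∂(Measure.pi fun _ : Fin 3 => ProbabilityTheory.gaussianReal 0 1) =
        (2 ^ k * k.factorial * c2_u p.2) * (c2_u q.1 * c2_u q.2) := by
      intro q hq
      rw [integral_const_mul, (c2_mono q.1 q.2 p.2).2]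
      have h1 := c2_choose hp
      have h2 := c2_choose hq
      have h3 := HasAntidiagonal.mem_antidiagonal.mp hp
      have h4 := HasAntidiagonal.mem_antidiagonal.mp hq
      have h5 : (2 : ℝ) ^ k = 2 ^ q.1 * 2 ^ q.2 * 2 ^ p.2 := by
        rw [← pow_add, ← pow_add, h4, h3]
      rw [h5, ← h1, ← h2]
      ring
    rw [Finset.sum_congr rfl e3, ← Finset.mul_sum, c2_conv, mul_one]
  rw [Finset.sum_congr rfl e2, ← Finset.mul_sum, c2_part, c2_fac]

/-- the three coordinates at a node -/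
private noncomputable def c2_L (v : V) : Sp V →L[ℝ] EuclideanSpace ℝ (Fin 3) :=
  LinearMap.toContinuousLinearMap
    { toFun := fun x => WithLp.toLp 2 fun i => x (v, i)
      map_add' := fun x y => by ext i; simp
      map_smul' := fun r x => by ext i; simp }

private theorem c2_L_apply (v : V) (x : Sp V) (i : Fin 3) : c2_L v x i = x (v, i) := rfl

private theorem c2_law {D : Data V} (h : D.IsSplice) (v : V) :
    (ProbabilityTheory.multivariateGaussian 0 (cov D)).map (c2_L v) =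
      (ProbabilityTheory.stdGaussian (EuclideanSpace ℝ (Fin 3))).map
        (fun y => Real.sqrt (2 * D.lk v v) • y) := by
  apply Measure.ext_of_charFun
  ext t
  have hS := (cov_posDef h).posSemidef
  set t' : Sp V := WithLp.toLp 2 fun a => if a.1 = v then t a.2 else 0 with ht'
  have hinner : ∀ x : Sp V, inner ℝ (c2_L v x) t = inner ℝ x t' := by
    intro x
    rw [PiLp.inner_apply, PiLp.inner_apply, Fintype.sum_prod_type, Finset.sum_eq_single v]
    · refine Finset.sum_congr rfl fun i _ => ?_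
      simp [ht', c2_L_apply]
    · intro w _ hw
      refine Finset.sum_eq_zero fun i _ => ?_
      simp [ht', hw]
    · intro hv
      exact absurd (Finset.mem_univ v) hv
  have e1 : charFun ((ProbabilityTheory.multivariateGaussian 0 (cov D)).map (c2_L v)) t =
      charFun (ProbabilityTheory.multivariateGaussian 0 (cov D)) t' := by
    rw [charFun_apply, charFun_apply, integral_map (by fun_prop) (by fun_prop)]
    simp only [hinner]
  have hl : (0 : ℝ) ≤ 2 * D.lk v v := by positivity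
  have e2 : (WithLp.ofLp t') ⬝ᵥ (cov D).mulVec (WithLp.ofLp t') = 2 * D.lk v v * ‖t‖ ^ 2 := by
    simp only [dotProduct, Matrix.mulVec, Finset.mul_sum]
    rw [Fintype.sum_prod_type, Finset.sum_eq_single v]
    · rw [EuclideanSpace.real_norm_sq_eq, Finset.mul_sum]
      refine Finset.sum_congr rfl fun i _ => ?_
      rw [Fintype.sum_prod_type, Finset.sum_eq_single v]
      · rw [Finset.sum_eq_single i]
        · simp [ht', cov]
          ring
        · intro j _ hj
          simp [cov, hj.symm]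
        · intro hi
          exact absurd (Finset.mem_univ i) hi
      · intro w _ hw
        refine Finset.sum_eq_zero fun j _ => ?_
        simp [ht', hw]
      · intro hv
        exact absurd (Finset.mem_univ v) hv
    · intro w _ hw
      refine Finset.sum_eq_zero fun i _ => Finset.sum_eq_zero fun b _ => ?_
      simp [ht', hw]
    · intro hv
      exact absurd (Finset.mem_univ v) hv
  rw [e1, ProbabilityTheory.charFun_multivariateGaussian hS, charFun_map_smul,
    ProbabilityTheory.charFun_stdGaussian, norm_smul, Real.norm_eq_abs,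
    abs_of_nonneg (Real.sqrt_nonneg _)]
  rw [e2]
  have e3 : ((Real.sqrt (2 * D.lk v v) * ‖t‖ : ℝ) : ℂ) ^ 2 = ((2 * D.lk v v * ‖t‖ ^ 2 : ℝ) : ℂ) := by
    rw [← Complex.ofReal_pow, mul_pow, Real.sq_sqrt hl]
  rw [e3]
  congr 1
  simp
  ring

theorem moment_single {D : Data V} (h : D.IsSplice) (v : V) (k : ℕ) :
    ∫ x, nsq v x ^ k ∂(ProbabilityTheory.multivariateGaussian 0 (cov D)) =
      (2 * k + 1).factorial / k.factorial * (D.lk v v : ℝ) ^ k := by
  have hl : (0 : ℝ) ≤ 2 * D.lk v v := by positivity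
  have e1 : ∫ x, nsq v x ^ k ∂(ProbabilityTheory.multivariateGaussian 0 (cov D)) =
      ∫ y : EuclideanSpace ℝ (Fin 3), (∑ i, y i ^ 2) ^ k
        ∂((ProbabilityTheory.multivariateGaussian 0 (cov D)).map (c2_L v)) := by
    rw [integral_map (by fun_prop) (by fun_prop)]
    rfl
  rw [e1, c2_law h v, integral_map (by fun_prop) (by fun_prop),
    ← ProbabilityTheory.map_pi_eq_stdGaussian, integral_map (by fun_prop) (by fun_prop)]
  have e2 : ∀ x : Fin 3 → ℝ, (∑ i, (Real.sqrt (2 * D.lk v v) •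
      (WithLp.toLp 2 x : EuclideanSpace ℝ (Fin 3))) i ^ 2) ^ k =
      (2 * D.lk v v) ^ k * (∑ i, x i ^ 2) ^ k := by
    intro x
    have : ∑ i, (Real.sqrt (2 * D.lk v v) •
        (WithLp.toLp 2 x : EuclideanSpace ℝ (Fin 3))) i ^ 2 = 2 * D.lk v v * ∑ i, x i ^ 2 := by
      rw [Finset.mul_sum]
      refine Finset.sum_congr rfl fun i _ => ?_
      simp only [PiLp.smul_apply, smul_eq_mul, mul_pow, Real.sq_sqrt hl]
    rw [this, mul_pow]
  rw [integral_congr_ae (Filter.Eventually.of_forall e2), integral_const_mul, c2_pi]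
  have h1 : (k.factorial : ℝ) ≠ 0 := by exact_mod_cast k.factorial_ne_zero
  rw [mul_pow]
  field_simp

end Pool.Agent.OHT
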