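import Pool.Agent.OHT.Defs2
import Pool.Agent.OHT.A4b
import Pool.Agent.OHT.C2

set_option autoImplicit false

open PowerSeries Finset MeasureTheory

namespace Pool.Agent.OHT

variable {V : Type} [Fintype V] [DecidableEq V]

private theorem c3_nsq_nonneg (v : V) (x : Sp V) : 0 ≤ nsq v x :=
  Finset.sum_nonneg fun i _ => sq_nonneg _

theorem moment_nonneg (D : Data V) (j : V → ℕ) : 0 ≤ moment D j := by
  unfold moment
  exact integral_nonneg fun x => Finset.prod_nonneg fun v _ => pow_nonneg (c3_nsq_nonneg v x) _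

private theorem c3_int {D : Data V} (h : D.IsSplice) (v : V) (hv : 0 < D.lk v v) (k : ℕ) :
    Integrable (fun x => nsq v x ^ k) (ProbabilityTheory.multivariateGaussian 0 (cov D)) := by
  by_contra hcon
  have h1 := moment_single h v k
  rw [integral_undef hcon] at h1
  have h2 : (0 : ℝ) < (2 * k + 1).factorial / k.factorial * (D.lk v v : ℝ) ^ k := by
    have h3 : (0 : ℝ) < (D.lk v v : ℝ) := by exact_mod_cast hv
    have h4 : (0 : ℝ) < ((2 * k + 1).factorial : ℝ) := by exact_mod_cast Nat.factorial_pos _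
    have h5 : (0 : ℝ) < (k.factorial : ℝ) := by exact_mod_cast Nat.factorial_pos _
    positivity
  linarith

theorem moment_le {D : Data V} (h : D.IsSplice) {j : V → ℕ} {k : ℕ} (hj : ∑ v, j v = k) :
    moment D j ≤ (2 * k + 1).factorial / k.factorial * (top D : ℝ) ^ k := by
  have hlk : ∀ v, 0 < D.lk v v := fun v => lk_pos h v v
  rcases Nat.eq_zero_or_pos k with rfl | hk
  · have hj0 : ∀ v, j v = 0 := fun v => Finset.sum_eq_zero_iff.mp hj v (Finset.mem_univ v)
    unfold moment
    simp [hj0]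
  · have hk' : (0 : ℝ) < k := by exact_mod_cast hk
    have htop : ∀ v, (D.lk v v : ℝ) ≤ (top D : ℝ) := fun v => by
      exact_mod_cast Finset.le_sup (f := fun v => D.lk v v) (Finset.mem_univ v)
    have hK : (0 : ℝ) ≤ (2 * k + 1).factorial / k.factorial := by positivity
    -- the pointwise bound
    have hpt : ∀ x : Sp V, ∏ v, (∑ i, x (v, i) ^ 2) ^ j v ≤
        ∑ v, (j v : ℝ) / k * (top D : ℝ) ^ k / (D.lk v v : ℝ) ^ k * nsq v x ^ k := by
      intro x
      have hY : ∀ v, 0 ≤ nsq v x / (D.lk v v : ℝ) := fun v =>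
        div_nonneg (c3_nsq_nonneg v x) (Nat.cast_nonneg _)
      have h1 : ∏ v, (nsq v x / (D.lk v v : ℝ)) ^ j v ≤
          ∑ v, (j v : ℝ) / k * (nsq v x / (D.lk v v : ℝ)) ^ k := by
        have h2 := Real.geom_mean_le_arith_mean_weighted Finset.univ
          (fun v : V => (j v : ℝ) / k) (fun v => (nsq v x / (D.lk v v : ℝ)) ^ k)
          (fun v _ => div_nonneg (Nat.cast_nonneg _) hk'.le)
          (by rw [← Finset.sum_div, div_eq_one_iff_eq hk'.ne']; exact_mod_cast hj)
          (fun v _ => pow_nonneg (hY v) _)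
        refine le_trans (le_of_eq ?_) h2
        refine Finset.prod_congr rfl fun v _ => ?_
        rw [← Real.rpow_natCast, ← Real.rpow_natCast, ← Real.rpow_mul (hY v)]
        congr 1
        field_simp
      have h3 : ∏ v, (∑ i, x (v, i) ^ 2) ^ j v =
          (∏ v, (D.lk v v : ℝ) ^ j v) * ∏ v, (nsq v x / (D.lk v v : ℝ)) ^ j v := by
        rw [← Finset.prod_mul_distrib]
        refine Finset.prod_congr rfl fun v _ => ?_
        have h4 : (D.lk v v : ℝ) ≠ 0 := by exact_mod_cast (hlk v).ne'
        rw [← mul_pow, mul_div_cancel₀ _ h4]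
        rfl
      have h5 : ∏ v, (D.lk v v : ℝ) ^ j v ≤ (top D : ℝ) ^ k := by
        calc ∏ v, (D.lk v v : ℝ) ^ j v ≤ ∏ v, (top D : ℝ) ^ j v :=
              Finset.prod_le_prod (fun v _ => by positivity)
                fun v _ => pow_le_pow_left₀ (Nat.cast_nonneg _) (htop v) _
          _ = (top D : ℝ) ^ k := by rw [Finset.prod_pow_eq_pow_sum, hj]
      rw [h3]
      calc (∏ v, (D.lk v v : ℝ) ^ j v) * ∏ v, (nsq v x / (D.lk v v : ℝ)) ^ j v
          ≤ (top D : ℝ) ^ k * ∑ v, (j v : ℝ) / k * (nsq v x / (D.lk v v : ℝ)) ^ k :=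
            mul_le_mul h5 h1 (Finset.prod_nonneg fun v _ => pow_nonneg (hY v) _) (by positivity)
        _ = _ := by
            rw [Finset.mul_sum]
            refine Finset.sum_congr rfl fun v _ => ?_
            rw [div_pow]
            ring
    have hint : Integrable (fun x : Sp V => ∑ v, (j v : ℝ) / k * (top D : ℝ) ^ k /
        (D.lk v v : ℝ) ^ k * nsq v x ^ k) (ProbabilityTheory.multivariateGaussian 0 (cov D)) :=
      integrable_finsetSum _ fun v _ => (c3_int h v (hlk v) k).const_mul _
    have hmono : moment D j ≤ ∫ x, ∑ v, (j v : ℝ) / k * (top D : ℝ) ^ k /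
        (D.lk v v : ℝ) ^ k * nsq v x ^ k ∂(ProbabilityTheory.multivariateGaussian 0 (cov D)) := by
      unfold moment
      refine integral_mono_of_nonneg (Filter.Eventually.of_forall fun x => ?_) hint
        (Filter.Eventually.of_forall hpt)
      exact Finset.prod_nonneg fun v _ => pow_nonneg (c3_nsq_nonneg v x) _
    refine hmono.trans (le_of_eq ?_)
    rw [integral_finsetSum _ fun v _ => (c3_int h v (hlk v) k).const_mul _]
    have e : ∀ v, ∫ x, (j v : ℝ) / k * (top D : ℝ) ^ k / (D.lk v v : ℝ) ^ k * nsq v x ^ k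
        ∂(ProbabilityTheory.multivariateGaussian 0 (cov D)) =
        (j v : ℝ) / k * ((2 * k + 1).factorial / k.factorial * (top D : ℝ) ^ k) := by
      intro v
      have h4 : (D.lk v v : ℝ) ≠ 0 := by exact_mod_cast (hlk v).ne'
      rw [integral_const_mul, moment_single h]
      field_simp
    rw [Finset.sum_congr rfl fun v _ => e v, ← Finset.sum_mul, ← Finset.sum_div]
    have : (∑ v, (j v : ℝ)) / k = 1 := by
      rw [div_eq_one_iff_eq hk'.ne']; exact_mod_cast hj
    rw [this, one_mul]

end Pool.Agent.OHT
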