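import Pool.Agent.OHT.Defs2
import Pool.Agent.OHT.A4b

set_option autoImplicit false

open PowerSeries Finset MeasureTheory

namespace Pool.Agent.OHT

variable {V : Type} [Fintype V] [DecidableEq V]

/-- the fourth moment of a real Gaussian variable -/
private lemma c4_four (v : NNReal) :
    ∫ x, x ^ 4 ∂(ProbabilityTheory.gaussianReal 0 v) = 3 * (v : ℝ) ^ 2 := by
  have h1 : ∫ x, x ^ 4 ∂(ProbabilityTheory.gaussianReal 0 v)
      = iteratedDeriv 4 (ProbabilityTheory.mgf (fun x => x) (ProbabilityTheory.gaussianReal 0 v)) 0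
      := by
    rw [ProbabilityTheory.iteratedDeriv_mgf_zero] <;> simp
  rw [h1, ProbabilityTheory.mgf_fun_id_gaussianReal]
  have hf : ∀ t : ℝ, HasDerivAt (fun t : ℝ => Real.exp (0 * t + v * t ^ 2 / 2))
      (v * t * Real.exp (0 * t + v * t ^ 2 / 2)) t := by
    intro t
    have h2 : HasDerivAt (fun t : ℝ => 0 * t + v * t ^ 2 / 2) (v * t) t := by
      have h3 := ((hasDerivAt_pow 2 t).const_mul (v : ℝ)).div_const 2
      have h4 := ((hasDerivAt_id t).const_mul (0 : ℝ)).add h3
      refine (h4.congr_deriv ?_)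
      simp
      ring
    refine h2.exp.congr_deriv ?_
    ring
  have d1 : deriv (fun t : ℝ => Real.exp (0 * t + v * t ^ 2 / 2))
      = fun t => (v * t) * Real.exp (0 * t + v * t ^ 2 / 2) := by
    ext t; exact (hf t).deriv
  have d2 : deriv (fun t : ℝ => (v * t) * Real.exp (0 * t + v * t ^ 2 / 2))
      = fun t => (v + v ^ 2 * t ^ 2) * Real.exp (0 * t + v * t ^ 2 / 2) := by
    ext t
    have h2 := ((hasDerivAt_id t).const_mul (v : ℝ)).mul (hf t)
    refine (h2.congr_deriv ?_).deriv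
    simp only [id]
    ring
  have d3 : deriv (fun t : ℝ => (v + v ^ 2 * t ^ 2) * Real.exp (0 * t + v * t ^ 2 / 2))
      = fun t => (3 * v ^ 2 * t + v ^ 3 * t ^ 3) * Real.exp (0 * t + v * t ^ 2 / 2) := by
    ext t
    have h2 := (((hasDerivAt_pow 2 t).const_mul ((v : ℝ) ^ 2)).const_add (v : ℝ)).mul (hf t)
    refine (h2.congr_deriv ?_).deriv
    push_cast
    ring
  have d4 : deriv (fun t : ℝ => (3 * v ^ 2 * t + v ^ 3 * t ^ 3)
        * Real.exp (0 * t + v * t ^ 2 / 2))
      = fun t => (3 * v ^ 2 + 6 * v ^ 3 * t ^ 2 + v ^ 4 * t ^ 4)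
        * Real.exp (0 * t + v * t ^ 2 / 2) := by
    ext t
    have h2 := (((hasDerivAt_id t).const_mul (3 * (v : ℝ) ^ 2)).add
      ((hasDerivAt_pow 3 t).const_mul ((v : ℝ) ^ 3))).mul (hf t)
    refine (h2.congr_deriv ?_).deriv
    simp only [id, Pi.add_apply]
    push_cast
    ring
  rw [iteratedDeriv_succ, iteratedDeriv_succ, iteratedDeriv_succ, iteratedDeriv_one, d1, d2, d3,
    d4]
  simp

/-- the fourth moment of a linear functional -/
private lemma c4_dual {E : Type} [NormedAddCommGroup E] [NormedSpace ℝ E] [MeasurableSpace E]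
    [BorelSpace E] [CompleteSpace E] [SecondCountableTopology E]
    (μ : Measure E) [ProbabilityTheory.IsGaussian μ]
    (L : StrongDual ℝ E) (h0 : ∫ x, L x ∂μ = 0) :
    Integrable (fun x => (L x) ^ 4) μ ∧
      ∫ x, (L x) ^ 4 ∂μ = 3 * (ProbabilityTheory.variance L μ) ^ 2 := by
  have hmap := ProbabilityTheory.IsGaussian.map_eq_gaussianReal (μ := μ) L
  rw [h0] at hmap
  have hmem := ProbabilityTheory.memLp_id_gaussianReal (μ := 0)
    (v := (ProbabilityTheory.variance L μ).toNNReal) 4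
  have hint : Integrable (fun x : ℝ => x ^ 4)
      (ProbabilityTheory.gaussianReal 0 (ProbabilityTheory.variance L μ).toNNReal) := by
    have h2 := MemLp.integrable_norm_pow (p := 4) (by exact_mod_cast hmem) (by norm_num)
    refine h2.congr (Filter.Eventually.of_forall (fun x => ?_))
    simp only [id, Real.norm_eq_abs]
    exact Even.pow_abs (by decide) x
  refine ⟨?_, ?_⟩
  · rw [← hmap] at hint
    exact (integrable_map_measure hint.1 (by fun_prop)).mp hint
  · have h3 : ∫ x, (L x) ^ 4 ∂μ = ∫ y, y ^ 4 ∂(μ.map L) := by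
      rw [integral_map (by fun_prop) (by fun_prop)]
    rw [h3, hmap, c4_four, Real.coe_toNNReal _ (ProbabilityTheory.variance_nonneg _ _)]

/-- mixed fourth moments of a centred Gaussian vector -/
private lemma c4_mixed {ι : Type} [Fintype ι] [DecidableEq ι] {S : Matrix ι ι ℝ}
    (hS : S.PosSemidef) (a b : ι) :
    Integrable (fun x : EuclideanSpace ℝ ι => x a ^ 2 * x b ^ 2)
        (ProbabilityTheory.multivariateGaussian 0 S) ∧
      ∫ x, x a ^ 2 * x b ^ 2 ∂(ProbabilityTheory.multivariateGaussian 0 S) =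
        S a a * S b b + 2 * S a b ^ 2 := by
  set μ := ProbabilityTheory.multivariateGaussian 0 S with hμ
  have hz : ∀ L : StrongDual ℝ (EuclideanSpace ℝ ι), ∫ x, L x ∂μ = 0 := by
    intro L
    rw [ContinuousLinearMap.integral_comp_id_comm ProbabilityTheory.IsGaussian.integrable_id]
    rw [hμ]
    simp
  have hvar : ∀ a, ProbabilityTheory.variance (fun x : EuclideanSpace ℝ ι => x a) μ = S a a :=
    fun a => ProbabilityTheory.variance_eval_multivariateGaussian hS a
  have hcov := ProbabilityTheory.covariance_eval_multivariateGaussian (μ := 0) hS a b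
  rw [← hμ] at hcov
  have hm : ∀ a, MemLp (fun x : EuclideanSpace ℝ ι => x a) 2 μ := by
    intro a
    have := ProbabilityTheory.IsGaussian.memLp_dual μ (EuclideanSpace.proj (𝕜 := ℝ) a) 2 (by simp)
    simpa using this
  have ha := c4_dual μ (EuclideanSpace.proj (𝕜 := ℝ) a) (hz _)
  have hb := c4_dual μ (EuclideanSpace.proj (𝕜 := ℝ) b) (hz _)
  have hp := c4_dual μ (EuclideanSpace.proj (𝕜 := ℝ) a + EuclideanSpace.proj (𝕜 := ℝ) b) (hz _)
  have hq := c4_dual μ (EuclideanSpace.proj (𝕜 := ℝ) a - EuclideanSpace.proj (𝕜 := ℝ) b) (hz _)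
  have va : ProbabilityTheory.variance
      (EuclideanSpace.proj (𝕜 := ℝ) a : StrongDual ℝ (EuclideanSpace ℝ ι)) μ = S a a := hvar a
  have vb : ProbabilityTheory.variance
      (EuclideanSpace.proj (𝕜 := ℝ) b : StrongDual ℝ (EuclideanSpace ℝ ι)) μ = S b b := hvar b
  have vp : ProbabilityTheory.variance
      (EuclideanSpace.proj (𝕜 := ℝ) a + EuclideanSpace.proj (𝕜 := ℝ) b :
        StrongDual ℝ (EuclideanSpace ℝ ι)) μ = S a a + 2 * S a b + S b b := by
    have := ProbabilityTheory.variance_fun_add (hm a) (hm b)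
    rw [hvar, hvar, hcov] at this
    exact this
  have vq : ProbabilityTheory.variance
      (EuclideanSpace.proj (𝕜 := ℝ) a - EuclideanSpace.proj (𝕜 := ℝ) b :
        StrongDual ℝ (EuclideanSpace ℝ ι)) μ = S a a - 2 * S a b + S b b := by
    have := ProbabilityTheory.variance_fun_sub (hm a) (hm b)
    rw [hvar, hvar, hcov] at this
    exact this
  rw [va] at ha
  rw [vb] at hb
  rw [vp] at hp
  rw [vq] at hq
  have e : (fun x : EuclideanSpace ℝ ι => x a ^ 2 * x b ^ 2) = fun x =>
      (1 / 12 : ℝ) * ((((EuclideanSpace.proj (𝕜 := ℝ) a + EuclideanSpace.proj (𝕜 := ℝ) b :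
          StrongDual ℝ (EuclideanSpace ℝ ι)) x) ^ 4
        + ((EuclideanSpace.proj (𝕜 := ℝ) a - EuclideanSpace.proj (𝕜 := ℝ) b :
          StrongDual ℝ (EuclideanSpace ℝ ι)) x) ^ 4)
        - (2 * ((EuclideanSpace.proj (𝕜 := ℝ) a : StrongDual ℝ (EuclideanSpace ℝ ι)) x) ^ 4
          + 2 * ((EuclideanSpace.proj (𝕜 := ℝ) b : StrongDual ℝ (EuclideanSpace ℝ ι)) x) ^ 4))
      := by
    ext x
    have ea : (EuclideanSpace.proj (𝕜 := ℝ) a : StrongDual ℝ (EuclideanSpace ℝ ι)) x = x a := rfl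
    have eb : (EuclideanSpace.proj (𝕜 := ℝ) b : StrongDual ℝ (EuclideanSpace ℝ ι)) x = x b := rfl
    rw [_root_.add_apply, _root_.sub_apply, ea, eb]
    ring
  have i1 := hp.1.add hq.1
  have i2 := (ha.1.const_mul 2).add (hb.1.const_mul 2)
  refine ⟨?_, ?_⟩
  · rw [e]
    exact (i1.sub i2).const_mul _
  · rw [e, integral_const_mul, integral_sub, integral_add, integral_add, integral_const_mul,
      integral_const_mul, ha.2, hb.2, hp.2, hq.2]
    · ring
    · exact ha.1.const_mul 2
    · exact hb.1.const_mul 2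
    · exact hp.1
    · exact hq.1
    · exact i1
    · exact i2

theorem moment_pair {D : Data V} (h : D.IsSplice) {v w : V} (hvw : v ≠ w) :
    moment D (Pi.single v 1 + Pi.single w 1) =
      36 * D.lk v v * D.lk w w + 24 * (D.lk v w : ℝ) ^ 2 := by
  have hS := (cov_posDef h).posSemidef
  have hprod : ∀ x : EuclideanSpace ℝ (V × Fin 3),
      ∏ u, (∑ i, x (u, i) ^ 2) ^ ((Pi.single v 1 + Pi.single w 1 : V → ℕ) u)
        = ∑ i, ∑ j, x (v, i) ^ 2 * x (w, j) ^ 2 := by
    intro x
    rw [← Finset.sum_mul_sum]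
    have h1 : ∀ u, (∑ i, x (u, i) ^ 2) ^ ((Pi.single v 1 + Pi.single w 1 : V → ℕ) u)
        = (if u = v then ∑ i, x (v, i) ^ 2 else 1) * (if u = w then ∑ i, x (w, i) ^ 2 else 1) := by
      intro u
      rw [Pi.add_apply, pow_add]
      congr 1
      · rcases eq_or_ne u v with rfl | hne
        · simp
        · simp [hne]
      · rcases eq_or_ne u w with rfl | hne
        · simp
        · simp [hne]
    rw [Finset.prod_congr rfl (fun u _ => h1 u), Finset.prod_mul_distrib]
    simp
  unfold moment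
  simp only [hprod]
  rw [integral_finsetSum _ (fun i _ => integrable_finsetSum _
    (fun j _ => (c4_mixed hS (v, i) (w, j)).1))]
  have h2 : ∀ i : Fin 3, ∫ x, ∑ j, x (v, i) ^ 2 * x (w, j) ^ 2
      ∂(ProbabilityTheory.multivariateGaussian 0 (cov D))
      = ∑ j : Fin 3, (cov D (v, i) (v, i) * cov D (w, j) (w, j)
        + 2 * cov D (v, i) (w, j) ^ 2) := by
    intro i
    rw [integral_finsetSum _ (fun j _ => (c4_mixed hS (v, i) (w, j)).1)]
    exact Finset.sum_congr rfl (fun j _ => (c4_mixed hS (v, i) (w, j)).2)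
  rw [Finset.sum_congr rfl (fun i _ => h2 i)]
  simp only [cov, Matrix.of_apply, Fin.sum_univ_three]
  norm_num [Fin.ext_iff]
  ring

end Pool.Agent.OHT
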