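import Pool.Agent.OHT.Defs2
import Pool.Agent.OHT.B4
import Pool.Agent.OHT.C2
import Pool.Agent.OHT.C4
import Pool.Agent.OHT.C3

set_option autoImplicit false

open PowerSeries Finset MeasureTheory

namespace Pool.Agent.OHT

variable {V : Type} [Fintype V] [DecidableEq V]

private theorem d1_mem (j : V → ℕ) (n : ℕ) : j ∈ (univ : Finset V).piAntidiag n ↔ ∑ v, j v = n := by
  rw [mem_piAntidiag]
  simp

private theorem d1_sum_single (v : V) (k : ℕ) : ∑ w, (Pi.single v k : V → ℕ) w = k := by
  rw [sum_eq_single v]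
  · simp
  · intro w _ hw
    exact Pi.single_eq_of_ne hw _
  · intro h
    exact absurd (mem_univ v) h

private theorem d1_exists {j : V → ℕ} {n : ℕ} (h : ∑ v, j v = n + 1) :
    ∃ v, ∃ j' : V → ℕ, j = Pi.single v 1 + j' ∧ ∑ v, j' v = n := by
  obtain ⟨v, -, hv⟩ : ∃ v ∈ (univ : Finset V), j v ≠ 0 := by
    by_contra hcon
    push Not at hcon
    rw [sum_eq_zero hcon] at h
    omega
  refine ⟨v, fun w => j w - (Pi.single v 1 : V → ℕ) w, ?_, ?_⟩
  · funext w
    simp only [Pi.add_apply]
    by_cases hw : w = v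
    · subst hw
      simp
      omega
    · simp [Pi.single_eq_of_ne hw]
  · have h1 : ∑ w, j w = ∑ w, (Pi.single v 1 : V → ℕ) w +
        ∑ w, (j w - (Pi.single v 1 : V → ℕ) w) := by
      rw [← sum_add_distrib]
      refine sum_congr rfl fun w _ => ?_
      by_cases hw : w = v
      · subst hw
        simp
        omega
      · simp [Pi.single_eq_of_ne hw]
    rw [h, d1_sum_single] at h1
    exact (Nat.add_left_cancel ((add_comm 1 n).trans h1)).symm

private theorem d1_eq {j : V → ℕ} (h : ∑ v, j v = 1) : ∃ v, j = Pi.single v 1 := by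
  obtain ⟨v, j', rfl, h'⟩ := d1_exists (n := 0) h
  refine ⟨v, ?_⟩
  have : j' = 0 := by
    funext w
    exact (sum_eq_zero_iff.mp h') w (mem_univ w)
  rw [this, add_zero]

private theorem d1_sum_one (F : (V → ℕ) → ℝ) :
    ∑ j ∈ (univ : Finset V).piAntidiag 1, F j = ∑ v, F (Pi.single v 1) := by
  symm
  refine sum_bij (fun v _ => Pi.single v 1) ?_ ?_ ?_ ?_
  · intro v _
    rw [d1_mem, d1_sum_single]
  · intro v _ w _ hvw
    by_contra hne
    have := congrFun hvw v
    simp [Pi.single_eq_of_ne hne] at this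
  · intro j hj
    rw [d1_mem] at hj
    obtain ⟨v, rfl⟩ := d1_eq hj
    exact ⟨v, mem_univ v, rfl⟩
  · intro v _
    rfl

omit [Fintype V] in
private theorem d1_pair {a b c d : V} (hcd : c ≠ d)
    (h : (Pi.single c 1 + Pi.single d 1 : V → ℕ) = Pi.single a 1 + Pi.single b 1) :
    (c = a ∧ d = b) ∨ (c = b ∧ d = a) := by
  have hc := congrFun h c
  have hd := congrFun h d
  simp only [Pi.add_apply, Pi.single_eq_same, Pi.single_eq_of_ne hcd,
    Pi.single_eq_of_ne hcd.symm] at hc hd
  by_cases h1 : c = a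
  · left
    refine ⟨h1, ?_⟩
    by_contra h2
    have h3 : d ≠ a := fun h => hcd (h1.trans h.symm)
    simp [Pi.single_eq_of_ne h2, Pi.single_eq_of_ne h3] at hd
  · right
    have h2 : c = b := by
      by_contra h2
      simp [Pi.single_eq_of_ne h1, Pi.single_eq_of_ne h2] at hc
    refine ⟨h2, ?_⟩
    by_contra h3
    have h4 : d ≠ b := fun h => hcd (h2.trans h.symm)
    simp [Pi.single_eq_of_ne h3, Pi.single_eq_of_ne h4] at hd

private theorem d1_sum_two (F : (V → ℕ) → ℝ) :
    2 * ∑ j ∈ (univ : Finset V).piAntidiag 2, F j = 2 * ∑ v, F (Pi.single v 2) +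
      ∑ p ∈ (univ : Finset V).offDiag, F (Pi.single p.1 1 + Pi.single p.2 1) := by
  classical
  let S := (univ : Finset V).piAntidiag 2
  rw [← sum_filter_add_sum_filter_not S (fun j => ∃ v, j = Pi.single v 2), mul_add]
  congr 1
  · congr 1
    symm
    refine sum_bij (fun v _ => Pi.single v 2) ?_ ?_ ?_ ?_
    · intro v _
      rw [mem_filter, d1_mem, d1_sum_single]
      exact ⟨rfl, v, rfl⟩
    · intro v _ w _ hvw
      by_contra hne
      have := congrFun hvw v
      simp [Pi.single_eq_of_ne hne] at this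
    · intro j hj
      obtain ⟨-, v, rfl⟩ := mem_filter.mp hj
      exact ⟨v, mem_univ v, rfl⟩
    · intro v _
      rfl
  · have hmaps : ∀ p ∈ (univ : Finset V).offDiag, (Pi.single p.1 1 + Pi.single p.2 1 : V → ℕ) ∈
        S.filter (fun j => ¬ ∃ v, j = Pi.single v 2) := by
      rintro ⟨a, b⟩ hp
      have hab : a ≠ b := (mem_offDiag.mp hp).2.2
      rw [mem_filter, d1_mem]
      refine ⟨?_, ?_⟩
      · simp only [Pi.add_apply, sum_add_distrib, d1_sum_single]
      · rintro ⟨v, hv⟩
        have ha := congrFun hv a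
        simp only [Pi.add_apply, Pi.single_eq_same, Pi.single_eq_of_ne hab] at ha
        by_cases hav : a = v
        · subst hav
          simp at ha
        · simp [Pi.single_eq_of_ne hav] at ha
    rw [← sum_fiberwise_of_maps_to hmaps, mul_sum]
    refine sum_congr rfl fun j hj => ?_
    obtain ⟨hj1, hj2⟩ := mem_filter.mp hj
    rw [d1_mem] at hj1
    obtain ⟨a, j', rfl, h'⟩ := d1_exists (n := 1) hj1
    obtain ⟨b, rfl⟩ := d1_eq h'
    have hab : a ≠ b := by
      rintro rfl
      exact hj2 ⟨a, by rw [← Pi.single_add]⟩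
    have hfib : (univ : Finset V).offDiag.filter
        (fun p => (Pi.single p.1 1 + Pi.single p.2 1 : V → ℕ) = Pi.single a 1 + Pi.single b 1) =
        {(a, b), (b, a)} := by
      ext ⟨c, d⟩
      simp only [mem_filter, mem_offDiag, mem_univ, true_and, mem_insert, mem_singleton,
        Prod.mk.injEq]
      constructor
      · rintro ⟨hcd, h⟩
        exact d1_pair hcd h
      · rintro (⟨rfl, rfl⟩ | ⟨rfl, rfl⟩)
        · exact ⟨hab, rfl⟩
        · exact ⟨hab.symm, add_comm _ _⟩
    rw [sum_congr rfl (g := fun _ => F (Pi.single a 1 + Pi.single b 1)) (fun p hp => by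
      rw [(mem_filter.mp hp).2]), sum_const, hfib,
      card_pair (by simp [hab]), nsmul_eq_mul]
    norm_num

private theorem d1_prod (D : Data V) (v : V) (k : ℕ) :
    ∏ u, coeff ((Pi.single v k : V → ℕ) u) (node D u) = coeff k (node D v) := by
  rw [prod_eq_single v]
  · simp
  · intro u _ hu
    rw [Pi.single_eq_of_ne hu, node_zero]
  · intro h
    exact absurd (mem_univ v) h

private theorem d1_prod' (D : Data V) {v w : V} (hvw : v ≠ w) :
    ∏ u, coeff ((Pi.single v 1 + Pi.single w 1 : V → ℕ) u) (node D u) =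
      coeff 1 (node D v) * coeff 1 (node D w) := by
  rw [← mul_prod_erase univ _ (mem_univ v), ← mul_prod_erase (univ.erase v) _
    (mem_erase.mpr ⟨hvw.symm, mem_univ w⟩), prod_eq_one, mul_one]
  · congr 2
    · simp [Pi.single_eq_of_ne hvw]
    · simp [Pi.single_eq_of_ne hvw.symm]
  · intro u hu
    obtain ⟨h1, h2⟩ := mem_erase.mp hu
    obtain ⟨h2, -⟩ := mem_erase.mp h2
    rw [Pi.add_apply, Pi.single_eq_of_ne h1, Pi.single_eq_of_ne h2, add_zero, node_zero]

private theorem d1_moment {D : Data V} (h : D.IsSplice) (v : V) (k : ℕ) :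
    moment D (Pi.single v k) = (2 * k + 1).factorial / k.factorial * (D.lk v v : ℝ) ^ k := by
  rw [← moment_single h v k]
  unfold moment
  refine integral_congr_ae (Filter.Eventually.of_forall fun x => ?_)
  simp only
  rw [prod_eq_single v]
  · simp [nsq]
  · intro u _ hu
    rw [Pi.single_eq_of_ne hu, pow_zero]
  · intro h
    exact absurd (mem_univ v) h

theorem part_two {D : Data V} (h : D.IsSplice) :
    (1 / 768 : ℝ) * ∑ v, ∑ w, (D.lk v w : ℝ) ^ 2 ≤
      coeff 2 (part D) - (coeff 1 (part D)) ^ 2 / 2 := by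
  set β : V → ℝ := fun v => -coeff 1 (node D v) with hβ
  set γ : V → ℝ := fun v => coeff 2 (node D v) with hγ
  set l : V → ℝ := fun v => D.lk v v with hl
  have b0 : ∀ v, 1 / 96 ≤ β v := fun v => by
    have := node_one h v
    simp only [hβ]
    linarith
  have g0 : ∀ v, β v ^ 2 / 2 ≤ γ v := fun v => by
    have := node_two h v
    simp only [hβ, hγ, neg_sq]
    exact this
  have a1 : coeff 1 (part D) = -6 * ∑ v, β v * l v := by
    unfold part
    rw [coeff_mk, d1_sum_one, mul_sum]
    refine sum_congr rfl fun v _ => ?_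
    rw [d1_prod, d1_moment h]
    simp only [hβ, hl]
    norm_num [Nat.factorial]
    ring
  have a2 : 2 * coeff 2 (part D) = 120 * ∑ v, γ v * l v ^ 2 +
      ∑ p ∈ (univ : Finset V).offDiag, β p.1 * β p.2 *
        (36 * l p.1 * l p.2 + 24 * (D.lk p.1 p.2 : ℝ) ^ 2) := by
    unfold part
    rw [coeff_mk, d1_sum_two]
    congr 1
    · rw [mul_sum, mul_sum]
      refine sum_congr rfl fun v _ => ?_
      rw [d1_prod, d1_moment h]
      simp only [hγ, hl]
      norm_num [Nat.factorial]
      ring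
    · refine sum_congr rfl fun p hp => ?_
      have hp' : p.1 ≠ p.2 := (mem_offDiag.mp hp).2.2
      rw [d1_prod' D hp', moment_pair h hp']
      simp only [hβ, hl]
      ring
  have split : ∀ G : V → V → ℝ, ∑ v, ∑ w, G v w =
      ∑ v, G v v + ∑ p ∈ (univ : Finset V).offDiag, G p.1 p.2 := by
    intro G
    rw [← sum_product', ← diag_union_offDiag (univ : Finset V),
      sum_union (disjoint_diag_offDiag univ), sum_diag]
  have sq : (∑ v, β v * l v) ^ 2 = ∑ v, ∑ w, β v * l v * (β w * l w) := by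
    rw [sq, sum_mul_sum]
  have e1 := split fun v w => β v * l v * (β w * l w)
  have e2 := split fun v w => β v * β w * (D.lk v w : ℝ) ^ 2
  have e3 : ∑ p ∈ (univ : Finset V).offDiag, β p.1 * β p.2 *
        (36 * l p.1 * l p.2 + 24 * (D.lk p.1 p.2 : ℝ) ^ 2) =
      36 * ∑ p ∈ (univ : Finset V).offDiag, β p.1 * l p.1 * (β p.2 * l p.2) +
      24 * ∑ p ∈ (univ : Finset V).offDiag, β p.1 * β p.2 * (D.lk p.1 p.2 : ℝ) ^ 2 := by
    rw [mul_sum, mul_sum, ← sum_add_distrib]
    refine sum_congr rfl fun p _ => ?_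
    ring
  have e4 : 60 * ∑ v, β v * β v * (D.lk v v : ℝ) ^ 2 ≤ 120 * ∑ v, γ v * l v ^ 2 := by
    rw [mul_sum, mul_sum]
    refine sum_le_sum fun v _ => ?_
    have := mul_le_mul_of_nonneg_right (g0 v) (sq_nonneg (l v))
    simp only [hl] at this ⊢
    nlinarith [this]
  have e5 : ∑ v, β v * l v * (β v * l v) = ∑ v, β v * β v * (D.lk v v : ℝ) ^ 2 := by
    refine sum_congr rfl fun v _ => ?_
    simp only [hl]
    ring
  have e6 : (1 / 9216 : ℝ) * ∑ v, ∑ w, (D.lk v w : ℝ) ^ 2 ≤
      ∑ v, ∑ w, β v * β w * (D.lk v w : ℝ) ^ 2 := by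
    rw [mul_sum]
    refine sum_le_sum fun v _ => ?_
    rw [mul_sum]
    refine sum_le_sum fun w _ => ?_
    refine mul_le_mul_of_nonneg_right ?_ (sq_nonneg _)
    have h1 := b0 v
    have h2 := b0 w
    nlinarith
  rw [a1]
  have e7 : (-6 * ∑ v, β v * l v) ^ 2 = 36 * (∑ v, β v * l v) ^ 2 := by ring
  rw [e7, sq, e1, e5]
  rw [e3] at a2
  rw [e2] at e6
  linarith

end Pool.Agent.OHT
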