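import Pool.Agent.OHT.Defs2
import Pool.Agent.OHT.D1
import Pool.Agent.OHT.A5

set_option autoImplicit false

open PowerSeries Finset MeasureTheory

namespace Pool.Agent.OHT

variable {V : Type} [Fintype V] [DecidableEq V]

private lemma d2_sinhc_zero (k : ℕ) : constantCoeff (sinhc k) = 1 := by
  rw [← coeff_zero_eq_constantCoeff_apply, sinhc, coeff_mk]
  simp

private lemma d2_node_zero (D : Data V) (v : V) : coeff 0 (node D v) = 1 := by
  rw [coeff_zero_eq_constantCoeff_apply, node, map_mul, map_prod, map_pow,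
    PowerSeries.constantCoeff_inv]
  simp [d2_sinhc_zero]

private lemma d2_part_zero (D : Data V) : coeff 0 (part D) = 1 := by
  rw [part, coeff_mk, Finset.piAntidiag_zero, Finset.sum_singleton]
  simp [d2_node_zero, moment]

/-- the second coefficient of the logarithm is additive -/
private lemma d2_mul {f g : ℝ⟦X⟧} (hf : coeff 0 f = 1) (hg : coeff 0 g = 1) :
    coeff 0 (f * g) = 1 ∧
    coeff 2 (f * g) - (coeff 1 (f * g)) ^ 2 / 2 =
      (coeff 2 f - (coeff 1 f) ^ 2 / 2) + (coeff 2 g - (coeff 1 g) ^ 2 / 2) := by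
  have a0 : antidiagonal 0 = {((0 : ℕ), (0 : ℕ))} := rfl
  have a1 : antidiagonal 1 = {((0 : ℕ), (1 : ℕ)), (1, 0)} := rfl
  have a2 : antidiagonal 2 = {((0 : ℕ), (2 : ℕ)), (1, 1), (2, 0)} := rfl
  refine ⟨?_, ?_⟩
  · rw [coeff_mul, a0, Finset.sum_singleton, hf, hg, one_mul]
  · rw [coeff_mul, coeff_mul, a1, a2, Finset.sum_insert (by decide), Finset.sum_insert (by decide),
      Finset.sum_insert (by decide), Finset.sum_singleton, Finset.sum_singleton]
    rw [hf, hg]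
    ring

private lemma d2_exp (κ : ℝ) : coeff 0 (rescale κ (exp ℝ)) = 1 ∧
    coeff 2 (rescale κ (exp ℝ)) - (coeff 1 (rescale κ (exp ℝ))) ^ 2 / 2 = 0 := by
  refine ⟨?_, ?_⟩
  · simp [coeff_rescale, coeff_exp]
  · rw [coeff_rescale, coeff_rescale, coeff_exp, coeff_exp]
    simp
    ring

private lemma d2_half0 : coeff 0 sinhcHalf = 1 := by
  rw [sinhcHalf, coeff_mk]
  simp

private lemma d2_half : coeff 0 (sinhcHalf⁻¹) = 1 ∧
    coeff 2 (sinhcHalf⁻¹) - (coeff 1 (sinhcHalf⁻¹)) ^ 2 / 2 = -(1 / 24) := by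
  have h0 : coeff 0 (sinhcHalf⁻¹) = 1 := by
    have := d2_half0
    rw [coeff_zero_eq_constantCoeff_apply] at this
    rw [coeff_zero_eq_constantCoeff_apply, PowerSeries.constantCoeff_inv, this, inv_one]
  refine ⟨h0, ?_⟩
  have h1 : sinhcHalf * sinhcHalf⁻¹ = 1 := by
    apply PowerSeries.mul_inv_cancel
    rw [← coeff_zero_eq_constantCoeff_apply, d2_half0]
    exact one_ne_zero
  have h2 := (d2_mul d2_half0 h0).2
  rw [h1] at h2
  have h3 : coeff 1 sinhcHalf = 0 := by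
    rw [sinhcHalf, coeff_mk]
    simp
  have h4 : coeff 2 sinhcHalf = 1 / 24 := by
    rw [sinhcHalf, coeff_mk]
    norm_num [Nat.factorial]
  have h5 : coeff 2 (1 : ℝ⟦X⟧) = 0 := by simp [coeff_one]
  have h6 : coeff 1 (1 : ℝ⟦X⟧) = 0 := by simp [coeff_one]
  rw [h3, h4, h5, h6] at h2
  linarith

private lemma d2_sign (σ : Bool) : sign σ ^ 2 = 1 := by
  cases σ <;> simp [sign]

private lemma d2_series (κ : ℝ) (σ : Bool) (n : ℕ) (D : Data (Fin (n + 1))) (hD : D.IsSplice) :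
    coeff 2 (series κ (.link σ n D hD)) - (coeff 1 (series κ (.link σ n D hD))) ^ 2 / 2 =
      -(1 / 24) + (coeff 2 (part D) - (coeff 1 (part D)) ^ 2 / 2) := by
  have h1 : coeff 0 (rescale (sign σ) (part D)) = 1 := by
    rw [coeff_rescale, d2_part_zero]
    simp
  have h2 : coeff 2 (rescale (sign σ) (part D)) - (coeff 1 (rescale (sign σ) (part D))) ^ 2 / 2
      = coeff 2 (part D) - (coeff 1 (part D)) ^ 2 / 2 := by
    rw [coeff_rescale, coeff_rescale, mul_pow, pow_one, d2_sign]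
    ring
  have h3 := d2_mul (d2_exp κ).1 d2_half.1
  have h4 := d2_mul h3.1 h1
  rw [series, h4.2, h3.2, (d2_exp κ).2, d2_half.2, h2]
  ring

theorem finite_two (c : ℝ) :
    {M : Sphere | ∃ κ, coeff 2 (series κ M) - (coeff 1 (series κ M)) ^ 2 / 2 ≤ c}.Finite := by
  set B : ℕ := ⌈768 * (c + 1 / 24)⌉₊ with hB
  refine (finite_bounded B).subset ?_
  rintro M ⟨κ, hκ⟩
  cases M with
  | three =>
    refine ⟨Nat.zero_le _, ?_⟩
    intro σ n D hD h
    exact absurd h (by simp)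
  | link σ n D hD =>
    rw [d2_series] at hκ
    have h1 := part_two hD
    have h2 : ∑ v, ∑ w, (D.lk v w : ℝ) ^ 2 ≤ 768 * (c + 1 / 24) := by linarith
    have hBc : 768 * (c + 1 / 24) ≤ (B : ℝ) := Nat.le_ceil _
    have h3 : ∀ v, (D.lk v v : ℝ) ^ 2 ≤ ∑ w, (D.lk v w : ℝ) ^ 2 := fun v =>
      Finset.single_le_sum (f := fun w => (D.lk v w : ℝ) ^ 2) (fun w _ => sq_nonneg _)
        (mem_univ v)
    have hl : ∀ v, (1 : ℝ) ≤ (D.lk v v : ℝ) := fun v => by exact_mod_cast lk_pos hD v v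
    have h4 : ∑ v, (D.lk v v : ℝ) ^ 2 ≤ (B : ℝ) :=
      (Finset.sum_le_sum fun v _ => h3 v).trans (h2.trans hBc)
    have h5 : ∀ v, D.lk v v ≤ B := by
      intro v
      have h6 : (D.lk v v : ℝ) ^ 2 ≤ ∑ v, (D.lk v v : ℝ) ^ 2 :=
        Finset.single_le_sum (f := fun v => (D.lk v v : ℝ) ^ 2) (fun w _ => sq_nonneg _)
          (mem_univ v)
      have h7 : (D.lk v v : ℝ) ≤ (B : ℝ) := by nlinarith [hl v]
      exact_mod_cast h7
    refine ⟨?_, ?_⟩
    · have h8 : ((n + 1 : ℕ) : ℝ) ≤ ∑ v : Fin (n + 1), (D.lk v v : ℝ) ^ 2 := by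
        have h9 : ∑ v : Fin (n + 1), (1 : ℝ) ≤ ∑ v : Fin (n + 1), (D.lk v v : ℝ) ^ 2 :=
          Finset.sum_le_sum fun v _ => by nlinarith [hl v]
        simpa using h9
      have h10 : ((n + 1 : ℕ) : ℝ) ≤ (B : ℝ) := h8.trans h4
      exact_mod_cast h10
    · intro σ' n' D' hD' he
      cases he
      exact h5

end Pool.Agent.OHT
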