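import Pool.Agent.OHT.Defs2

set_option autoImplicit false

open PowerSeries Finset MeasureTheory

namespace Pool.Agent.OHT

variable {V : Type} [Fintype V] [DecidableEq V]

theorem gev_mul_conv {ρ : ℝ} (hρ : 0 < ρ) {f g : ℝ⟦X⟧} (hf : Gev ρ f) (hg : Conv g) :
    Gev ρ (g * f) := by
  obtain ⟨C, hC⟩ := hf
  obtain ⟨C', r, hr, hC'⟩ := hg
  have c0 : 0 ≤ C := by
    have := (abs_nonneg _).trans (hC 0)
    simpa using this
  have c0' : 0 ≤ C' := by
    have := (mul_nonneg (abs_nonneg (coeff 0 g)) (pow_nonneg hr.le 0)).trans (hC' 0)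
    exact this
  refine ⟨C * C' * Real.exp (1 / (r * ρ)), fun k => ?_⟩
  rw [PowerSeries.coeff_mul,
    Finset.Nat.sum_antidiagonal_eq_sum_range_succ (fun i j => coeff i g * coeff j f) k]
  have hx : 0 ≤ 1 / (r * ρ) := by positivity
  have hterm : ∀ j ∈ range k.succ, |coeff j g * coeff (k - j) f| ≤
      C * C' * k.factorial * ρ ^ k * ((1 / (r * ρ)) ^ j / j.factorial) := by
    intro j hj
    have hjk : j ≤ k := Nat.lt_succ_iff.mp (mem_range.mp hj)
    have hrj : 0 < r ^ j := pow_pos hr j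
    have h1 : |coeff j g| ≤ C' / r ^ j := by
      rw [le_div_iff₀ hrj]
      exact hC' j
    have h2 := hC (k - j)
    have hfac : ((k - j).factorial : ℝ) ≤ k.factorial / j.factorial := by
      rw [le_div_iff₀ (by positivity)]
      exact_mod_cast Nat.le_of_dvd (Nat.factorial_pos k) (by
        have := Nat.factorial_mul_factorial_dvd_factorial hjk
        rwa [mul_comm] at this)
    have hpow : ρ ^ (k - j) = ρ ^ k / ρ ^ j := by
      rw [eq_div_iff (pow_pos hρ j).ne', ← pow_add, Nat.sub_add_cancel hjk]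
    rw [abs_mul]
    calc |coeff j g| * |coeff (k - j) f|
        ≤ (C' / r ^ j) * (C * (k - j).factorial * ρ ^ (k - j)) :=
          mul_le_mul h1 h2 (abs_nonneg _) (by positivity)
      _ ≤ (C' / r ^ j) * (C * (k.factorial / j.factorial) * ρ ^ (k - j)) := by
          gcongr
      _ = C * C' * k.factorial * ρ ^ k * ((1 / (r * ρ)) ^ j / j.factorial) := by
          rw [hpow, div_pow, one_pow, mul_pow]
          have : ρ ^ j ≠ 0 := (pow_pos hρ j).ne'
          field_simp
  calc |∑ j ∈ range k.succ, coeff j g * coeff (k - j) f|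
      ≤ ∑ j ∈ range k.succ, |coeff j g * coeff (k - j) f| := abs_sum_le_sum_abs _ _
    _ ≤ ∑ j ∈ range k.succ, C * C' * k.factorial * ρ ^ k * ((1 / (r * ρ)) ^ j / j.factorial) :=
        sum_le_sum hterm
    _ = C * C' * k.factorial * ρ ^ k * ∑ j ∈ range k.succ, (1 / (r * ρ)) ^ j / j.factorial := by
        rw [mul_sum]
    _ ≤ C * C' * k.factorial * ρ ^ k * Real.exp (1 / (r * ρ)) := by
        gcongr
        exact Real.sum_le_exp_of_nonneg hx _
    _ = C * C' * Real.exp (1 / (r * ρ)) * k.factorial * ρ ^ k := by ring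

end Pool.Agent.OHT
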