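import Pool.Agent.OHT.Defs2
import Pool.Agent.OHT.B1
import Pool.Agent.OHT.B3
import Pool.Agent.OHT.C3

set_option autoImplicit false

open PowerSeries Finset MeasureTheory

namespace Pool.Agent.OHT

variable {V : Type} [Fintype V] [DecidableEq V]

private theorem e2_poly (m : ℕ) {q : ℝ} (h0 : 0 ≤ q) (h1 : q < 1) :
    ∃ C : ℝ, ∀ k : ℕ, ((k : ℝ) + 1) ^ m * q ^ k ≤ C := by
  set p : ℝ := max q (1 / 2) with hp
  have hp0 : 0 < p := lt_of_lt_of_le (by norm_num) (le_max_right _ _)
  have hp1 : p < 1 := max_lt h1 (by norm_num)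
  have ht := tendsto_pow_const_mul_const_pow_of_abs_lt_one m
    (r := p) (by rw [abs_of_pos hp0]; exact hp1)
  obtain ⟨C, hC⟩ := ht.bddAbove_range
  refine ⟨C / p, fun k => ?_⟩
  have h2 : (((k + 1 : ℕ) : ℝ)) ^ m * p ^ (k + 1) ≤ C := hC ⟨k + 1, rfl⟩
  rw [le_div_iff₀ hp0]
  calc ((k : ℝ) + 1) ^ m * q ^ k * p ≤ ((k : ℝ) + 1) ^ m * p ^ k * p := by
        refine mul_le_mul_of_nonneg_right (mul_le_mul_of_nonneg_left
          (pow_le_pow_left₀ h0 (le_max_left _ _) k) (by positivity)) hp0.le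
    _ = (((k + 1 : ℕ) : ℝ)) ^ m * p ^ (k + 1) := by push_cast; ring
    _ ≤ C := h2

private theorem e2_fac (k : ℕ) : (((2 * k + 1).factorial : ℕ) : ℝ) / k.factorial ≤
    (2 * ((k : ℝ) + 1)) * 4 ^ k * k.factorial := by
  have h1 : (2 * k + 1).factorial = (2 * k + 1) * (Nat.centralBinom k * k.factorial * k.factorial) := by
    rw [Nat.factorial_succ]
    congr 1
    have := Nat.choose_mul_factorial_mul_factorial (n := 2 * k) (k := k) (by omega)
    rw [show 2 * k - k = k by omega] at this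
    rw [Nat.centralBinom]
    exact this.symm
  have h2 : (Nat.centralBinom k : ℝ) ≤ 4 ^ k := by
    have : Nat.centralBinom k ≤ 4 ^ k := by
      rw [Nat.centralBinom]
      calc (2 * k).choose k ≤ 2 ^ (2 * k) := Nat.choose_le_two_pow _ _
        _ = 4 ^ k := by rw [pow_mul]; norm_num
    exact_mod_cast this
  have hk : (0 : ℝ) < k.factorial := by exact_mod_cast Nat.factorial_pos k
  rw [div_le_iff₀ hk, h1]
  push_cast
  have h3 : (0 : ℝ) ≤ (Nat.centralBinom k : ℝ) := by positivity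
  have h4 : (2 * (k : ℝ) + 1) * ((Nat.centralBinom k : ℝ) * k.factorial * k.factorial) ≤
      (2 * ((k : ℝ) + 1)) * (4 ^ k * k.factorial * k.factorial) := by
    refine mul_le_mul (by linarith) ?_ (by positivity) (by positivity)
    refine mul_le_mul_of_nonneg_right (mul_le_mul_of_nonneg_right h2 hk.le) hk.le
  calc _ ≤ _ := h4
    _ = _ := by ring

private theorem e2_card (k : ℕ) : (((univ : Finset V).piAntidiag k).card : ℝ) ≤
    ((k : ℝ) + 1) ^ Fintype.card V := by
  have h : ((univ : Finset V).piAntidiag k).card ≤ (k + 1) ^ Fintype.card V := by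
    have hsub : (univ : Finset V).piAntidiag k ⊆ Fintype.piFinset fun _ => range (k + 1) := by
      intro j hj
      rw [Finset.mem_piAntidiag] at hj
      rw [Fintype.mem_piFinset]
      intro v
      rw [mem_range]
      have := Finset.single_le_sum (f := j) (fun i _ => Nat.zero_le _) (mem_univ v)
      have h2 : ∑ x, j x = k := hj.1
      omega
    refine (card_le_card hsub).trans ?_
    rw [Fintype.card_piFinset]
    simp
  exact_mod_cast h

theorem part_gev {D : Data V} (h : D.IsSplice) {ρ : ℝ} (hρ : (top D : ℝ) / Real.pi ^ 2 < ρ) :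
    Gev ρ (part D) := by
  have hpi : 0 < Real.pi ^ 2 := by positivity
  have htop : (0 : ℝ) ≤ top D := by positivity
  have hρ0 : 0 < ρ := lt_of_le_of_lt (by positivity) hρ
  set s : ℝ := (top D : ℝ) / (Real.pi ^ 2 * ρ) with hs
  have hs0 : 0 ≤ s := by positivity
  have hs1 : s < 1 := by
    rw [hs, div_lt_one (by positivity)]
    rw [div_lt_iff₀ hpi] at hρ
    linarith
  set r : ℝ := 4 * Real.pi ^ 2 * ((1 + s) / 2) with hr
  have hr0 : 0 < r := by positivity
  have hr1 : r < 4 * Real.pi ^ 2 := by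
    rw [hr]
    nlinarith
  set q : ℝ := 4 * (top D : ℝ) / (r * ρ) with hq
  have hq0 : 0 ≤ q := by positivity
  have hq1 : q < 1 := by
    have : q = 2 * s / (1 + s) := by
      rw [hq, hr, hs]
      have : (1 : ℝ) + (top D : ℝ) / (Real.pi ^ 2 * ρ) ≠ 0 := by positivity
      field_simp
    rw [this, div_lt_one (by linarith)]
    linarith
  choose C hC using fun v => node_bounded h v hr0 hr1
  obtain ⟨B, hB⟩ := e2_poly (Fintype.card V + 1) hq0 hq1
  refine ⟨2 * (∏ v, C v) * B, fun k => ?_⟩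
  have hC0 : ∀ v, 0 ≤ C v := fun v => le_trans (by positivity) (hC v 0)
  have hP0 : 0 ≤ ∏ v, C v := prod_nonneg fun v _ => hC0 v
  have hterm : ∀ j ∈ (univ : Finset V).piAntidiag k,
      |(∏ v, coeff (j v) (node D v)) * moment D j| ≤
        ((∏ v, C v) / r ^ k) * ((2 * ((k : ℝ) + 1)) * 4 ^ k * k.factorial * (top D : ℝ) ^ k) := by
    intro j hj
    rw [Finset.mem_piAntidiag] at hj
    rw [abs_mul, abs_prod, abs_of_nonneg (moment_nonneg D j)]
    refine mul_le_mul ?_ ?_ (moment_nonneg D j) (by positivity)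
    · rw [le_div_iff₀ (by positivity), ← hj.1, ← prod_pow_eq_pow_sum, ← prod_mul_distrib]
      exact prod_le_prod (fun v _ => by positivity) fun v _ => hC v (j v)
    · refine (moment_le h hj.1).trans (mul_le_mul_of_nonneg_right (e2_fac k) (by positivity))
  have hmk : coeff k (part D) = ∑ j ∈ (univ : Finset V).piAntidiag k,
      (∏ v, coeff (j v) (node D v)) * moment D j := by
    rw [part, coeff_mk]
  rw [hmk]
  refine (abs_sum_le_sum_abs _ _).trans ((sum_le_sum hterm).trans ?_)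
  rw [sum_const, nsmul_eq_mul]
  have hfin : (((univ : Finset V).piAntidiag k).card : ℝ) *
      ((∏ v, C v) / r ^ k * (2 * ((k : ℝ) + 1) * 4 ^ k * k.factorial * (top D : ℝ) ^ k)) ≤
      ((k : ℝ) + 1) ^ Fintype.card V *
      ((∏ v, C v) / r ^ k * (2 * ((k : ℝ) + 1) * 4 ^ k * k.factorial * (top D : ℝ) ^ k)) :=
    mul_le_mul_of_nonneg_right (e2_card k) (by positivity)
  refine hfin.trans ?_
  have hqk : (4 : ℝ) ^ k * (top D : ℝ) ^ k / r ^ k = q ^ k * ρ ^ k := by
    rw [hq, ← mul_pow, ← div_pow, ← mul_pow]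
    congr 1
    field_simp
  have e : ((k : ℝ) + 1) ^ Fintype.card V *
      ((∏ v, C v) / r ^ k * (2 * ((k : ℝ) + 1) * 4 ^ k * k.factorial * (top D : ℝ) ^ k)) =
      2 * (∏ v, C v) * (((k : ℝ) + 1) ^ (Fintype.card V + 1) * q ^ k) * k.factorial * ρ ^ k := by
    calc _ = 2 * (∏ v, C v) * ((k : ℝ) + 1) ^ (Fintype.card V + 1) * k.factorial *
          ((4 : ℝ) ^ k * (top D : ℝ) ^ k / r ^ k) := by ring
      _ = _ := by rw [hqk]; ring
  rw [e]
  refine mul_le_mul_of_nonneg_right (mul_le_mul_of_nonneg_right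
    (mul_le_mul_of_nonneg_left (hB k) (by positivity)) (by positivity)) (by positivity)

theorem part_sign {D : Data V} (h : D.IsSplice) (k : ℕ) : 0 ≤ (-1) ^ k * coeff k (part D) := by
  rw [part, coeff_mk, mul_sum]
  refine sum_nonneg fun j hj => ?_
  rw [Finset.mem_piAntidiag] at hj
  have e : (-1 : ℝ) ^ k * ((∏ v, coeff (j v) (node D v)) * moment D j) =
      (∏ v, (-1 : ℝ) ^ j v * coeff (j v) (node D v)) * moment D j := by
    rw [prod_mul_distrib, prod_pow_eq_pow_sum, hj.1]
    ring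
  rw [e]
  exact mul_nonneg (prod_nonneg fun v _ => node_sign h v (j v)) (moment_nonneg D j)

end Pool.Agent.OHT
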