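import Pool.Agent.OHT.Defs2
import Pool.Agent.OHT.B1
import Pool.Agent.OHT.B2
import Pool.Agent.OHT.C2
import Pool.Agent.OHT.C3
import Pool.Agent.OHT.E2

set_option autoImplicit false

open PowerSeries Finset MeasureTheory

namespace Pool.Agent.OHT

variable {V : Type} [Fintype V] [DecidableEq V]

private lemma e3_sinhc_zero (k : ℕ) : constantCoeff (sinhc k) = 1 := by
  rw [← coeff_zero_eq_constantCoeff_apply, sinhc, coeff_mk]
  simp

private lemma e3_node_zero (D : Data V) (v : V) : coeff 0 (node D v) = 1 := by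
  rw [coeff_zero_eq_constantCoeff_apply, node, map_mul, map_prod, map_pow,
    PowerSeries.constantCoeff_inv]
  simp [e3_sinhc_zero]

private lemma e3_fact (k : ℕ) : k.factorial * k.factorial * 4 ^ k ≤ (2 * k + 1).factorial := by
  induction k with
  | zero => simp
  | succ k ih =>
    have h1 : (2 * (k + 1) + 1).factorial = (2 * k + 3) * ((2 * k + 2) * (2 * k + 1).factorial) := by
      rw [show 2 * (k + 1) + 1 = (2 * k + 2) + 1 by ring, Nat.factorial_succ,
        show 2 * k + 2 = (2 * k + 1) + 1 by ring, Nat.factorial_succ]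
    rw [h1, Nat.factorial_succ]
    calc (k + 1) * k.factorial * ((k + 1) * k.factorial) * 4 ^ (k + 1)
        = (2 * k + 2) * ((2 * k + 2) * (k.factorial * k.factorial * 4 ^ k)) := by ring
      _ ≤ (2 * k + 3) * ((2 * k + 2) * (2 * k + 1).factorial) := by gcongr <;> omega

private lemma e3_moment {D : Data V} (h : D.IsSplice) (v : V) (k : ℕ) :
    moment D (Pi.single v k) =
      (2 * k + 1).factorial / k.factorial * (D.lk v v : ℝ) ^ k := by
  rw [← moment_single h v k, moment]
  congr 1
  funext x
  rw [Finset.prod_eq_single v]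
  · simp [nsq]
  · intro w _ hw
    simp [Pi.single_eq_of_ne hw]
  · intro hv
    exact absurd (mem_univ v) hv

private lemma e3_part_ge {D : Data V} (h : D.IsSplice) (v : V) (k : ℕ) :
    |coeff k (node D v)| * ((2 * k + 1).factorial / k.factorial * (D.lk v v : ℝ) ^ k) ≤
      |coeff k (part D)| := by
  have h1 : (-1) ^ k * coeff k (part D) = ∑ j ∈ (univ : Finset V).piAntidiag k,
      (∏ w, ((-1) ^ j w * coeff (j w) (node D w))) * moment D j := by
    rw [part, coeff_mk, Finset.mul_sum]
    refine Finset.sum_congr rfl fun j hj => ?_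
    have hs : ∑ w, j w = k := (mem_piAntidiag.1 hj).1
    rw [Finset.prod_mul_distrib, Finset.prod_pow_eq_pow_sum, hs]
    ring
  have h2 : (∏ w, ((-1) ^ (Pi.single v k : V → ℕ) w * coeff ((Pi.single v k : V → ℕ) w) (node D w)))
      = (-1) ^ k * coeff k (node D v) := by
    rw [Finset.prod_eq_single v]
    · simp
    · intro w _ hw
      rw [Pi.single_eq_of_ne hw, e3_node_zero]
      simp
    · intro hv
      exact absurd (mem_univ v) hv
  have h3 : (Pi.single v k : V → ℕ) ∈ (univ : Finset V).piAntidiag k := by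
    rw [mem_piAntidiag]
    refine ⟨?_, fun i _ => mem_univ i⟩
    simp
  have h4 : (∏ w, ((-1) ^ (Pi.single v k : V → ℕ) w * coeff ((Pi.single v k : V → ℕ) w) (node D w)))
      * moment D (Pi.single v k) ≤ (-1) ^ k * coeff k (part D) := by
    rw [h1]
    refine Finset.single_le_sum (f := fun j : V → ℕ =>
      (∏ w, ((-1) ^ j w * coeff (j w) (node D w))) * moment D j) (fun j _ => ?_) h3
    exact mul_nonneg (Finset.prod_nonneg fun w _ => node_sign h w (j w)) (moment_nonneg D j)
  rw [h2, e3_moment h] at h4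
  have h5 : (-1) ^ k * coeff k (node D v) = |coeff k (node D v)| := by
    have := abs_of_nonneg (node_sign h v k)
    rw [abs_mul, abs_pow, abs_neg, abs_one, one_pow, one_mul] at this
    exact this.symm
  rw [h5] at h4
  refine h4.trans ((le_abs_self _).trans ?_)
  rw [abs_mul, abs_pow, abs_neg, abs_one, one_pow, one_mul]

theorem part_not_gev {D : Data V} (h : D.IsSplice) {ρ : ℝ} (h0 : 0 < ρ)
    (hρ : ρ < (top D : ℝ) / Real.pi ^ 2) : ¬ Gev ρ (part D) := by
  rintro ⟨C, hC⟩
  have hpi : 0 < Real.pi := Real.pi_pos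
  have hpi2 : 0 < Real.pi ^ 2 := by positivity
  have htop : 0 < (top D : ℝ) := by
    rw [lt_div_iff₀ hpi2] at hρ
    have : 0 < ρ * Real.pi ^ 2 := by positivity
    linarith
  have htop' : 0 < top D := by exact_mod_cast htop
  have hne : (univ : Finset V).Nonempty := by
    by_contra hne
    rw [Finset.not_nonempty_iff_eq_empty] at hne
    rw [top, hne, Finset.sup_empty] at htop'
    exact absurd htop' (by simp)
  obtain ⟨v, -, hv⟩ := Finset.exists_mem_eq_sup (univ : Finset V) hne (fun v => D.lk v v)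
  have hv' : (D.lk v v : ℝ) = (top D : ℝ) := by
    rw [top, hv]
  set l : ℝ := (top D : ℝ) with hl
  have hr : 4 * Real.pi ^ 2 < 4 * l / ρ := by
    rw [lt_div_iff₀ h0]
    rw [lt_div_iff₀ hpi2] at hρ
    linarith
  obtain ⟨k, hk⟩ := node_unbounded h v hr C
  have h1 := e3_part_ge h v k
  have h2 := hC k
  have hkf : (0 : ℝ) < k.factorial := by exact_mod_cast k.factorial_pos
  have h3 : (k.factorial : ℝ) * 4 ^ k ≤ (2 * k + 1).factorial / k.factorial := by
    rw [le_div_iff₀ hkf]
    have := e3_fact k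
    have h4 : ((k.factorial * k.factorial * 4 ^ k : ℕ) : ℝ) ≤ ((2 * k + 1).factorial : ℕ) := by
      exact_mod_cast this
    push_cast at h4
    linarith
  rw [hv'] at h1
  have h5 : |coeff k (node D v)| * ((k.factorial : ℝ) * 4 ^ k * l ^ k) ≤
      C * k.factorial * ρ ^ k := by
    refine le_trans ?_ (h1.trans h2)
    gcongr
  have h6 : |coeff k (node D v)| * (4 * l / ρ) ^ k ≤ C := by
    have hρk : 0 < ρ ^ k := pow_pos h0 k
    rw [div_pow, mul_pow, ← mul_div_assoc, div_le_iff₀ hρk]
    have h7 : (k.factorial : ℝ) * (|coeff k (node D v)| * (4 ^ k * l ^ k)) ≤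
        k.factorial * (C * ρ ^ k) := by
      nlinarith
    exact le_of_mul_le_mul_left h7 hkf
  linarith

end Pool.Agent.OHT
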