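import Pool.Agent.OHT.Defs2

set_option autoImplicit false

open PowerSeries Finset MeasureTheory

namespace Pool.Agent.OHT

variable {V : Type} [Fintype V] [DecidableEq V]

private theorem f0_slit {c c' : ℝ} (h : c ≤ c') : slit c ⊆ slit c' := by
  intro z hz
  rcases hz with hz | hz
  · exact Or.inl hz
  · exact Or.inr (by linarith)

private theorem f0_growth {C C' : ℝ} (s : ℝ) (hs : 0 ≤ s) :
    |C| * Real.exp (|C| * s) * (|C'| * Real.exp (|C'| * s)) ≤
      ((|C| + 1) * (|C'| + 1)) * Real.exp (((|C| + 1) * (|C'| + 1)) * s) := by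
  have h1 := abs_nonneg C
  have h2 := abs_nonneg C'
  have h3 : |C| * Real.exp (|C| * s) * (|C'| * Real.exp (|C'| * s)) =
      (|C| * |C'|) * Real.exp ((|C| + |C'|) * s) := by
    rw [add_mul, Real.exp_add]
    ring
  rw [h3]
  have h4 : (|C| + |C'|) * s ≤ ((|C| + 1) * (|C'| + 1)) * s := by
    apply mul_le_mul_of_nonneg_right _ hs
    nlinarith [mul_nonneg h1 h2]
  have h5 : |C| * |C'| ≤ (|C| + 1) * (|C'| + 1) := by nlinarith
  exact mul_le_mul h5 (Real.exp_le_exp.2 h4) (Real.exp_pos _).le (by positivity)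

private theorem f0_le {C s : ℝ} (hs : 0 ≤ s) : C * Real.exp (C * s) ≤ |C| * Real.exp (|C| * s) := by
  have h1 : C ≤ |C| := le_abs_self C
  have h2 : C * s ≤ |C| * s := mul_le_mul_of_nonneg_right h1 hs
  calc C * Real.exp (C * s) ≤ |C| * Real.exp (C * s) :=
        mul_le_mul_of_nonneg_right h1 (Real.exp_pos _).le
    _ ≤ |C| * Real.exp (|C| * s) :=
        mul_le_mul_of_nonneg_left (Real.exp_le_exp.2 h2) (abs_nonneg C)

theorem Fam.sub {ι : Type} [Fintype ι] {c c' : ℝ} {u u' : ℂ → EuclideanSpace ℝ ι → ℂ}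
    {p p' : ℕ → EuclideanSpace ℝ ι → ℂ} (h : Fam c u p) (h' : Fam c' u' p') :
    Fam (min c c') (fun t x => u t x - u' t x) (fun k x => p k x - p' k x) where
  pos := lt_min h.pos h'.pos
  scale := by
    intro s t x
    rw [h.scale, h'.scale]
  cont := by
    refine ContinuousOn.sub (h.cont.mono ?_) (h'.cont.mono ?_)
    · exact Set.prod_mono (f0_slit (min_le_left _ _)) subset_rfl
    · exact Set.prod_mono (f0_slit (min_le_right _ _)) subset_rfl
  diff := by
    intro x hx
    exact ((h.diff x hx).mono (f0_slit (min_le_left _ _))).sub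
      ((h'.diff x hx).mono (f0_slit (min_le_right _ _)))
  growth := by
    obtain ⟨C, hC⟩ := h.growth
    obtain ⟨C', hC'⟩ := h'.growth
    refine ⟨|C| + |C'|, fun t ht x hx => ?_⟩
    have hs := Real.sqrt_nonneg t
    have h1 := (hC t ht x hx).trans (f0_le hs)
    have h2 := (hC' t ht x hx).trans (f0_le hs)
    have h3 := abs_nonneg C
    have h4 := abs_nonneg C'
    have e1 : Real.exp (|C| * √t) ≤ Real.exp ((|C| + |C'|) * √t) :=
      Real.exp_le_exp.2 (by nlinarith [mul_nonneg h4 hs])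
    have e2 : Real.exp (|C'| * √t) ≤ Real.exp ((|C| + |C'|) * √t) :=
      Real.exp_le_exp.2 (by nlinarith [mul_nonneg h3 hs])
    calc ‖u t x - u' t x‖ ≤ ‖u t x‖ + ‖u' t x‖ := norm_sub_le _ _
      _ ≤ |C| * Real.exp (|C| * √t) + |C'| * Real.exp (|C'| * √t) := add_le_add h1 h2
      _ ≤ |C| * Real.exp ((|C| + |C'|) * √t) + |C'| * Real.exp ((|C| + |C'|) * √t) :=
          add_le_add (mul_le_mul_of_nonneg_left e1 h3) (mul_le_mul_of_nonneg_left e2 h4)
      _ = (|C| + |C'|) * Real.exp ((|C| + |C'|) * √t) := by ring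
  hom := by
    intro k s x
    rw [h.hom, h'.hom]
    ring
  pcont := fun k => (h.pcont k).sub (h'.pcont k)
  ser := by
    intro x hx t ht
    have h1 := h.ser x hx t (lt_of_lt_of_le ht (min_le_left _ _))
    have h2 := h'.ser x hx t (lt_of_lt_of_le ht (min_le_right _ _))
    have h3 := h1.sub h2
    simpa only [mul_sub] using h3

theorem Fam.mul {ι : Type} [Fintype ι] {c c' : ℝ} {u u' : ℂ → EuclideanSpace ℝ ι → ℂ}
    {p p' : ℕ → EuclideanSpace ℝ ι → ℂ} (h : Fam c u p) (h' : Fam c' u' p') :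
    Fam (min c c') (fun t x => u t x * u' t x)
      (fun k x => ∑ q ∈ antidiagonal k, p q.1 x * p' q.2 x) where
  pos := lt_min h.pos h'.pos
  scale := by
    intro s t x
    rw [h.scale, h'.scale]
  cont := by
    refine ContinuousOn.mul (h.cont.mono ?_) (h'.cont.mono ?_)
    · exact Set.prod_mono (f0_slit (min_le_left _ _)) subset_rfl
    · exact Set.prod_mono (f0_slit (min_le_right _ _)) subset_rfl
  diff := by
    intro x hx
    exact ((h.diff x hx).mono (f0_slit (min_le_left _ _))).mul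
      ((h'.diff x hx).mono (f0_slit (min_le_right _ _)))
  growth := by
    obtain ⟨C, hC⟩ := h.growth
    obtain ⟨C', hC'⟩ := h'.growth
    refine ⟨(|C| + 1) * (|C'| + 1), fun t ht x hx => ?_⟩
    have hs := Real.sqrt_nonneg t
    have h1 := (hC t ht x hx).trans (f0_le hs)
    have h2 := (hC' t ht x hx).trans (f0_le hs)
    rw [norm_mul]
    exact (mul_le_mul h1 h2 (norm_nonneg _) ((norm_nonneg _).trans h1)).trans (f0_growth _ hs)
  hom := by
    intro k s x
    rw [Finset.mul_sum]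
    refine Finset.sum_congr rfl fun q hq => ?_
    have hq' : q.1 + q.2 = k := Finset.HasAntidiagonal.mem_antidiagonal.1 hq
    rw [h.hom, h'.hom, ← hq']
    ring
  pcont := fun k => continuous_finsetSum _ fun q _ => (h.pcont q.1).mul (h'.pcont q.2)
  ser := by
    intro x hx t ht
    have h1 := h.ser x hx t (lt_of_lt_of_le ht (min_le_left _ _))
    have h2 := h'.ser x hx t (lt_of_lt_of_le ht (min_le_right _ _))
    have n1 := h1.summable.norm
    have n2 := h2.summable.norm
    have h3 := (summable_norm_sum_mul_antidiagonal_of_summable_norm n1 n2).of_norm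
    have h4 := tsum_mul_tsum_eq_tsum_sum_antidiagonal_of_summable_norm n1 n2
    rw [h1.tsum_eq, h2.tsum_eq] at h4
    have h5 := h3.hasSum
    rw [← h4] at h5
    have e : (fun k => t ^ k * ∑ q ∈ antidiagonal k, p q.1 x * p' q.2 x) =
        fun n => ∑ kl ∈ antidiagonal n, t ^ kl.1 * p kl.1 x * (t ^ kl.2 * p' kl.2 x) := by
      funext k
      rw [Finset.mul_sum]
      refine Finset.sum_congr rfl fun q hq => ?_
      have hq' : q.1 + q.2 = k := Finset.HasAntidiagonal.mem_antidiagonal.1 hq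
      rw [← hq']
      ring
    rw [e]
    exact h5

theorem Fam.comp {ι ι' : Type} [Fintype ι] [Fintype ι'] {c : ℝ}
    {u : ℂ → EuclideanSpace ℝ ι → ℂ} {p : ℕ → EuclideanSpace ℝ ι → ℂ} (h : Fam c u p)
    (L : EuclideanSpace ℝ ι' →ₗ[ℝ] EuclideanSpace ℝ ι) (hL : ∀ x, ‖L x‖ ≤ ‖x‖) :
    Fam c (fun t x => u t (L x)) (fun k x => p k (L x)) := by
  have hLc : Continuous L := L.continuous_of_finiteDimensional
  have hB : ∀ x ∈ Metric.closedBall (0 : EuclideanSpace ℝ ι') 1,
      L x ∈ Metric.closedBall (0 : EuclideanSpace ℝ ι) 1 := by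
    intro x hx
    rw [mem_closedBall_zero_iff] at hx ⊢
    exact (hL x).trans hx
  exact
    { pos := h.pos
      scale := by
        intro s t x
        rw [map_smul, h.scale]
      cont := by
        have h1 : ContinuousOn (fun q : ℂ × EuclideanSpace ℝ ι' => (q.1, L q.2))
            (slit c ×ˢ Metric.closedBall 0 1) := by fun_prop
        exact h.cont.comp h1 fun q hq => ⟨hq.1, hB _ hq.2⟩
      diff := fun x hx => h.diff _ (hB x hx)
      growth := by
        obtain ⟨C, hC⟩ := h.growth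
        exact ⟨C, fun t ht x hx => hC t ht _ (hB x hx)⟩
      hom := by
        intro k s x
        rw [map_smul, h.hom]
      pcont := fun k => (h.pcont k).comp hLc
      ser := fun x hx t ht => h.ser _ (hB x hx) t ht }

/-- continuous functions of exponential growth are integrable -/
private theorem f0_int {ι : Type} [Fintype ι] {F : EuclideanSpace ℝ ι → ℂ} (hF : Continuous F)
    {A B : ℝ} (hA : 0 ≤ A) (hb : ∀ x, ‖F x‖ ≤ A * Real.exp (B * ‖x‖)) : Integrable F (ga ι) := by
  obtain ⟨C, hC, h1⟩ := ProbabilityTheory.IsGaussian.exists_integrable_exp_sq (ga ι)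
  refine Integrable.mono' (h1.const_mul (A * Real.exp (B ^ 2 / (4 * C)))) hF.aestronglyMeasurable
    (Filter.Eventually.of_forall fun x => (hb x).trans ?_)
  rw [mul_assoc, ← Real.exp_add]
  refine mul_le_mul_of_nonneg_left (Real.exp_le_exp.2 ?_) hA
  have h2 : B ^ 2 / (4 * C) + C * ‖x‖ ^ 2 - B * ‖x‖ = (B - 2 * C * ‖x‖) ^ 2 / (4 * C) := by
    field_simp
    ring
  have h3 : 0 ≤ (B - 2 * C * ‖x‖) ^ 2 / (4 * C) := by positivity
  linarith

private theorem f0_unit {ι : Type} [Fintype ι] (x : EuclideanSpace ℝ ι) :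
    ∃ y ∈ Metric.closedBall (0 : EuclideanSpace ℝ ι) 1, x = ‖x‖ • y := by
  by_cases h : x = 0
  · refine ⟨0, by simp, ?_⟩
    rw [h]
    simp
  · have hx : ‖x‖ ≠ 0 := norm_ne_zero_iff.2 h
    refine ⟨‖x‖⁻¹ • x, ?_, ?_⟩
    · rw [mem_closedBall_zero_iff, norm_smul, norm_inv, norm_norm, inv_mul_cancel₀ hx]
    · rw [smul_smul, mul_inv_cancel₀ hx, one_smul]

theorem Fam.integrable {ι : Type} [Fintype ι] {c : ℝ} {u : ℂ → EuclideanSpace ℝ ι → ℂ}
    {p : ℕ → EuclideanSpace ℝ ι → ℂ} (h : Fam c u p) {t : ℝ} (ht : 0 ≤ t) :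
    Integrable (u t) (ga ι) := by
  have hcont : Continuous (u t) := by
    rw [continuous_iff_continuousAt]
    intro x
    obtain ⟨R, hR0, hR⟩ : ∃ R : ℝ, 0 < R ∧ ‖x‖ < R := ⟨‖x‖ + 1, by positivity, by linarith⟩
    have e : ∀ y : EuclideanSpace ℝ ι, u t y = u ((R : ℂ) ^ 2 * t) (R⁻¹ • y) := by
      intro y
      rw [← h.scale, smul_smul, mul_inv_cancel₀ hR0.ne', one_smul]
    have h1 : ContinuousOn (fun y : EuclideanSpace ℝ ι => u ((R : ℂ) ^ 2 * t) (R⁻¹ • y))
        (Metric.closedBall 0 R) := by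
      have h2 : ContinuousOn (fun y : EuclideanSpace ℝ ι => ((R : ℂ) ^ 2 * (t : ℂ), R⁻¹ • y))
          (Metric.closedBall 0 R) := by fun_prop
      refine h.cont.comp h2 fun y hy => ⟨?_, ?_⟩
      · right
        have h3 : ((R : ℂ) ^ 2 * (t : ℂ)).re = R ^ 2 * t := by
          rw [← Complex.ofReal_pow, ← Complex.ofReal_mul, Complex.ofReal_re]
        show -c < ((R : ℂ) ^ 2 * (t : ℂ)).re
        rw [h3]
        have := h.pos
        have : 0 ≤ R ^ 2 * t := by positivity
        linarith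
      · show R⁻¹ • y ∈ Metric.closedBall (0 : EuclideanSpace ℝ ι) 1
        rw [mem_closedBall_zero_iff] at hy ⊢
        rw [norm_smul, norm_inv, Real.norm_of_nonneg hR0.le, inv_mul_le_iff₀ hR0, mul_one]
        exact hy
    have h4 := h1.continuousAt (Metric.closedBall_mem_nhds_of_mem (by
      rw [mem_ball_zero_iff]
      exact hR))
    refine h4.congr (Filter.Eventually.of_forall fun y => (e y).symm)
  obtain ⟨C, hC⟩ := h.growth
  refine f0_int hcont (A := |C|) (B := |C| * √t) (abs_nonneg C) fun x => ?_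
  obtain ⟨y, hy, hxy⟩ := f0_unit x
  have e1 : u t x = u ((‖x‖ ^ 2 * t : ℝ) : ℂ) y := by
    conv_lhs => rw [hxy]
    rw [h.scale]
    push_cast
    rfl
  rw [e1]
  have h1 := (hC (‖x‖ ^ 2 * t) (by positivity) y hy).trans (f0_le (Real.sqrt_nonneg _))
  rw [Real.sqrt_mul (by positivity), Real.sqrt_sq (norm_nonneg x)] at h1
  refine h1.trans (le_of_eq ?_)
  congr 2
  ring

theorem Fam.integrable_p {ι : Type} [Fintype ι] {c : ℝ} {u : ℂ → EuclideanSpace ℝ ι → ℂ}
    {p : ℕ → EuclideanSpace ℝ ι → ℂ} (h : Fam c u p) (k : ℕ) :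
    Integrable (p k) (ga ι) := by
  obtain ⟨M, hM⟩ := (isCompact_closedBall (0 : EuclideanSpace ℝ ι) 1).exists_bound_of_continuousOn
    (h.pcont k).continuousOn
  have hM0 : 0 ≤ M := (norm_nonneg _).trans (hM 0 (by simp))
  refine f0_int (h.pcont k) (A := M * (2 * k).factorial) (B := 1) (by positivity) fun x => ?_
  obtain ⟨y, hy, hxy⟩ := f0_unit x
  have e1 : p k x = (‖x‖ : ℂ) ^ (2 * k) * p k y := by
    conv_lhs => rw [hxy]
    rw [h.hom]
  rw [e1, norm_mul, norm_pow, Complex.norm_real, norm_norm, one_mul]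
  have h2 := Real.pow_div_factorial_le_exp ‖x‖ (norm_nonneg x) (2 * k)
  rw [div_le_iff₀ (by positivity)] at h2
  calc ‖x‖ ^ (2 * k) * ‖p k y‖ ≤ (Real.exp ‖x‖ * (2 * k).factorial) * M :=
        mul_le_mul h2 (hM y hy) (norm_nonneg _) (by positivity)
    _ = M * (2 * k).factorial * Real.exp ‖x‖ := by ring

end Pool.Agent.OHT
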