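import Pool.Agent.OHT.Defs2
import Pool.Agent.OHT.F0

set_option autoImplicit false

open PowerSeries Finset MeasureTheory

namespace Pool.Agent.OHT

variable {V : Type} [Fintype V] [DecidableEq V]

section density
variable (ι : Type) [Fintype ι]

/-- the density of the standard Gaussian measure -/
private noncomputable def f1_dens (x : EuclideanSpace ℝ ι) : ℝ :=
  ((2 * Real.pi) ^ ((Fintype.card ι : ℝ) / 2))⁻¹ * Real.exp (-‖x‖ ^ 2 / 2)

private theorem f1_dens_nonneg (x : EuclideanSpace ℝ ι) : 0 ≤ f1_dens ι x := by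
  unfold f1_dens
  have := Real.pi_pos
  positivity

private theorem f1_dens_cont : Continuous (f1_dens ι) := by
  unfold f1_dens
  fun_prop

private theorem f1_dens_int : Integrable (f1_dens ι) := by
  unfold f1_dens
  refine Integrable.const_mul ?_ _
  have h := (GaussianFourier.integrable_cexp_neg_mul_sq_norm_add
    (b := (1 / 2 : ℂ)) (by norm_num) 0 (0 : EuclideanSpace ℝ ι)).norm
  refine h.congr (Filter.Eventually.of_forall fun x => ?_)
  simp only [Complex.norm_exp]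
  congr 1
  simp
  norm_cast
  ring

private theorem f1_density : ga ι = (volume : Measure (EuclideanSpace ℝ ι)).withDensity
    (fun x => ENNReal.ofReal (f1_dens ι x)) := by
  have hfin : IsFiniteMeasure ((volume : Measure (EuclideanSpace ℝ ι)).withDensity
      (fun x => ENNReal.ofReal (f1_dens ι x))) :=
    isFiniteMeasure_withDensity_ofReal (f1_dens_int ι).2
  apply Measure.ext_of_charFun
  ext t
  rw [ProbabilityTheory.charFun_stdGaussian, charFun_apply,
    integral_withDensity_eq_integral_toReal_smul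
      (f1_dens_cont ι).measurable.ennreal_ofReal (by simp)]
  have hp := Real.pi_pos
  have h1 : ∀ x : EuclideanSpace ℝ ι, (ENNReal.ofReal (f1_dens ι x)).toReal •
      Complex.exp ((inner ℝ x t : ℝ) * Complex.I) =
      ((((2 * Real.pi) ^ ((Fintype.card ι : ℝ) / 2))⁻¹ : ℝ) : ℂ) *
        Complex.exp (-(1 / 2 : ℂ) * (‖x‖ : ℂ) ^ 2 + Complex.I * (inner ℝ t x : ℝ)) := by
    intro x
    rw [ENNReal.toReal_ofReal (f1_dens_nonneg ι x), Complex.real_smul]
    unfold f1_dens
    rw [Complex.ofReal_mul, mul_assoc, Complex.ofReal_exp, ← Complex.exp_add,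
      real_inner_comm t x]
    congr 3
    · push_cast
      ring
    · ring
  simp only [h1]
  rw [integral_const_mul, GaussianFourier.integral_cexp_neg_mul_sq_norm_add (by norm_num)]
  have h2 : (Real.pi / (1 / 2 : ℂ)) ^ (Module.finrank ℝ (EuclideanSpace ℝ ι) / 2 : ℂ) =
      (((2 * Real.pi) ^ ((Fintype.card ι : ℝ) / 2) : ℝ) : ℂ) := by
    rw [Complex.ofReal_cpow (by positivity), finrank_euclideanSpace]
    push_cast
    congr 1
    ring
  rw [h2, ← mul_assoc, ← Complex.ofReal_mul, inv_mul_cancel₀ (by positivity), Complex.ofReal_one,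
    one_mul, Complex.I_sq]
  congr 1
  ring

end density


section polar
variable {ι : Type} [Fintype ι] [Nonempty ι]

private theorem f1_ioi (m : ℕ) (G : ℝ → ℂ) :
    ∫ r : Set.Ioi (0 : ℝ), G r ∂(Measure.volumeIoiPow m) =
      ∫ r in Set.Ioi (0 : ℝ), ((r ^ m : ℝ) : ℂ) * G r := by
  unfold Measure.volumeIoiPow
  rw [integral_withDensity_eq_integral_toReal_smul
    (by fun_prop) (by simp)]
  have h1 : ∀ r : Set.Ioi (0 : ℝ), (ENNReal.ofReal ((r : ℝ) ^ m)).toReal • G r =
      (fun r : ℝ => ((r ^ m : ℝ) : ℂ) * G r) r := by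
    intro r
    rw [ENNReal.toReal_ofReal (pow_nonneg (le_of_lt r.2) _), Complex.real_smul]
  simp only [h1]
  rw [integral_subtype_comap measurableSet_Ioi (fun r : ℝ => ((r ^ m : ℝ) : ℂ) * G r)]

/-- the surface measure of the unit sphere -/
private noncomputable def f1_sig (ι : Type) [Fintype ι] :
    Measure (Metric.sphere (0 : EuclideanSpace ℝ ι) 1) :=
  (volume : Measure (EuclideanSpace ℝ ι)).toSphere

private instance : IsFiniteMeasure (f1_sig ι) := by
  unfold f1_sig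
  infer_instance

private theorem f1_polar (f : EuclideanSpace ℝ ι → ℂ) (hf : Integrable f (ga ι)) :
    ∫ x, f x ∂(ga ι) = ∫ r in Set.Ioi (0 : ℝ), ((r ^ (Fintype.card ι - 1) : ℝ) : ℂ) *
      (((((2 * Real.pi) ^ ((Fintype.card ι : ℝ) / 2))⁻¹ * Real.exp (-r ^ 2 / 2) : ℝ) : ℂ) *
        ∫ x, f (r • (x : EuclideanSpace ℝ ι)) ∂(f1_sig ι)) := by
  have hmeas : Measurable fun x : EuclideanSpace ℝ ι => ENNReal.ofReal (f1_dens ι x) :=
    (f1_dens_cont ι).measurable.ennreal_ofReal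
  set F : EuclideanSpace ℝ ι → ℂ := fun x => (f1_dens ι x : ℂ) * f x with hF
  have hsm : ∀ x, (ENNReal.ofReal (f1_dens ι x)).toReal • f x = F x := by
    intro x
    rw [ENNReal.toReal_ofReal (f1_dens_nonneg ι x), Complex.real_smul]
  have hFi : Integrable F := by
    rw [f1_density, integrable_withDensity_iff_integrable_smul' hmeas (by simp)] at hf
    simpa only [hsm] using hf
  have e1 : ∫ x, f x ∂(ga ι) = ∫ x, F x := by
    rw [f1_density, integral_withDensity_eq_integral_toReal_smul hmeas (by simp)]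
    simp only [hsm]
  have hmp := (volume : Measure (EuclideanSpace ℝ ι)).measurePreserving_homeomorphUnitSphereProd
  have hemb := (homeomorphUnitSphereProd (EuclideanSpace ℝ ι)).measurableEmbedding
  set g : Metric.sphere (0 : EuclideanSpace ℝ ι) 1 × Set.Ioi (0 : ℝ) → ℂ :=
    fun p => F ((p.2 : ℝ) • (p.1 : EuclideanSpace ℝ ι)) with hg
  have hgc : ∀ x : ({0}ᶜ : Set (EuclideanSpace ℝ ι)),
      g (homeomorphUnitSphereProd (EuclideanSpace ℝ ι) x) = F x := by
    intro x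
    rw [hg]
    simp only
    rw [← homeomorphUnitSphereProd_symm_apply_coe, Homeomorph.symm_apply_apply]
  have e2 : ∫ x, F x = ∫ p, g p ∂((volume : Measure (EuclideanSpace ℝ ι)).toSphere.prod
      (Measure.volumeIoiPow (Module.finrank ℝ (EuclideanSpace ℝ ι) - 1))) := by
    rw [← hmp.integral_comp hemb g]
    simp only [hgc]
    rw [integral_subtype_comap (measurableSet_singleton _).compl F, restrict_compl_singleton]
  have hgi : Integrable g ((volume : Measure (EuclideanSpace ℝ ι)).toSphere.prod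
      (Measure.volumeIoiPow (Module.finrank ℝ (EuclideanSpace ℝ ι) - 1))) := by
    rw [← hmp.integrable_comp_emb hemb]
    have h1 : g ∘ homeomorphUnitSphereProd (EuclideanSpace ℝ ι) =
        F ∘ ((↑) : ({0}ᶜ : Set (EuclideanSpace ℝ ι)) → EuclideanSpace ℝ ι) := by
      funext x
      exact hgc x
    rw [h1, ← integrableOn_iff_comap_subtypeVal (measurableSet_singleton _).compl]
    exact hFi.integrableOn
  rw [e1, e2, integral_prod_symm _ hgi, finrank_euclideanSpace]
  refine (f1_ioi (Fintype.card ι - 1)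
      (fun r => ∫ x, F (r • (x : EuclideanSpace ℝ ι)) ∂(f1_sig ι))).trans ?_
  refine setIntegral_congr_fun measurableSet_Ioi fun r hr => ?_
  congr 1
  rw [← integral_const_mul]
  refine integral_congr_ae (Filter.Eventually.of_forall fun x => ?_)
  simp only [hF]
  congr 2
  unfold f1_dens
  have hx : ‖(x : EuclideanSpace ℝ ι)‖ = 1 := by
    have := x.2
    rwa [mem_sphere_zero_iff_norm] at this
  rw [norm_smul, hx, mul_one, Real.norm_eq_abs, abs_of_pos hr]


private theorem f1_L0 (f : EuclideanSpace ℝ ι → ℂ) (hf : Integrable f (ga ι)) :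
    ∫ x, f x ∂(ga ι) =
      ((((2 * Real.pi) ^ ((Fintype.card ι : ℝ) / 2))⁻¹ *
        (2 : ℝ) ^ ((Fintype.card ι : ℝ) / 2 - 1) : ℝ) : ℂ) *
      ∫ s in Set.Ioi (0 : ℝ),
        ((s ^ ((Fintype.card ι : ℝ) / 2 - 1) * Real.exp (-s) : ℝ) : ℂ) *
          ∫ x, f (Real.sqrt (2 * s) • (x : EuclideanSpace ℝ ι)) ∂(f1_sig ι) := by
  have hn : 1 ≤ Fintype.card ι := Fintype.card_pos
  rw [f1_polar f hf]
  set c : ℝ := ((2 * Real.pi) ^ ((Fintype.card ι : ℝ) / 2))⁻¹ with hc
  set Φ : ℝ → ℂ := fun r => ∫ x, f (r • (x : EuclideanSpace ℝ ι)) ∂(f1_sig ι) with hΦ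
  set g : ℝ → ℂ := fun y => ((1 / 2 * y ^ ((Fintype.card ι : ℝ) / 2 - 1) *
    (c * Real.exp (-y / 2)) : ℝ) : ℂ) * Φ (Real.sqrt y) with hg
  have e1 : ∫ r in Set.Ioi (0 : ℝ), ((r ^ (Fintype.card ι - 1) : ℝ) : ℂ) *
      (((c * Real.exp (-r ^ 2 / 2) : ℝ) : ℂ) * Φ r) =
      ∫ r in Set.Ioi (0 : ℝ), ((2 : ℝ) * r ^ ((2 : ℝ) - 1)) • g (r ^ (2 : ℝ)) := by
    refine setIntegral_congr_fun measurableSet_Ioi fun r hr => ?_
    have hr' : 0 < r := hr
    simp only [hg]
    rw [Complex.real_smul, ← mul_assoc, ← mul_assoc, ← Complex.ofReal_mul, ← Complex.ofReal_mul]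
    have h2 : Real.sqrt (r ^ (2 : ℝ)) = r := by
      rw [Real.rpow_two, Real.sqrt_sq hr'.le]
    rw [h2]
    congr 2
    rw [← Real.rpow_mul hr'.le, ← Real.rpow_natCast, Nat.cast_sub hn, Real.rpow_two]
    have h3 : r ^ ((2 : ℝ) - 1) * r ^ ((2 : ℝ) * ((Fintype.card ι : ℝ) / 2 - 1)) =
        r ^ ((Fintype.card ι : ℝ) - (1 : ℕ)) := by
      rw [← Real.rpow_add hr']
      congr 1
      push_cast
      ring
    rw [← h3]
    ring
  have e2 := integral_comp_rpow_Ioi_of_pos (g := g) (p := 2) (by norm_num)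
  have e3 := integral_comp_mul_left_Ioi g 0 (b := 2) (by norm_num)
  rw [mul_zero] at e3
  have e4 : ∫ y in Set.Ioi (0 : ℝ), g y = (2 : ℂ) * ∫ s in Set.Ioi (0 : ℝ), g (2 * s) := by
    rw [e3, Complex.real_smul]
    push_cast
    ring
  rw [e1, e2, e4, ← integral_const_mul, ← integral_const_mul]
  refine setIntegral_congr_fun measurableSet_Ioi fun s hs => ?_
  have hs' : 0 < s := hs
  have h5 : (2 : ℝ) * (1 / 2 * (2 * s) ^ ((Fintype.card ι : ℝ) / 2 - 1) *
      (c * Real.exp (-(2 * s) / 2))) = (c * (2 : ℝ) ^ ((Fintype.card ι : ℝ) / 2 - 1)) *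
      (s ^ ((Fintype.card ι : ℝ) / 2 - 1) * Real.exp (-s)) := by
    rw [Real.mul_rpow (by norm_num) hs'.le]
    have h4 : -(2 * s) / 2 = -s := by ring
    rw [h4]
    ring
  have key : ∀ (a b d : ℝ) (z : ℂ), 2 * a = b * d →
      (2 : ℂ) * ((a : ℂ) * z) = (b : ℂ) * ((d : ℂ) * z) := by
    intro a b d z h
    rw [← mul_assoc, ← mul_assoc, ← Complex.ofReal_mul, ← h, Complex.ofReal_mul,
      Complex.ofReal_ofNat]
  exact key _ _ _ _ h5

private theorem f1_mass : (f1_sig ι).real Set.univ * Real.Gamma ((Fintype.card ι : ℝ) / 2) *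
    (((2 * Real.pi) ^ ((Fintype.card ι : ℝ) / 2))⁻¹ *
        (2 : ℝ) ^ ((Fintype.card ι : ℝ) / 2 - 1)) = 1 := by
  have hn : 1 ≤ Fintype.card ι := Fintype.card_pos
  have h := f1_L0 (ι := ι) (fun _ => (1 : ℂ)) (integrable_const 1)
  simp only [integral_const, probReal_univ, one_smul, Complex.real_smul, mul_one] at h
  rw [integral_mul_const] at h
  have h1 : ∫ s in Set.Ioi (0 : ℝ),
      ((s ^ ((Fintype.card ι : ℝ) / 2 - 1) * Real.exp (-s) : ℝ) : ℂ) =
      (Real.Gamma ((Fintype.card ι : ℝ) / 2) : ℂ) := by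
    have hp : 0 < (Fintype.card ι : ℝ) / 2 := by
      have : (1 : ℝ) ≤ Fintype.card ι := by exact_mod_cast hn
      linarith
    rw [integral_complex_ofReal, Real.Gamma_eq_integral hp]
    congr 1
    refine setIntegral_congr_fun measurableSet_Ioi fun s _ => ?_
    exact mul_comm _ _
  rw [h1, ← Complex.ofReal_mul, ← Complex.ofReal_mul] at h
  have h2 : ((2 * Real.pi) ^ ((Fintype.card ι : ℝ) / 2))⁻¹ *
      (2 : ℝ) ^ ((Fintype.card ι : ℝ) / 2 - 1) *
      (Real.Gamma ((Fintype.card ι : ℝ) / 2) * (f1_sig ι).real Set.univ) = 1 :=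
    Complex.ofReal_injective (by rw [Complex.ofReal_one]; exact h.symm)
  calc (f1_sig ι).real Set.univ * Real.Gamma ((Fintype.card ι : ℝ) / 2) *
    (((2 * Real.pi) ^ ((Fintype.card ι : ℝ) / 2))⁻¹ *
        (2 : ℝ) ^ ((Fintype.card ι : ℝ) / 2 - 1)) = _ := by ring
    _ = 1 := h2

private theorem f1_omega_pos : 0 < (f1_sig ι).real Set.univ := by
  have h := f1_mass (ι := ι)
  have h0 : 0 ≤ (f1_sig ι).real Set.univ := measureReal_nonneg
  rcases h0.lt_or_eq with h1 | h1
  · exact h1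
  · rw [← h1] at h
    simp at h

private theorem f1_L (f : EuclideanSpace ℝ ι → ℂ) (hf : Integrable f (ga ι)) :
    ∫ x, f x ∂(ga ι) =
      (((f1_sig ι).real Set.univ * Real.Gamma ((Fintype.card ι : ℝ) / 2) : ℝ) : ℂ)⁻¹ *
      ∫ s in Set.Ioi (0 : ℝ),
        ((s ^ ((Fintype.card ι : ℝ) / 2 - 1) * Real.exp (-s) : ℝ) : ℂ) *
          ∫ x, f (Real.sqrt (2 * s) • (x : EuclideanSpace ℝ ι)) ∂(f1_sig ι) := by
  rw [f1_L0 f hf, ← Complex.ofReal_inv]
  congr 2
  exact eq_inv_of_mul_eq_one_right f1_mass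

end polar


section hol
variable {ι : Type} [Fintype ι] {c : ℝ}

private theorem f1_slit_open (c : ℝ) : IsOpen (slit c) := by
  have h1 : IsOpen {z : ℂ | z.im ≠ 0} :=
    isOpen_ne_fun Complex.continuous_im continuous_const
  have h2 : IsOpen {z : ℂ | -c < z.re} := isOpen_lt continuous_const Complex.continuous_re
  exact h1.union h2

private theorem f1_ball {t : ℂ} (h : ‖t‖ < c) : t ∈ slit c := by
  right
  have := Complex.abs_re_le_norm t
  have h2 := neg_abs_le t.re
  linarith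

private theorem f1_sph (x : Metric.sphere (0 : EuclideanSpace ℝ ι) 1) :
    (x : EuclideanSpace ℝ ι) ∈ Metric.closedBall (0 : EuclideanSpace ℝ ι) 1 :=
  Metric.sphere_subset_closedBall x.2

variable {u : ℂ → EuclideanSpace ℝ ι → ℂ} {p : ℕ → EuclideanSpace ℝ ι → ℂ}

private theorem f1_cont (h : Fam c u p) {t : ℂ} (ht : t ∈ slit c) :
    Continuous fun x : Metric.sphere (0 : EuclideanSpace ℝ ι) 1 => u t x :=
  h.cont.comp_continuous (f := fun x : Metric.sphere (0 : EuclideanSpace ℝ ι) 1 =>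
    (t, (x : EuclideanSpace ℝ ι))) (by fun_prop) (fun x => ⟨ht, f1_sph x⟩)

private theorem f1_bdd (h : Fam c u p) {K : Set ℂ} (hK : IsCompact K) (hKs : K ⊆ slit c) :
    ∃ M : ℝ, 0 ≤ M ∧ ∀ t ∈ K, ∀ x ∈ Metric.closedBall (0 : EuclideanSpace ℝ ι) 1,
      ‖u t x‖ ≤ M := by
  have h1 : IsCompact (K ×ˢ Metric.closedBall (0 : EuclideanSpace ℝ ι) 1) :=
    hK.prod (isCompact_closedBall _ _)
  obtain ⟨M, hM⟩ := h1.exists_bound_of_continuousOn
    (h.cont.mono (Set.prod_mono hKs subset_rfl))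
  refine ⟨max M 0, le_max_right _ _, fun t ht x hx => ?_⟩
  exact (hM (t, x) ⟨ht, hx⟩).trans (le_max_left _ _)

private theorem f1_int (h : Fam c u p) {t : ℂ} (ht : t ∈ slit c) :
    Integrable (fun x : Metric.sphere (0 : EuclideanSpace ℝ ι) 1 => u t x) (f1_sig ι) := by
  obtain ⟨M, -, hM⟩ := f1_bdd h (K := {t}) isCompact_singleton (by
    rintro s rfl
    exact ht)
  exact Integrable.of_bound (f1_cont h ht).aestronglyMeasurable M
    (Filter.Eventually.of_forall fun x => hM t rfl x (f1_sph x))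

/-- the spherical mean -/
private noncomputable def f1_g (u : ℂ → EuclideanSpace ℝ ι → ℂ) (t : ℂ) : ℂ :=
  (((f1_sig ι).real Set.univ : ℝ) : ℂ)⁻¹ *
    ∫ x : Metric.sphere (0 : EuclideanSpace ℝ ι) 1, u t x ∂(f1_sig ι)

private theorem f1_diff (h : Fam c u p) : DifferentiableOn ℂ (f1_g u) (slit c) := by
  intro t0 ht0
  apply DifferentiableAt.differentiableWithinAt
  obtain ⟨R, hR, hRs⟩ := Metric.nhds_basis_closedBall.mem_iff.mp
    ((f1_slit_open c).mem_nhds ht0)
  obtain ⟨M, hM0, hM⟩ := f1_bdd h (isCompact_closedBall t0 R) hRs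
  have hR2 : 0 < R / 2 := by positivity
  have hsub : ∀ t ∈ Metric.ball t0 (R / 2), Metric.closedBall t (R / 2) ⊆
      Metric.closedBall t0 R := by
    intro t ht
    apply Metric.closedBall_subset_closedBall'
    have := Metric.mem_ball.mp ht
    linarith
  have hda : ∀ t ∈ Metric.ball t0 (R / 2), ∀ x : Metric.sphere (0 : EuclideanSpace ℝ ι) 1,
      HasDerivAt (fun s => u s x) (deriv (fun s => u s x) t) t := by
    intro t ht x
    have h1 : t ∈ slit c := hRs (hsub t ht (Metric.mem_closedBall_self hR2.le))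
    exact ((h.diff x (f1_sph x)).differentiableAt
      ((f1_slit_open c).mem_nhds h1)).hasDerivAt
  have h0 : t0 ∈ Metric.ball t0 (R / 2) := Metric.mem_ball_self hR2
  have hmeas : AEStronglyMeasurable
      (fun x : Metric.sphere (0 : EuclideanSpace ℝ ι) 1 => deriv (fun s => u s x) t0)
      (f1_sig ι) := by
    let e : ℕ → ℂ := fun m => ((R / (m + 2) : ℝ) : ℂ)
    have he : ∀ m, e m ≠ 0 := fun m => by
      simp only [e]
      rw [Complex.ofReal_ne_zero]
      positivity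
    have het : Filter.Tendsto e Filter.atTop (nhdsWithin 0 {0}ᶜ) := by
      rw [tendsto_nhdsWithin_iff]
      refine ⟨?_, Filter.Eventually.of_forall he⟩
      have h1 : Filter.Tendsto (fun m : ℕ => R / ((m : ℝ) + 2)) Filter.atTop (nhds 0) :=
        Filter.Tendsto.div_atTop tendsto_const_nhds
          (Filter.tendsto_atTop_add_const_right _ _ tendsto_natCast_atTop_atTop)
      have h2 := (Complex.continuous_ofReal.tendsto 0).comp h1
      rw [Complex.ofReal_zero] at h2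
      exact h2
    have hes : ∀ m, t0 + e m ∈ slit c := by
      intro m
      apply hRs
      rw [Metric.mem_closedBall, dist_eq_norm, add_sub_cancel_left]
      simp only [e]
      rw [Complex.norm_real, Real.norm_of_nonneg (by positivity), div_le_iff₀ (by positivity)]
      nlinarith [(Nat.cast_nonneg m : (0 : ℝ) ≤ m)]
    refine aestronglyMeasurable_of_tendsto_ae Filter.atTop
      (f := fun (m : ℕ) (x : Metric.sphere (0 : EuclideanSpace ℝ ι) 1) =>
        (e m)⁻¹ • (u (t0 + e m) x - u t0 x)) ?_ ?_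
    · intro m
      have hc : Continuous fun x : Metric.sphere (0 : EuclideanSpace ℝ ι) 1 =>
          (e m)⁻¹ • (u (t0 + e m) x - u t0 x) :=
        ((f1_cont h (hes m)).sub (f1_cont h ht0)).const_smul ((e m)⁻¹)
      exact hc.aestronglyMeasurable
    · refine Filter.Eventually.of_forall fun x => ?_
      exact (hda t0 h0 x).tendsto_slope_zero.comp het
  have key := hasDerivAt_integral_of_dominated_loc_of_deriv_le (μ := f1_sig ι)
    (F := fun (t : ℂ) (x : Metric.sphere (0 : EuclideanSpace ℝ ι) 1) => u t x)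
    (F' := fun (t : ℂ) (x : Metric.sphere (0 : EuclideanSpace ℝ ι) 1) =>
      deriv (fun s => u s x) t) (x₀ := t0) (s := Metric.ball t0 (R / 2))
    (bound := fun _ => M / (R / 2))
    (Metric.ball_mem_nhds t0 hR2) ?_ (f1_int h ht0) hmeas ?_ (integrable_const _) ?_
  · exact (key.2.const_mul _).differentiableAt
  · filter_upwards [(f1_slit_open c).mem_nhds ht0] with t ht
    exact (f1_cont h ht).aestronglyMeasurable
  · refine Filter.Eventually.of_forall fun x t ht => ?_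
    have hs : Metric.closedBall t (R / 2) ⊆ slit c := (hsub t ht).trans hRs
    refine Complex.norm_deriv_le_of_forall_mem_sphere_norm_le hR2 ?_ ?_
    · exact ((h.diff x (f1_sph x)).mono
        (Metric.closure_ball_subset_closedBall.trans hs)).diffContOnCl
    · intro z hz
      exact hM z (hsub t ht (Metric.sphere_subset_closedBall hz)) x (f1_sph x)
  · exact Filter.Eventually.of_forall fun x t ht => hda t ht x

/-- Cauchy estimates -/
private theorem f1_coef (h : Fam c u p) {ρ : ℝ} (hρ : 0 < ρ) (hρc : ρ < c) :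
    ∃ M : ℝ, 0 ≤ M ∧ ∀ (k : ℕ) (x : Metric.sphere (0 : EuclideanSpace ℝ ι) 1),
      ‖p k x‖ ≤ M * ρ⁻¹ ^ k := by
  have hsub : Metric.closedBall (0 : ℂ) ρ ⊆ slit c := by
    intro t ht
    apply f1_ball
    rw [mem_closedBall_zero_iff] at ht
    linarith
  obtain ⟨M, hM0, hM⟩ := f1_bdd h (isCompact_closedBall (0 : ℂ) ρ) hsub
  refine ⟨M, hM0, fun k x => ?_⟩
  have h1 := ((h.diff x (f1_sph x)).mono hsub)
  have h2 := DifferentiableOn.hasFPowerSeriesOnBall (R := ⟨ρ, hρ.le⟩) (c := 0)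
    (f := fun t => u t x) h1 hρ
  have h3 : HasFPowerSeriesAt (fun t => u t x)
      (FormalMultilinearSeries.ofScalars ℂ (fun k => p k x)) 0 := by
    rw [hasFPowerSeriesAt_iff]
    filter_upwards [Metric.ball_mem_nhds (0 : ℂ) h.pos] with z hz
    rw [mem_ball_zero_iff] at hz
    simp only [FormalMultilinearSeries.coeff_ofScalars, smul_eq_mul, zero_add]
    exact h.ser x (f1_sph x) z hz
  have h4 := h3.eq_formalMultilinearSeries h2.hasFPowerSeriesAt
  have h5 : p k x = (cauchyPowerSeries (fun t => u t x) 0 ρ).coeff k := by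
    have h6 := congrArg (fun q : FormalMultilinearSeries ℂ ℂ ℂ => q.coeff k) h4
    simp only [FormalMultilinearSeries.coeff_ofScalars] at h6
    exact h6
  rw [h5, ← FormalMultilinearSeries.norm_apply_eq_norm_coef]
  refine (norm_cauchyPowerSeries_le _ _ _ _).trans ?_
  rw [abs_of_pos hρ]
  refine mul_le_mul_of_nonneg_right ?_ (by positivity)
  have h7 : ‖∫ θ : ℝ in (0 : ℝ)..2 * Real.pi, ‖u (circleMap 0 ρ θ) x‖‖ ≤
      M * |2 * Real.pi - 0| := by
    apply intervalIntegral.norm_integral_le_of_norm_le_const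
    intro θ _
    rw [norm_norm]
    refine hM _ ?_ x (f1_sph x)
    rw [mem_closedBall_zero_iff, norm_circleMap_zero, abs_of_pos hρ]
  rw [sub_zero, abs_of_pos (by positivity)] at h7
  have h8 := (le_abs_self _).trans h7
  calc (2 * Real.pi)⁻¹ * ∫ θ : ℝ in (0 : ℝ)..2 * Real.pi, ‖u (circleMap 0 ρ θ) x‖
      ≤ (2 * Real.pi)⁻¹ * (M * (2 * Real.pi)) := by
        refine mul_le_mul_of_nonneg_left h8 (by positivity)
    _ = M := by
        have := Real.pi_pos
        field_simp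

private theorem f1_moment [Nonempty ι] (h : Fam c u p) (k : ℕ) :
    (∫ x, p k x ∂(ga ι)) / (Kf (Fintype.card ι) k : ℂ) =
      (((f1_sig ι).real Set.univ : ℝ) : ℂ)⁻¹ *
        ∫ x : Metric.sphere (0 : EuclideanSpace ℝ ι) 1, p k x ∂(f1_sig ι) := by
  have hn : (1 : ℝ) ≤ Fintype.card ι := by exact_mod_cast (Fintype.card_pos (α := ι))
  set n : ℝ := (Fintype.card ι : ℝ) with hndef
  have hG : 0 < Real.Gamma (n / 2) := Real.Gamma_pos_of_pos (by linarith)
  have hGk : 0 < Real.Gamma (k + n / 2) := Real.Gamma_pos_of_pos (by positivity)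
  have hω := f1_omega_pos (ι := ι)
  rw [f1_L (p k) (h.integrable_p k)]
  have h1 : ∀ s ∈ Set.Ioi (0 : ℝ),
      ((s ^ ((Fintype.card ι : ℝ) / 2 - 1) * Real.exp (-s) : ℝ) : ℂ) *
          ∫ x, p k (Real.sqrt (2 * s) • (x : EuclideanSpace ℝ ι)) ∂(f1_sig ι) =
      ((Real.exp (-s) * s ^ ((k : ℝ) + n / 2 - 1) : ℝ) : ℂ) * ((2 ^ k : ℝ) : ℂ) *
        ∫ x : Metric.sphere (0 : EuclideanSpace ℝ ι) 1, p k x ∂(f1_sig ι) := by
    intro s hs
    have hs' : 0 < s := hs
    have h2 : ∀ x : Metric.sphere (0 : EuclideanSpace ℝ ι) 1,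
        p k (Real.sqrt (2 * s) • (x : EuclideanSpace ℝ ι)) =
          (((2 * s) ^ k : ℝ) : ℂ) * p k x := by
      intro x
      rw [h.hom, ← Complex.ofReal_pow, pow_mul, Real.sq_sqrt (by positivity)]
    simp only [h2]
    rw [integral_const_mul, ← mul_assoc, ← Complex.ofReal_mul, ← Complex.ofReal_mul]
    congr 2
    rw [mul_pow, ← Real.rpow_natCast s k]
    have h3 : s ^ ((k : ℝ) + n / 2 - 1) = s ^ (n / 2 - 1) * s ^ (k : ℝ) := by
      rw [← Real.rpow_add hs']
      congr 1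
      ring
    rw [h3]
    ring
  rw [setIntegral_congr_fun measurableSet_Ioi h1, integral_mul_const, integral_mul_const,
    integral_complex_ofReal, ← Real.Gamma_eq_integral (by positivity)]
  unfold Kf
  rw [← hndef]
  have hω' : (((f1_sig ι).real Set.univ : ℝ) : ℂ) ≠ 0 := Complex.ofReal_ne_zero.mpr hω.ne'
  have hG' : ((Real.Gamma (n / 2) : ℝ) : ℂ) ≠ 0 := Complex.ofReal_ne_zero.mpr hG.ne'
  have hGk' : ((Real.Gamma (k + n / 2) : ℝ) : ℂ) ≠ 0 := Complex.ofReal_ne_zero.mpr hGk.ne'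
  have h2k : (((2 : ℝ) ^ k : ℝ) : ℂ) ≠ 0 := Complex.ofReal_ne_zero.mpr (by positivity)
  rw [Complex.ofReal_mul, Complex.ofReal_div, Complex.ofReal_mul]
  generalize ((Real.Gamma (k + n / 2) : ℝ) : ℂ) = G1 at hGk' ⊢
  generalize ((Real.Gamma (n / 2) : ℝ) : ℂ) = G2 at hG' ⊢
  field_simp

private theorem f1_hasSum [Nonempty ι] (h : Fam c u p) {t : ℂ} (ht : ‖t‖ < c) :
    HasSum (fun k => ((∫ x, p k x ∂(ga ι)) / (Kf (Fintype.card ι) k : ℂ)) * t ^ k)
      (f1_g u t) := by
  obtain ⟨ρ, hρ1, hρ2⟩ := exists_between ht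
  have hρ : 0 < ρ := lt_of_le_of_lt (norm_nonneg t) hρ1
  obtain ⟨M, hM0, hM⟩ := f1_coef h hρ hρ2
  have hq0 : 0 ≤ ‖t‖ * ρ⁻¹ := by positivity
  have hq1 : ‖t‖ * ρ⁻¹ < 1 := by
    rw [← div_eq_mul_inv, div_lt_one hρ]
    exact hρ1
  have hb : ∀ (k : ℕ) (x : Metric.sphere (0 : EuclideanSpace ℝ ι) 1),
      ‖t ^ k * p k x‖ ≤ M * (‖t‖ * ρ⁻¹) ^ k := by
    intro k x
    rw [norm_mul, norm_pow, mul_pow]
    calc ‖t‖ ^ k * ‖p k x‖ ≤ ‖t‖ ^ k * (M * ρ⁻¹ ^ k) :=
          mul_le_mul_of_nonneg_left (hM k x) (by positivity)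
      _ = M * (‖t‖ ^ k * ρ⁻¹ ^ k) := by ring
  have hc : ∀ k : ℕ, Continuous fun x : Metric.sphere (0 : EuclideanSpace ℝ ι) 1 =>
      t ^ k * p k x := fun k =>
    continuous_const.mul ((h.pcont k).comp continuous_subtype_val)
  have hi : ∀ k : ℕ, Integrable (fun x : Metric.sphere (0 : EuclideanSpace ℝ ι) 1 =>
      t ^ k * p k x) (f1_sig ι) := fun k =>
    Integrable.of_bound (hc k).aestronglyMeasurable (M * (‖t‖ * ρ⁻¹) ^ k)
      (Filter.Eventually.of_forall (hb k))
  have hs := hasSum_integral_of_summable_integral_norm (μ := f1_sig ι)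
    (F := fun (k : ℕ) (x : Metric.sphere (0 : EuclideanSpace ℝ ι) 1) => t ^ k * p k x) hi ?_
  · have h1 : ∀ x : Metric.sphere (0 : EuclideanSpace ℝ ι) 1,
        ∑' k, t ^ k * p k x = u t x := fun x => (h.ser x (f1_sph x) t ht).tsum_eq
    simp only [h1] at hs
    have hs2 := hs.mul_left ((((f1_sig ι).real Set.univ : ℝ) : ℂ)⁻¹)
    unfold f1_g
    refine hs2.congr_fun ?_
    intro k
    rw [f1_moment h k, integral_const_mul]
    ring
  · refine Summable.of_nonneg_of_le (fun k => integral_nonneg fun x => norm_nonneg _)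
      (fun k => ?_) (((summable_geometric_of_lt_one hq0 hq1).mul_left M).mul_left
        ((f1_sig ι).real Set.univ))
    have := integral_mono (hi k).norm (integrable_const (M * (‖t‖ * ρ⁻¹) ^ k)) (hb k)
    rw [integral_const, smul_eq_mul] at this
    exact this

private theorem f1_formula [Nonempty ι] (h : Fam c u p) {t : ℝ} (ht : 0 ≤ t) :
    ∫ x, u t x ∂(ga ι) =
        (Real.Gamma ((Fintype.card ι : ℝ) / 2) : ℂ)⁻¹ * ∫ s in Set.Ioi (0 : ℝ),
          f1_g u ((2 * t * s : ℝ) : ℂ) *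
            ((s ^ ((Fintype.card ι : ℝ) / 2 - 1) * Real.exp (-s) : ℝ) : ℂ) := by
  have hω := f1_omega_pos (ι := ι)
  have hω' : (((f1_sig ι).real Set.univ : ℝ) : ℂ) ≠ 0 := Complex.ofReal_ne_zero.mpr hω.ne'
  rw [f1_L (u t) (h.integrable ht)]
  have h1 : ∀ s ∈ Set.Ioi (0 : ℝ),
      ((s ^ ((Fintype.card ι : ℝ) / 2 - 1) * Real.exp (-s) : ℝ) : ℂ) *
          ∫ x, u t (Real.sqrt (2 * s) • (x : EuclideanSpace ℝ ι)) ∂(f1_sig ι) =
      (((f1_sig ι).real Set.univ : ℝ) : ℂ) * (f1_g u ((2 * t * s : ℝ) : ℂ) *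
            ((s ^ ((Fintype.card ι : ℝ) / 2 - 1) * Real.exp (-s) : ℝ) : ℂ)) := by
    intro s hs
    have hs' : 0 < s := hs
    have h2 : ∀ x : Metric.sphere (0 : EuclideanSpace ℝ ι) 1,
        u t (Real.sqrt (2 * s) • (x : EuclideanSpace ℝ ι)) = u ((2 * t * s : ℝ) : ℂ) x := by
      intro x
      rw [h.scale, ← Complex.ofReal_pow, Real.sq_sqrt (by positivity), ← Complex.ofReal_mul]
      congr 2
      ring
    simp only [h2]
    unfold f1_g
    field_simp
  rw [setIntegral_congr_fun measurableSet_Ioi h1, integral_const_mul, Complex.ofReal_mul,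
    mul_inv]
  field_simp

end hol

theorem Fam.sphere {ι : Type} [Fintype ι] [Nonempty ι] {c : ℝ}
    {u : ℂ → EuclideanSpace ℝ ι → ℂ} {p : ℕ → EuclideanSpace ℝ ι → ℂ} (h : Fam c u p) :
    ∃ g : ℂ → ℂ, DifferentiableOn ℂ g (slit c) ∧
      (∀ t : ℂ, ‖t‖ < c → HasSum
        (fun k => ((∫ x, p k x ∂(ga ι)) / (Kf (Fintype.card ι) k : ℂ)) * t ^ k) (g t)) ∧
      ∀ t : ℝ, 0 ≤ t → ∫ x, u t x ∂(ga ι) =
        (Real.Gamma ((Fintype.card ι : ℝ) / 2) : ℂ)⁻¹ * ∫ s in Set.Ioi (0 : ℝ),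
          g ((2 * t * s : ℝ) : ℂ) * ((s ^ ((Fintype.card ι : ℝ) / 2 - 1) * Real.exp (-s) : ℝ) : ℂ)
      :=
  ⟨f1_g u, f1_diff h, fun _ ht => f1_hasSum h ht, fun _ ht => f1_formula h ht⟩

end Pool.Agent.OHT
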