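import Pool.Agent.OHT.Defs2
import Pool.Agent.OHT.F1
import Pool.Agent.OHT.F0

set_option autoImplicit false

open PowerSeries Finset MeasureTheory

namespace Pool.Agent.OHT

variable {V : Type} [Fintype V] [DecidableEq V]

private theorem f1c_zero {c : ℝ} (hc : 0 < c) {g : ℂ → ℂ} (hg : DifferentiableOn ℂ g (slit c))
    (hs : ∀ t : ℂ, ‖t‖ < c → g t = 0) {t : ℝ} (ht : 0 ≤ t) : g t = 0 := by
  set H : Set ℂ := {z : ℂ | -c < z.re} with hH
  have hopen : IsOpen H := isOpen_lt continuous_const Complex.continuous_re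
  have hconv : Convex ℝ H := convex_halfSpace_re_gt (-c)
  have hsub : H ⊆ slit c := fun z hz => Or.inr hz
  have hana : AnalyticOnNhd ℂ g H := (hg.mono hsub).analyticOnNhd hopen
  have h0 : (0 : ℂ) ∈ H := by
    simp only [hH, Set.mem_setOf_eq, Complex.zero_re]
    linarith
  have hev : g =ᶠ[nhds 0] 0 := by
    filter_upwards [Metric.ball_mem_nhds (0 : ℂ) hc] with z hz
    rw [mem_ball_zero_iff] at hz
    exact hs z hz
  have hmem : (t : ℂ) ∈ H := by
    simp only [hH, Set.mem_setOf_eq, Complex.ofReal_re]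
    linarith
  exact hana.eqOn_zero_of_preconnected_of_eventuallyEq_zero hconv.isPreconnected h0 hev hmem

theorem Fam.borel {ι : Type} [Fintype ι] [Nonempty ι] {c : ℝ}
    {u : ℂ → EuclideanSpace ℝ ι → ℂ} {p : ℕ → EuclideanSpace ℝ ι → ℂ} (h : Fam c u p)
    (hmom : ∀ k, ∫ x, p k x ∂(ga ι) = 0) {t : ℝ} (ht : 0 ≤ t) :
    ∫ x, u t x ∂(ga ι) = 0 := by
  obtain ⟨g, hg, hsum, hint⟩ := h.sphere
  have hg0 : ∀ t : ℂ, ‖t‖ < c → g t = 0 := by
    intro t ht
    have h1 := hsum t ht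
    simp only [hmom, zero_div, zero_mul] at h1
    exact h1.unique hasSum_zero
  rw [hint t ht]
  have h2 : ∫ s in Set.Ioi (0 : ℝ), g ((2 * t * s : ℝ) : ℂ) *
      ((s ^ ((Fintype.card ι : ℝ) / 2 - 1) * Real.exp (-s) : ℝ) : ℂ) = 0 := by
    rw [setIntegral_congr_fun (g := fun _ => (0 : ℂ)) measurableSet_Ioi]
    · simp
    · intro s hs
      have hs' : 0 < s := hs
      simp only
      rw [f1c_zero h.pos hg hg0 (t := 2 * t * s) (by positivity), zero_mul]
  rw [h2, mul_zero]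

end Pool.Agent.OHT
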