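import Pool.Agent.OHT.Defs2
import Pool.Agent.OHT.B5
import Pool.Agent.OHT.B6
import Pool.Agent.OHT.C1
import Pool.Agent.OHT.F0

set_option autoImplicit false
set_option linter.unusedSectionVars false

open PowerSeries Finset MeasureTheory

namespace Pool.Agent.OHT

variable {V : Type} [Fintype V] [DecidableEq V]

private theorem f2a_prod (s : Finset V) (a : V → ℕ → ℂ) (A : V → ℂ)
    (h : ∀ v ∈ s, HasSum (a v) (A v)) :
    HasSum (fun k => ∑ j ∈ s.piAntidiag k, ∏ v ∈ s, a v (j v)) (∏ v ∈ s, A v) := by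
  induction s using Finset.cons_induction with
  | empty =>
    rw [Finset.prod_empty]
    have h0 : (fun k => ∑ j ∈ (∅ : Finset V).piAntidiag k, ∏ v ∈ (∅ : Finset V), a v (j v)) =
        fun k => if k = 0 then (1 : ℂ) else 0 := by
      funext k
      rw [piAntidiag_empty]
      by_cases hk : k = 0
      · simp [hk]
      · simp [hk]
    rw [h0]
    exact hasSum_ite_eq 0 1
  | cons i s hi ih =>
    have ih' := ih fun v hv => h v (mem_cons_of_mem hv)
    have hi' := h i (mem_cons_self i s)
    rw [Finset.prod_cons]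
    have h1 : (fun k => ∑ j ∈ (cons i s hi).piAntidiag k, ∏ v ∈ cons i s hi, a v (j v)) =
        fun k => ∑ p ∈ antidiagonal k, a i p.1 * ∑ j ∈ s.piAntidiag p.2, ∏ v ∈ s, a v (j v) := by
      funext k
      rw [piAntidiag_cons hi, sum_disjiUnion]
      refine sum_congr rfl fun p _ => ?_
      rw [sum_map, mul_sum]
      refine sum_congr rfl fun t ht => ?_
      rw [prod_cons]
      have hti : t i = 0 := by
        by_contra hne
        exact hi ((mem_piAntidiag.1 ht).2 i hne)
      congr 1
      · simp [addRightEmbedding, hti]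
      · refine prod_congr rfl fun v hv => ?_
        have hvi : v ≠ i := by
          rintro rfl
          exact hi hv
        simp [addRightEmbedding, hvi]
    rw [h1]
    have n1 : Summable fun x => ‖a i x‖ := hi'.summable.norm
    have n2 : Summable fun k => ‖∑ j ∈ s.piAntidiag k, ∏ v ∈ s, a v (j v)‖ := ih'.summable.norm
    have h2 := (summable_norm_sum_mul_antidiagonal_of_summable_norm n1 n2).of_norm.hasSum
    rw [← tsum_mul_tsum_eq_tsum_sum_antidiagonal_of_summable_norm n1 n2, hi'.tsum_eq,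
      ih'.tsum_eq] at h2
    exact h2

private theorem f2a_nsq_nonneg (v : V) (x : Sp V) : 0 ≤ nsq v x :=
  sum_nonneg fun _ _ => sq_nonneg _

private theorem f2a_nsq_le (v : V) (x : Sp V) : nsq v x ≤ ‖x‖ ^ 2 := by
  rw [EuclideanSpace.real_norm_sq_eq, nsq, Fintype.sum_prod_type]
  exact single_le_sum (f := fun v => ∑ i, x (v, i) ^ 2)
    (fun _ _ => sum_nonneg fun _ _ => sq_nonneg _) (mem_univ v)

private theorem f2a_nsq_smul (v : V) (s : ℝ) (x : Sp V) : nsq v (s • x) = s ^ 2 * nsq v x := by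
  simp only [nsq, PiLp.smul_apply, smul_eq_mul, mul_pow, mul_sum]

private theorem f2a_nsq_cont (v : V) : Continuous (nsq v) := by
  unfold nsq
  fun_prop

private theorem f2a_cont_Ec (k : ℕ) : Continuous (Ec k) := (differentiable_Ec k).continuous

private theorem f2a_nodeC_cont (D : Data V) (v : V) :
    ContinuousOn (nodeC D v) (slit (4 * Real.pi ^ 2)) := by
  unfold nodeC
  refine ContinuousOn.mul ?_ ?_
  · exact (continuous_finsetProd _ fun k _ => f2a_cont_Ec k).continuousOn
  · exact ((f2a_cont_Ec 1).continuousOn.inv₀ fun z hz => Ec_one_ne_zero hz).pow _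

private theorem f2a_nodeC_diff (D : Data V) (v : V) :
    DifferentiableOn ℂ (nodeC D v) (slit (4 * Real.pi ^ 2)) := by
  unfold nodeC
  refine DifferentiableOn.mul ?_ ?_
  · exact DifferentiableOn.fun_finsetProd fun k _ => (differentiable_Ec k).differentiableOn
  · exact ((differentiable_Ec 1).differentiableOn.inv fun z hz => Ec_one_ne_zero hz).pow _

private theorem f2a_slit {M N : ℝ} (hN : 0 ≤ N) (hNM : N ≤ M) {t : ℂ}
    (ht : t ∈ slit (4 * Real.pi ^ 2 / (M + 1))) : t * (N : ℂ) ∈ slit (4 * Real.pi ^ 2) := by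
  have hp : 0 < 4 * Real.pi ^ 2 := by positivity
  have hM : 0 ≤ M := hN.trans hNM
  simp only [slit, Set.mem_setOf_eq, Complex.mul_im, Complex.ofReal_re, Complex.ofReal_im,
    Complex.mul_re, mul_zero, zero_add, sub_zero] at ht ⊢
  rcases hN.eq_or_lt with h0 | h0
  · right
    rw [← h0, mul_zero]
    linarith
  · rcases ht with ht | ht
    · left
      exact mul_ne_zero ht h0.ne'
    · right
      by_cases hre : 0 ≤ t.re
      · have := mul_nonneg hre hN
        linarith
      · push Not at hre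
        have h1 : t.re * M ≤ t.re * N := mul_le_mul_of_nonpos_left hNM hre.le
        have h2 : -(4 * Real.pi ^ 2 / (M + 1)) * M ≤ t.re * M :=
          mul_le_mul_of_nonneg_right ht.le hM
        have h3 : 4 * Real.pi ^ 2 / (M + 1) * M < 4 * Real.pi ^ 2 := by
          rw [div_mul_eq_mul_div, div_lt_iff₀ (by linarith)]
          nlinarith
        nlinarith

private theorem f2a_growth (D : Data V) (h : D.IsSplice) (v : V) {y : ℝ} (hy : 0 ≤ y) :
    ‖nodeC D v (y : ℂ)‖ ≤
      Real.exp ((((D.val v - 2 : ℕ) : ℝ) + ∑ k ∈ D.leaf v, (1 / k : ℝ)) * Real.sqrt y) := by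
  have h1 := nodeC_le D v (fun k hk => (by have := h.two_le v k hk; omega)) (Real.sqrt_nonneg y)
  rw [Real.sq_sqrt hy] at h1
  refine h1.trans ?_
  set r := Real.sqrt y with hr
  have hr0 : 0 ≤ r := Real.sqrt_nonneg y
  set m : ℕ := D.val v - 2 with hm
  set S : ℝ := ∑ k ∈ D.leaf v, (1 / k : ℝ) with hS
  have hS0 : 0 ≤ S := sum_nonneg fun k _ => by positivity
  have h2 : (1 + r) ^ m ≤ Real.exp (m * r) := by
    rw [Real.exp_nat_mul]
    refine pow_le_pow_left₀ (by linarith) ?_ m
    rw [add_comm]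
    exact Real.add_one_le_exp r
  calc (1 + r) ^ m * Real.exp ((S - (m : ℝ)) * r / 2)
      ≤ Real.exp (m * r) * Real.exp (S * r) := by
        refine mul_le_mul h2 (Real.exp_le_exp.2 ?_) (Real.exp_nonneg _) (Real.exp_nonneg _)
        have : 0 ≤ (m : ℝ) * r := by positivity
        have : 0 ≤ S * r := by positivity
        nlinarith
    _ = Real.exp ((m + S) * r) := by rw [← Real.exp_add]; ring_nf

theorem fam_node {D : Data V} (h : D.IsSplice) :
    ∃ (c : ℝ) (u : ℂ → Sp V → ℂ) (p : ℕ → Sp V → ℂ), Fam c u p ∧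
      (∀ k, ∫ x, p k x ∂(ga (V × Fin 3)) = ((coeff k (part D) : ℝ) : ℂ)) ∧
      ∀ t : ℝ, 0 ≤ t → ∫ x, u t x ∂(ga (V × Fin 3)) = fn D t := by
  obtain ⟨T, hT⟩ := integral_cov h
  set L : Sp V →L[ℝ] Sp V := (T : Sp V →L[ℝ] Sp V) with hL
  have hLT : ∀ x, L x = T x := fun x => rfl
  have hN0 : ∀ v x, 0 ≤ nsq v (T x) := fun v x => f2a_nsq_nonneg v _
  have hNle : ∀ v, ∀ x ∈ Metric.closedBall (0 : Sp V) 1, nsq v (T x) ≤ ‖L‖ ^ 2 := by
    intro v x hx
    refine (f2a_nsq_le v _).trans ?_
    rw [← hLT]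
    refine pow_le_pow_left₀ (norm_nonneg _) ?_ 2
    have h1 := L.le_opNorm x
    have h2 : ‖x‖ ≤ 1 := by simpa using hx
    calc ‖L x‖ ≤ ‖L‖ * ‖x‖ := h1
      _ ≤ ‖L‖ * 1 := mul_le_mul_of_nonneg_left h2 (norm_nonneg _)
      _ = ‖L‖ := mul_one _
  have hNcont : ∀ v, Continuous fun x => nsq v (T x) := fun v =>
    (f2a_nsq_cont v).comp T.continuous
  have hme : MeasurableEmbedding (T : Sp V → Sp V) := T.toHomeomorph.measurableEmbedding
  have hcpos : 0 < 4 * Real.pi ^ 2 / (‖L‖ ^ 2 + 1) := by positivity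
  -- integrability of the monomials
  have hint : ∀ j : V → ℕ, Integrable (fun x => ∏ v, (nsq v (T x)) ^ (j v))
      (ga (V × Fin 3)) := by
    intro j
    have hm : MemLp id ((2 * ∑ v, j v : ℕ) : ENNReal) (ga (V × Fin 3)) :=
      ProbabilityTheory.IsGaussian.memLp_id _ _ (ENNReal.natCast_ne_top _)
    have hi : Integrable (fun x : Sp V => ‖x‖ ^ (2 * ∑ v, j v)) (ga (V × Fin 3)) := by
      have := hm.integrable_norm_pow'
      simpa using this
    refine Integrable.mono' (hi.const_mul (‖L‖ ^ (2 * ∑ v, j v))) ?_ ?_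
    · exact (continuous_finsetProd _ fun v _ => (hNcont v).pow (j v)).aestronglyMeasurable
    · refine Filter.Eventually.of_forall fun x => ?_
      rw [Real.norm_of_nonneg (prod_nonneg fun v _ => pow_nonneg (hN0 v x) _), ← mul_pow,
        pow_mul, ← Finset.prod_pow_eq_pow_sum]
      refine prod_le_prod (fun v _ => pow_nonneg (hN0 v x) _) fun v _ => ?_
      refine pow_le_pow_left₀ (hN0 v x) ?_ _
      refine (f2a_nsq_le v _).trans ?_
      rw [← hLT]
      exact pow_le_pow_left₀ (norm_nonneg _) (L.le_opNorm x) 2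
  refine ⟨4 * Real.pi ^ 2 / (‖L‖ ^ 2 + 1), fun t x => ∏ v, nodeC D v (t * (nsq v (T x) : ℝ)),
    fun k x => ∑ j ∈ (univ : Finset V).piAntidiag k,
      (∏ v, ((coeff (j v) (node D v) : ℝ) : ℂ)) * ((∏ v, (nsq v (T x)) ^ (j v) : ℝ) : ℂ),
    ?_, ?_, ?_⟩
  · refine ⟨hcpos, ?_, ?_, ?_, ?_, ?_, ?_, ?_⟩
    · intro s t x
      refine prod_congr rfl fun v _ => ?_
      rw [map_smul, f2a_nsq_smul]
      push_cast
      ring_nf
    · refine continuousOn_finsetProd _ fun v _ => ?_
      refine (f2a_nodeC_cont D v).comp ?_ ?_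
      · exact (continuous_fst.mul (Complex.continuous_ofReal.comp
          ((hNcont v).comp continuous_snd))).continuousOn
      · rintro ⟨t, x⟩ ⟨ht, hx⟩
        exact f2a_slit (hN0 v x) (hNle v x hx) ht
    · intro x hx
      refine DifferentiableOn.fun_finsetProd fun v _ => ?_
      refine (f2a_nodeC_diff D v).comp ?_ ?_
      · exact (differentiable_id.mul_const _).differentiableOn
      · intro t ht
        exact f2a_slit (hN0 v x) (hNle v x hx) ht
    · set C0 : ℝ := ∑ v, (((D.val v - 2 : ℕ) : ℝ) + ∑ k ∈ D.leaf v, (1 / k : ℝ)) * ‖L‖ with hC0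
      have hC0' : 0 ≤ C0 := sum_nonneg fun v _ =>
        mul_nonneg (add_nonneg (Nat.cast_nonneg _) (sum_nonneg fun k _ => by positivity))
          (norm_nonneg _)
      refine ⟨C0 + 1, fun t ht x hx => ?_⟩
      have h1 : ‖∏ v, nodeC D v ((t : ℂ) * (nsq v (T x) : ℝ))‖ ≤
          Real.exp (C0 * Real.sqrt t) := by
        rw [norm_prod, hC0, sum_mul, Real.exp_sum]
        refine prod_le_prod (fun v _ => norm_nonneg _) fun v _ => ?_
        rw [← Complex.ofReal_mul]
        refine (f2a_growth D h v (mul_nonneg ht (hN0 v x))).trans (Real.exp_le_exp.2 ?_)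
        rw [mul_assoc]
        refine mul_le_mul_of_nonneg_left ?_
          (add_nonneg (Nat.cast_nonneg _) (sum_nonneg fun k _ => by positivity))
        rw [Real.sqrt_le_left (by positivity), mul_pow, Real.sq_sqrt ht, mul_comm]
        exact mul_le_mul_of_nonneg_right (hNle v x hx) ht
      refine h1.trans ?_
      have h2 : Real.exp (C0 * Real.sqrt t) ≤ Real.exp ((C0 + 1) * Real.sqrt t) :=
        Real.exp_le_exp.2 (mul_le_mul_of_nonneg_right (by linarith) (Real.sqrt_nonneg t))
      refine h2.trans ?_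
      exact le_mul_of_one_le_left (Real.exp_nonneg _) (by linarith)
    · intro k s x
      rw [mul_sum]
      refine sum_congr rfl fun j hj => ?_
      have hsum : ∑ v, j v = k := (mem_piAntidiag.1 hj).1
      have e : ∏ v, (nsq v (T (s • x))) ^ (j v) = s ^ (2 * k) * ∏ v, (nsq v (T x)) ^ (j v) := by
        rw [← hsum, pow_mul, ← Finset.prod_pow_eq_pow_sum, ← prod_mul_distrib]
        refine prod_congr rfl fun v _ => ?_
        rw [map_smul, f2a_nsq_smul, mul_pow]
      rw [e]
      push_cast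
      ring
    · intro k
      refine continuous_finsetSum _ fun j _ => continuous_const.mul ?_
      exact Complex.continuous_ofReal.comp
        (continuous_finsetProd _ fun v _ => (hNcont v).pow (j v))
    · intro x hx t ht
      have hlt : ∀ v, ‖t * ((nsq v (T x) : ℝ) : ℂ)‖ < 4 * Real.pi ^ 2 := by
        intro v
        rw [norm_mul, Complex.norm_real, Real.norm_of_nonneg (hN0 v x)]
        have h1 : ‖t‖ * nsq v (T x) ≤ ‖t‖ * ‖L‖ ^ 2 :=
          mul_le_mul_of_nonneg_left (hNle v x hx) (norm_nonneg _)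
        have h2 : ‖t‖ * (‖L‖ ^ 2 + 1) < 4 * Real.pi ^ 2 := by
          rwa [lt_div_iff₀ (by positivity)] at ht
        have h3 := norm_nonneg t
        nlinarith
      have h1 := f2a_prod (univ : Finset V)
        (fun v j => ((coeff j (node D v) : ℝ) : ℂ) * (t * ((nsq v (T x) : ℝ) : ℂ)) ^ j)
        (fun v => nodeC D v (t * ((nsq v (T x) : ℝ) : ℂ)))
        (fun v _ => nodeC_hasSum h v (hlt v))
      have hfun : (fun k => t ^ k * ∑ j ∈ (univ : Finset V).piAntidiag k,
          (∏ v, ((coeff (j v) (node D v) : ℝ) : ℂ)) *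
            ((∏ v, (nsq v (T x)) ^ (j v) : ℝ) : ℂ)) =
          fun k => ∑ j ∈ (univ : Finset V).piAntidiag k,
            ∏ v, ((coeff (j v) (node D v) : ℝ) : ℂ) * (t * ((nsq v (T x) : ℝ) : ℂ)) ^ (j v) := by
        funext k
        rw [mul_sum]
        refine sum_congr rfl fun j hj => ?_
        have hsum : ∑ v, j v = k := (mem_piAntidiag.1 hj).1
        rw [prod_mul_distrib]
        have e : ∏ v, (t * ((nsq v (T x) : ℝ) : ℂ)) ^ (j v) =
            t ^ k * ((∏ v, (nsq v (T x)) ^ (j v) : ℝ) : ℂ) := by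
          rw [← hsum, ← Finset.prod_pow_eq_pow_sum]
          push_cast
          rw [← prod_mul_distrib]
          refine prod_congr rfl fun v _ => ?_
          rw [mul_pow]
        rw [e]
        ring
      rw [hfun]
      exact h1
  · intro k
    rw [integral_finsetSum]
    · rw [part, coeff_mk, Complex.ofReal_sum]
      refine sum_congr rfl fun j _ => ?_
      rw [integral_const_mul, integral_complex_ofReal, Complex.ofReal_mul, Complex.ofReal_prod]
      congr 2
      rw [moment, hT, hme.integral_map]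
      rfl
    · intro j _
      exact (hint j).ofReal.const_mul _
  · intro t ht
    rw [fn, hT, hme.integral_map]

end Pool.Agent.OHT
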