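import Pool.Agent.OHT.Defs2
import Pool.Agent.OHT.F0

set_option autoImplicit false

open PowerSeries Finset MeasureTheory

namespace Pool.Agent.OHT

variable {V : Type} [Fintype V] [DecidableEq V]

/-! ### the entire function `Cc` -/

private theorem f2b_hasSum (z : ℂ) : HasSum (fun m : ℕ => z ^ m / ((2 * m).factorial : ℂ)) (Cc z) := by
  obtain ⟨w, hw⟩ := IsAlgClosed.exists_pow_nat_eq z (n := 2) (by norm_num)
  have h := Complex.hasSum_cosh w
  have e : (fun m : ℕ => z ^ m / ((2 * m).factorial : ℂ)) =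
      fun m : ℕ => w ^ (2 * m) / ((2 * m).factorial : ℂ) := by
    funext m
    rw [← hw, ← pow_mul]
  rw [← e] at h
  exact h.summable.hasSum

private theorem f2b_cosh (w : ℂ) : Cc (w ^ 2) = Complex.cosh w := by
  have h := Complex.hasSum_cosh w
  have e : (fun m : ℕ => (w ^ 2) ^ m / ((2 * m).factorial : ℂ)) =
      fun m : ℕ => w ^ (2 * m) / ((2 * m).factorial : ℂ) := by
    funext m
    rw [← pow_mul]
  have h2 := f2b_hasSum (w ^ 2)
  rw [e] at h2
  exact h2.unique h

private theorem f2b_diff : Differentiable ℂ Cc := by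
  intro z
  have hd : DifferentiableOn ℂ (fun w => ∑' m : ℕ, w ^ m / ((2 * m).factorial : ℂ))
      (Metric.ball 0 (‖z‖ + 1)) := by
    refine Complex.differentiableOn_tsum_of_summable_norm
      (u := fun m : ℕ => (‖z‖ + 1) ^ m / ((2 * m).factorial : ℝ)) ?_ ?_ Metric.isOpen_ball ?_
    · have := (f2b_hasSum ((‖z‖ + 1 : ℝ) : ℂ)).summable.norm
      refine this.congr fun m => ?_
      rw [norm_div, norm_pow, Complex.norm_real, Complex.norm_natCast, Real.norm_of_nonneg
        (by positivity)]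
    · intro m
      exact ((differentiable_id.pow m).div_const _).differentiableOn
    · intro m w hw
      rw [norm_div, norm_pow, Complex.norm_natCast]
      have : ‖w‖ ≤ ‖z‖ + 1 := by
        have := Metric.mem_ball.mp hw
        rw [dist_zero_right] at this
        exact this.le
      gcongr
  exact (hd.differentiableAt (Metric.isOpen_ball.mem_nhds (by
    rw [Metric.mem_ball, dist_zero_right]; linarith)))

private theorem f2b_norm (z : ℂ) : ‖Cc z‖ ≤ Real.exp (Real.sqrt ‖z‖) := by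
  have h1 : ‖Cc z‖ ≤ ∑' m : ℕ, ‖z‖ ^ m / ((2 * m).factorial : ℝ) := by
    have hs := (f2b_hasSum z).summable.norm
    have := norm_tsum_le_tsum_norm hs
    refine this.trans (le_of_eq ?_)
    refine tsum_congr fun m => ?_
    rw [norm_div, norm_pow, Complex.norm_natCast]
  have h2 : HasSum (fun m : ℕ => ‖z‖ ^ m / ((2 * m).factorial : ℝ))
      (Real.cosh (Real.sqrt ‖z‖)) := by
    have := Real.hasSum_cosh (Real.sqrt ‖z‖)
    have e : (fun m : ℕ => ‖z‖ ^ m / ((2 * m).factorial : ℝ)) =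
        fun m : ℕ => (Real.sqrt ‖z‖) ^ (2 * m) / ((2 * m).factorial : ℝ) := by
      funext m
      rw [pow_mul, Real.sq_sqrt (norm_nonneg z)]
    rw [e]
    exact this
  rw [h2.tsum_eq] at h1
  refine h1.trans ?_
  rw [Real.cosh_eq]
  have h3 : Real.exp (-Real.sqrt ‖z‖) ≤ Real.exp (Real.sqrt ‖z‖) :=
    Real.exp_le_exp.mpr (by have := Real.sqrt_nonneg ‖z‖; linarith)
  linarith

/-! ### one-dimensional Gaussian integrals -/

private theorem f2b_int (g : ℝ → ℂ) :
    ∫ x, g (x ()) ∂(ga Unit) = ∫ y, g y ∂(ProbabilityTheory.gaussianReal 0 1) := by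
  show ∫ x, g (x ()) ∂(ProbabilityTheory.stdGaussian (EuclideanSpace ℝ Unit)) = _
  rw [← ProbabilityTheory.map_pi_eq_stdGaussian]
  have h1 := (MeasurableEquiv.toLp 2 (Unit → ℝ)).measurableEmbedding.integral_map
    (μ := Measure.pi (fun _ : Unit => ProbabilityTheory.gaussianReal 0 1))
    (fun x : EuclideanSpace ℝ Unit => g (x ()))
  rw [show (⇑(MeasurableEquiv.toLp 2 (Unit → ℝ))) = (WithLp.toLp 2) from rfl] at h1
  rw [h1]
  have h2 := (measurePreserving_funUnique (ProbabilityTheory.gaussianReal 0 1) Unit).integral_comp'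
    g
  rw [← h2]
  rfl

private theorem f2b_moment (k : ℕ) :
    ∫ y, y ^ (2 * k) ∂(ProbabilityTheory.gaussianReal 0 1) =
      ((2 * k).factorial : ℝ) / (2 ^ k * k.factorial) := by
  rw [ProbabilityTheory.integral_gaussianReal_eq_integral_smul one_ne_zero]
  have e1 : ∀ x : ℝ, ProbabilityTheory.gaussianPDFReal 0 1 x • x ^ (2 * k) =
      (Real.sqrt (2 * Real.pi))⁻¹ * ((fun y : ℝ => y ^ (2 * k) * Real.exp (-(1 / 2) * y ^ 2)) |x|) := by
    intro x
    rw [ProbabilityTheory.gaussianPDFReal_def]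
    simp only [smul_eq_mul, NNReal.coe_one, mul_one, sub_zero]
    rw [pow_mul |x|, sq_abs, ← pow_mul, show -x ^ 2 / 2 = -(1 / 2) * x ^ 2 by ring]
    ring
  simp_rw [e1]
  have e0 := integral_comp_abs (f := fun y : ℝ => y ^ (2 * k) * Real.exp (-(1 / 2) * y ^ 2))
  rw [integral_const_mul, e0]
  have e2 : ∫ x in Set.Ioi (0 : ℝ), x ^ (2 * k) * Real.exp (-(1 / 2) * x ^ 2) =
      ∫ x in Set.Ioi (0 : ℝ), x ^ ((2 * k : ℕ) : ℝ) * Real.exp (-(1 / 2) * x ^ (2 : ℝ)) := by
    refine setIntegral_congr_fun measurableSet_Ioi fun x _ => ?_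
    rw [Real.rpow_natCast, Real.rpow_two]
  rw [e2, integral_rpow_mul_exp_neg_mul_rpow (by norm_num)
    (by have : (0 : ℝ) ≤ ((2 * k : ℕ) : ℝ) := Nat.cast_nonneg _
        linarith) (by norm_num)]
  have e3 : (((2 * k : ℕ) : ℝ) + 1) / 2 = k + 1 / 2 := by push_cast; ring
  have e4 : -(((2 * k : ℕ) : ℝ) + 1) / 2 = -(k + 1 / 2 : ℝ) := by push_cast; ring
  rw [e3, e4, Real.Gamma_nat_add_half]
  have e5 : ((1 : ℝ) / 2) ^ (-(k + 1 / 2 : ℝ)) = 2 ^ k * Real.sqrt 2 := by
    rw [one_div, Real.inv_rpow (by norm_num), Real.rpow_neg (by norm_num), inv_inv,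
      Real.rpow_add (by norm_num), Real.rpow_natCast, Real.sqrt_eq_rpow, one_div]
  have e6 : Real.sqrt (2 * Real.pi) = Real.sqrt 2 * Real.sqrt Real.pi :=
    Real.sqrt_mul (by norm_num) _
  have h2 : Real.sqrt 2 ≠ 0 := by positivity
  have hp : Real.sqrt Real.pi ≠ 0 := by positivity
  have e7 : ((2 * k).factorial : ℝ) = 2 ^ k * k.factorial * ((2 * k - 1).doubleFactorial : ℝ) := by
    rcases Nat.eq_zero_or_pos k with hk | hk
    · subst hk; simp
    · have h := Nat.factorial_eq_mul_doubleFactorial (2 * k - 1)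
      rw [show 2 * k - 1 + 1 = 2 * k by omega, Nat.doubleFactorial_two_mul] at h
      exact_mod_cast h
  rw [e5, e6, e7]
  have h8 : (2 : ℝ) ^ k ≠ 0 := by positivity
  have h9 : (k.factorial : ℝ) ≠ 0 := by positivity
  field_simp

private theorem f2b_exp (a : ℝ) :
    ∫ y, Real.cosh (a * y) ∂(ProbabilityTheory.gaussianReal 0 1) = Real.exp (a ^ 2 / 2) := by
  have h1 := ProbabilityTheory.mgf_gaussianReal (p := ProbabilityTheory.gaussianReal 0 1)
    (μ := 0) (v := 1) (X := fun x => x) (by simp) a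
  have h2 := ProbabilityTheory.mgf_gaussianReal (p := ProbabilityTheory.gaussianReal 0 1)
    (μ := 0) (v := 1) (X := fun x => x) (by simp) (-a)
  unfold ProbabilityTheory.mgf at h1 h2
  simp only [Real.cosh_eq]
  rw [integral_div, integral_add (ProbabilityTheory.integrable_exp_mul_gaussianReal a)
    (by simpa [neg_mul] using ProbabilityTheory.integrable_exp_mul_gaussianReal (-a))]
  simp only [← neg_mul]
  rw [h1, h2]
  simp only [zero_mul, zero_add, NNReal.coe_one, one_mul, neg_sq]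
  ring

theorem fam_cosh {κ : ℝ} (hκ : 0 ≤ κ) :
    ∃ (c : ℝ) (u : ℂ → EuclideanSpace ℝ Unit → ℂ) (p : ℕ → EuclideanSpace ℝ Unit → ℂ), Fam c u p ∧
      (∀ k, ∫ x, p k x ∂(ga Unit) = ((coeff k (rescale κ (exp ℝ)) : ℝ) : ℂ)) ∧
      ∀ t : ℝ, 0 ≤ t → ∫ x, u t x ∂(ga Unit) = Complex.exp (κ * t) := by
  refine ⟨1, fun t x => Cc (2 * κ * t * ((x () : ℝ) : ℂ) ^ 2),
    fun k x => (2 * κ : ℂ) ^ k * ((x () : ℝ) : ℂ) ^ (2 * k) / ((2 * k).factorial : ℂ), ?_, ?_, ?_⟩
  · have hx : ∀ x : EuclideanSpace ℝ Unit, x ∈ Metric.closedBall (0 : EuclideanSpace ℝ Unit) 1 →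
        |x ()| ≤ 1 := by
      intro x hx
      rw [Metric.mem_closedBall, dist_zero_right] at hx
      exact (PiLp.norm_apply_le x ()).trans hx
    have hc : Continuous (fun x : EuclideanSpace ℝ Unit => ((x () : ℝ) : ℂ)) := by fun_prop
    refine ⟨one_pos, ?_, ?_, ?_, ?_, ?_, ?_, ?_⟩
    · intro s t x
      simp only [PiLp.smul_apply, smul_eq_mul, Complex.ofReal_mul]
      congr 1
      ring
    · refine Continuous.continuousOn ?_
      refine f2b_diff.continuous.comp ?_
      exact (continuous_const.mul continuous_fst).mul ((hc.comp continuous_snd).pow 2)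
    · intro x _
      refine Differentiable.differentiableOn ?_
      refine f2b_diff.comp ?_
      exact (differentiable_id.const_mul _).mul_const _
    · refine ⟨1 + Real.sqrt (2 * κ), fun t ht x hxm => ?_⟩
      have hk0 := Real.sqrt_nonneg (2 * κ)
      have ht0 := Real.sqrt_nonneg t
      refine (f2b_norm _).trans ?_
      have e1 : ‖2 * (κ : ℂ) * (t : ℂ) * ((x () : ℝ) : ℂ) ^ 2‖ ≤ 2 * κ * t := by
        rw [norm_mul, norm_mul, norm_mul, norm_pow, Complex.norm_real, Complex.norm_real,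
          Complex.norm_real, Complex.norm_ofNat, Real.norm_of_nonneg hκ, Real.norm_of_nonneg ht,
          Real.norm_eq_abs]
        have h1 : |x ()| ^ 2 ≤ 1 := pow_le_one₀ (abs_nonneg _) (hx x hxm)
        have h2 : 0 ≤ 2 * κ * t := by positivity
        calc 2 * κ * t * |x ()| ^ 2 ≤ 2 * κ * t * 1 := mul_le_mul_of_nonneg_left h1 h2
          _ = 2 * κ * t := mul_one _
      have e2 : Real.sqrt ‖2 * (κ : ℂ) * (t : ℂ) * ((x () : ℝ) : ℂ) ^ 2‖ ≤
          (1 + Real.sqrt (2 * κ)) * Real.sqrt t := by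
        refine (Real.sqrt_le_sqrt e1).trans ?_
        rw [Real.sqrt_mul (by positivity)]
        nlinarith
      have e3 := Real.exp_le_exp.mpr e2
      have e4 : 1 ≤ 1 + Real.sqrt (2 * κ) := by linarith
      calc Real.exp (Real.sqrt ‖2 * (κ : ℂ) * (t : ℂ) * ((x () : ℝ) : ℂ) ^ 2‖) ≤
          Real.exp ((1 + Real.sqrt (2 * κ)) * Real.sqrt t) := e3
        _ ≤ (1 + Real.sqrt (2 * κ)) * Real.exp ((1 + Real.sqrt (2 * κ)) * Real.sqrt t) :=
          le_mul_of_one_le_left (Real.exp_pos _).le e4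
    · intro k s x
      simp only [PiLp.smul_apply, smul_eq_mul, Complex.ofReal_mul]
      ring
    · intro k
      exact (continuous_const.mul (hc.pow _)).div_const _
    · intro x _ t _
      have h := f2b_hasSum (2 * κ * t * ((x () : ℝ) : ℂ) ^ 2)
      refine h.congr_fun ?_ 
      intro k
      simp only
      ring
  · intro k
    have h1 := f2b_int (fun y : ℝ => (2 * κ : ℂ) ^ k * (y : ℂ) ^ (2 * k) / ((2 * k).factorial : ℂ))
    rw [h1]
    have e : ∀ y : ℝ, (2 * κ : ℂ) ^ k * (y : ℂ) ^ (2 * k) / ((2 * k).factorial : ℂ) =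
        (((2 * κ) ^ k / ((2 * k).factorial : ℝ) * y ^ (2 * k) : ℝ) : ℂ) := by
      intro y
      push_cast
      ring
    simp_rw [e]
    rw [integral_complex_ofReal, integral_const_mul, f2b_moment]
    congr 1
    rw [coeff_rescale, coeff_exp]
    simp only [map_div₀, map_one, map_natCast]
    have h8 : (2 : ℝ) ^ k ≠ 0 := by positivity
    have h9 : (k.factorial : ℝ) ≠ 0 := by positivity
    have h10 : ((2 * k).factorial : ℝ) ≠ 0 := by positivity
    rw [mul_pow]
    field_simp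
  · intro t ht
    have h1 := f2b_int (fun y : ℝ => Cc (2 * κ * t * (y : ℂ) ^ 2))
    rw [h1]
    have e : ∀ y : ℝ, Cc (2 * κ * t * (y : ℂ) ^ 2) =
        ((Real.cosh (Real.sqrt (2 * κ * t) * y) : ℝ) : ℂ) := by
      intro y
      have h2 : (2 * κ * t * (y : ℂ) ^ 2) = ((Real.sqrt (2 * κ * t) * y : ℝ) : ℂ) ^ 2 := by
        have h3 : (Real.sqrt (2 * κ * t) * y) ^ 2 = 2 * κ * t * y ^ 2 := by
          rw [mul_pow, Real.sq_sqrt (by positivity)]
        rw [← Complex.ofReal_pow (Real.sqrt (2 * κ * t) * y) 2, h3]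
        push_cast
        ring
      rw [h2, f2b_cosh, Complex.ofReal_cosh]
    simp_rw [e]
    rw [integral_complex_ofReal, f2b_exp, Real.sq_sqrt (by positivity)]
    push_cast
    congr 1
    ring

end Pool.Agent.OHT
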