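import Pool.Agent.OHT.Defs2
import Pool.Agent.OHT.F0

set_option autoImplicit false

open PowerSeries Finset MeasureTheory

namespace Pool.Agent.OHT

variable {V : Type} [Fintype V] [DecidableEq V]

open WithLp in
/-- the projection on the first summand -/
private noncomputable def f2c_l (ι ι' : Type) :
    EuclideanSpace ℝ (ι ⊕ ι') →ₗ[ℝ] EuclideanSpace ℝ ι where
  toFun x := toLp 2 fun i => x (Sum.inl i)
  map_add' x y := by ext i; simp
  map_smul' s x := by ext i; simp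

open WithLp in
/-- the projection on the second summand -/
private noncomputable def f2c_r (ι ι' : Type) :
    EuclideanSpace ℝ (ι ⊕ ι') →ₗ[ℝ] EuclideanSpace ℝ ι' where
  toFun x := toLp 2 fun i => x (Sum.inr i)
  map_add' x y := by ext i; simp
  map_smul' s x := by ext i; simp

private theorem f2c_l_norm {ι ι' : Type} [Fintype ι] [Fintype ι']
    (x : EuclideanSpace ℝ (ι ⊕ ι')) : ‖f2c_l ι ι' x‖ ≤ ‖x‖ := by
  rw [EuclideanSpace.norm_eq, EuclideanSpace.norm_eq]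
  apply Real.sqrt_le_sqrt
  rw [Fintype.sum_sum_type]
  have : 0 ≤ ∑ i, ‖x (Sum.inr i)‖ ^ 2 := Finset.sum_nonneg fun i _ => by positivity
  have e : ∀ i, (f2c_l ι ι' x) i = x (Sum.inl i) := fun i => rfl
  simp only [e]
  linarith

private theorem f2c_r_norm {ι ι' : Type} [Fintype ι] [Fintype ι']
    (x : EuclideanSpace ℝ (ι ⊕ ι')) : ‖f2c_r ι ι' x‖ ≤ ‖x‖ := by
  rw [EuclideanSpace.norm_eq, EuclideanSpace.norm_eq]
  apply Real.sqrt_le_sqrt
  rw [Fintype.sum_sum_type]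
  have : 0 ≤ ∑ i, ‖x (Sum.inl i)‖ ^ 2 := Finset.sum_nonneg fun i _ => by positivity
  have e : ∀ i, (f2c_r ι ι' x) i = x (Sum.inr i) := fun i => rfl
  simp only [e]
  linarith

/-- the standard Gaussian measure as an image of the product measure -/
private theorem f2c_mp (ι : Type) [Fintype ι] :
    MeasurePreserving (MeasurableEquiv.toLp 2 (ι → ℝ))
      (Measure.pi fun _ : ι => ProbabilityTheory.gaussianReal 0 1) (ga ι) :=
  ⟨(MeasurableEquiv.toLp 2 (ι → ℝ)).measurable, ProbabilityTheory.map_pi_eq_stdGaussian⟩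

private noncomputable def f2c_e (ι ι' : Type) :
    (ι → ℝ) × (ι' → ℝ) ≃ᵐ EuclideanSpace ℝ (ι ⊕ ι') :=
  (MeasurableEquiv.sumPiEquivProdPi (fun _ : ι ⊕ ι' => ℝ)).symm.trans
    (MeasurableEquiv.toLp 2 (ι ⊕ ι' → ℝ))

private theorem f2c_mp2 (ι ι' : Type) [Fintype ι] [Fintype ι'] :
    MeasurePreserving (f2c_e ι ι')
      ((Measure.pi fun _ : ι => ProbabilityTheory.gaussianReal 0 1).prod
        (Measure.pi fun _ : ι' => ProbabilityTheory.gaussianReal 0 1)) (ga (ι ⊕ ι')) :=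
  (measurePreserving_sumPiEquivProdPi_symm (X := fun _ : ι ⊕ ι' => ℝ)
    (fun _ => ProbabilityTheory.gaussianReal 0 1)).trans (f2c_mp (ι ⊕ ι'))

private theorem f2c_int {ι ι' : Type} [Fintype ι] [Fintype ι']
    (f : EuclideanSpace ℝ ι → ℂ) (g : EuclideanSpace ℝ ι' → ℂ) :
    ∫ x, f (f2c_l ι ι' x) * g (f2c_r ι ι' x) ∂(ga (ι ⊕ ι')) =
      (∫ x, f x ∂(ga ι)) * ∫ x, g x ∂(ga ι') := by
  have h1 := (f2c_mp2 ι ι').integral_comp (f2c_e ι ι').measurableEmbedding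
    (fun x => f (f2c_l ι ι' x) * g (f2c_r ι ι' x))
  have h2 := (f2c_mp ι).integral_comp (MeasurableEquiv.measurableEmbedding _) f
  have h3 := (f2c_mp ι').integral_comp (MeasurableEquiv.measurableEmbedding _) g
  rw [← h1, ← h2, ← h3]
  exact integral_prod_mul (fun y : ι → ℝ => f (MeasurableEquiv.toLp 2 (ι → ℝ) y))
    (fun y : ι' → ℝ => g (MeasurableEquiv.toLp 2 (ι' → ℝ) y))

private theorem f2c_integrable {ι ι' : Type} [Fintype ι] [Fintype ι']
    {f : EuclideanSpace ℝ ι → ℂ} {g : EuclideanSpace ℝ ι' → ℂ}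
    (hf : Integrable f (ga ι)) (hg : Integrable g (ga ι')) :
    Integrable (fun x => f (f2c_l ι ι' x) * g (f2c_r ι ι' x)) (ga (ι ⊕ ι')) := by
  rw [← (f2c_mp2 ι ι').integrable_comp_emb (f2c_e ι ι').measurableEmbedding]
  rw [← (f2c_mp ι).integrable_comp_emb (MeasurableEquiv.measurableEmbedding _)] at hf
  rw [← (f2c_mp ι').integrable_comp_emb (MeasurableEquiv.measurableEmbedding _)] at hg
  exact hf.mul_prod hg

theorem Fam.prod {ι ι' : Type} [Fintype ι] [Fintype ι'] {c c' : ℝ}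
    {u : ℂ → EuclideanSpace ℝ ι → ℂ} {p : ℕ → EuclideanSpace ℝ ι → ℂ} (h : Fam c u p)
    {u' : ℂ → EuclideanSpace ℝ ι' → ℂ} {p' : ℕ → EuclideanSpace ℝ ι' → ℂ} (h' : Fam c' u' p') :
    ∃ (c'' : ℝ) (w : ℂ → EuclideanSpace ℝ (ι ⊕ ι') → ℂ) (q : ℕ → EuclideanSpace ℝ (ι ⊕ ι') → ℂ),
      Fam c'' w q ∧
      (∀ k, ∫ x, q k x ∂(ga (ι ⊕ ι')) = ∑ a ∈ antidiagonal k,
        (∫ x, p a.1 x ∂(ga ι)) * ∫ x, p' a.2 x ∂(ga ι')) ∧
      ∀ t : ℝ, 0 ≤ t → ∫ x, w t x ∂(ga (ι ⊕ ι')) =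
        (∫ x, u t x ∂(ga ι)) * ∫ x, u' t x ∂(ga ι') := by
  have hl := h.comp (f2c_l ι ι') f2c_l_norm
  have hr := h'.comp (f2c_r ι ι') f2c_r_norm
  refine ⟨_, _, _, hl.mul hr, ?_, ?_⟩
  · intro k
    have : ∀ a ∈ antidiagonal k, Integrable
        (fun x => p a.1 (f2c_l ι ι' x) * p' a.2 (f2c_r ι ι' x)) (ga (ι ⊕ ι')) :=
      fun a _ => f2c_integrable (h.integrable_p a.1) (h'.integrable_p a.2)
    rw [integral_finsetSum _ this]
    exact Finset.sum_congr rfl fun a _ => f2c_int (p a.1) (p' a.2)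
  · intro t _
    exact f2c_int (u t) (u' t)


end Pool.Agent.OHT
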