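import Pool.Agent.OHT.Defs2
import Pool.Agent.OHT.F2a
import Pool.Agent.OHT.F2b
import Pool.Agent.OHT.F2c

set_option autoImplicit false

open PowerSeries Finset MeasureTheory

namespace Pool.Agent.OHT

variable {V : Type} [Fintype V] [DecidableEq V]

theorem fam_exp {D : Data V} (h : D.IsSplice) {κ : ℝ} (hκ : 0 ≤ κ) :
    ∃ (c : ℝ) (u : ℂ → EuclideanSpace ℝ ((V × Fin 3) ⊕ Unit) → ℂ)
      (p : ℕ → EuclideanSpace ℝ ((V × Fin 3) ⊕ Unit) → ℂ), Fam c u p ∧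
      (∀ k, ∫ x, p k x ∂(ga ((V × Fin 3) ⊕ Unit)) =
        ((coeff k (rescale κ (exp ℝ) * part D) : ℝ) : ℂ)) ∧
      ∀ t : ℝ, 0 ≤ t → ∫ x, u t x ∂(ga ((V × Fin 3) ⊕ Unit)) =
        Complex.exp (κ * t) * fn D t := by
  obtain ⟨c, u, p, hF, hp, hu⟩ := fam_node h
  obtain ⟨c', u', p', hF', hp', hu'⟩ := fam_cosh hκ
  obtain ⟨c'', w, q, hW, hq, hw⟩ := hF.prod hF'
  refine ⟨c'', w, q, hW, fun k => ?_, fun t ht => ?_⟩
  · rw [hq k, mul_comm (rescale κ (exp ℝ)) (part D), coeff_mul]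
    push_cast
    refine sum_congr rfl fun a _ => ?_
    rw [hp, hp']
  · rw [hw t ht, hu t ht, hu' t ht, mul_comm]

end Pool.Agent.OHT
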