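import Pool.Agent.OHT.Defs2
import Pool.Agent.OHT.F2d
import Pool.Agent.OHT.F2c
import Pool.Agent.OHT.F1c
import Pool.Agent.OHT.F0

set_option autoImplicit false

open PowerSeries Finset MeasureTheory

namespace Pool.Agent.OHT

variable {V : Type} [Fintype V] [DecidableEq V]

/-- The constant family. -/
theorem fam_one (ι : Type) [Fintype ι] :
    Fam (ι := ι) 1 (fun _ _ => 1) (fun k _ => if k = 0 then 1 else 0) where
  pos := one_pos
  scale _ _ _ := rfl
  cont := continuousOn_const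
  diff _ _ := differentiableOn_const _
  growth := ⟨1, fun t _ x _ => by
    rw [norm_one, one_mul]
    exact Real.one_le_exp (by rw [one_mul]; exact Real.sqrt_nonneg t)⟩
  hom k s x := by
    rcases Nat.eq_zero_or_pos k with h | h
    · subst h
      simp
    · rw [if_neg h.ne', mul_zero]
  pcont _ := continuous_const
  ser x _ t _ := by
    have h1 : (fun k : ℕ => t ^ k * (if k = 0 then (1 : ℂ) else 0)) =
        fun k => if k = 0 then (1 : ℂ) else 0 := by
      funext k
      split_ifs with h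
      · rw [h, pow_zero, one_mul]
      · rw [mul_zero]
    rw [h1]
    exact hasSum_ite_eq 0 1

theorem int_one (ι : Type) [Fintype ι] (k : ℕ) :
    ∫ _ : EuclideanSpace ℝ ι, (if k = 0 then (1 : ℂ) else 0) ∂(ga ι) =
      if k = 0 then 1 else 0 := by
  rw [integral_const]
  simp

theorem sum_anti_left (f : ℕ → ℂ) (k : ℕ) :
    ∑ a ∈ antidiagonal k, f a.1 * (if a.2 = 0 then (1 : ℂ) else 0) = f k := by
  rw [sum_eq_single (k, 0)]
  · simp
  · rintro ⟨a, b⟩ hab hne
    rw [HasAntidiagonal.mem_antidiagonal] at hab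
    simp only at hab ⊢
    rw [if_neg, mul_zero]
    rintro rfl
    exact hne (by rw [← hab, add_zero])
  · intro h
    exact absurd (HasAntidiagonal.mem_antidiagonal.2 (by simp)) h

theorem sum_anti_right (f : ℕ → ℂ) (k : ℕ) :
    ∑ a ∈ antidiagonal k, (if a.1 = 0 then (1 : ℂ) else 0) * f a.2 = f k := by
  rw [sum_eq_single (0, k)]
  · simp
  · rintro ⟨a, b⟩ hab hne
    rw [HasAntidiagonal.mem_antidiagonal] at hab
    simp only at hab ⊢
    rw [if_neg, zero_mul]
    rintro rfl
    exact hne (by rw [← hab, zero_add])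
  · intro h
    exact absurd (HasAntidiagonal.mem_antidiagonal.2 (by simp)) h

theorem fn_eq {V' : Type} [Fintype V'] [DecidableEq V'] {D : Data V} (hD : D.IsSplice)
    {D' : Data V'} (hD' : D'.IsSplice) {κ : ℝ} (hκ : 0 ≤ κ)
    (he : rescale κ (exp ℝ) * part D = part D') {t : ℝ} (ht : 0 ≤ t) :
    Complex.exp (κ * t) * fn D t = fn D' t := by
  obtain ⟨c, u, p, hF, hp, hu⟩ := fam_exp hD hκ
  obtain ⟨c', u', p', hF', hp', hu'⟩ := fam_node hD'
  obtain ⟨d, w, q, hW, hq, hw⟩ := hF.prod (fam_one (V' × Fin 3))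
  obtain ⟨d', w', q', hW', hq', hw'⟩ := (fam_one ((V × Fin 3) ⊕ Unit)).prod hF'
  have hq1 : ∀ k, ∫ x, q k x ∂(ga (((V × Fin 3) ⊕ Unit) ⊕ (V' × Fin 3))) =
      ((coeff k (part D') : ℝ) : ℂ) := fun k => by
    rw [hq k]
    simp only [int_one, hp]
    rw [sum_anti_left (fun k => ((coeff k (rescale κ (exp ℝ) * part D) : ℝ) : ℂ)) k, he]
  have hq1' : ∀ k, ∫ x, q' k x ∂(ga (((V × Fin 3) ⊕ Unit) ⊕ (V' × Fin 3))) =
      ((coeff k (part D') : ℝ) : ℂ) := fun k => by
    rw [hq' k]
    simp only [int_one, hp']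
    rw [sum_anti_right (fun k => ((coeff k (part D') : ℝ) : ℂ)) k]
  have hmom : ∀ k, ∫ x, (q k x - q' k x) ∂(ga (((V × Fin 3) ⊕ Unit) ⊕ (V' × Fin 3))) = 0 :=
    fun k => by
      rw [integral_sub (hW.integrable_p k) (hW'.integrable_p k), hq1, hq1', sub_self]
  have hfin := (hW.sub hW').borel hmom ht
  rw [integral_sub (hW.integrable ht) (hW'.integrable ht), hw t ht, hw' t ht, hu t ht,
    hu' t ht] at hfin
  simpa using sub_eq_zero.1 hfin

end Pool.Agent.OHT
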