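import Pool.Agent.OHT.Defs2

set_option autoImplicit false

open PowerSeries Finset MeasureTheory

namespace Pool.Agent.OHT

variable {V : Type} [Fintype V] [DecidableEq V]

private noncomputable def g0_dens (ι : Type) [Fintype ι] (x : EuclideanSpace ℝ ι) : ℝ :=
  (2 * Real.pi) ^ (-(Fintype.card ι : ℝ) / 2) * Real.exp (-(1 / 2) * ‖x‖ ^ 2)

private lemma g0_dens_nonneg (ι : Type) [Fintype ι] (x : EuclideanSpace ℝ ι) :
    0 ≤ g0_dens ι x := by unfold g0_dens; positivity

private lemma g0_dens_cont (ι : Type) [Fintype ι] : Continuous (g0_dens ι) := by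
  unfold g0_dens; fun_prop

private lemma g0_dens_int (ι : Type) [Fintype ι] : Integrable (g0_dens ι) volume := by
  unfold g0_dens
  apply Integrable.const_mul
  have h := (GaussianFourier.integrable_cexp_neg_mul_sq_norm_add (V := EuclideanSpace ℝ ι)
    (b := (1 / 2 : ℂ)) (by norm_num) 0 0).norm
  refine h.congr (Filter.Eventually.of_forall fun x => ?_)
  simp only [zero_mul, add_zero, Complex.norm_exp]
  congr 1
  have : (-(1 / 2 : ℂ) * (‖x‖ : ℂ) ^ 2) = ((-(1 / 2) * ‖x‖ ^ 2 : ℝ) : ℂ) := by push_cast; ring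
  rw [this, Complex.ofReal_re]

private lemma g0_ga (ι : Type) [Fintype ι] :
    ga ι = volume.withDensity (fun x => ENNReal.ofReal (g0_dens ι x)) := by
  haveI : IsFiniteMeasure
      ((volume : Measure (EuclideanSpace ℝ ι)).withDensity fun x => ENNReal.ofReal (g0_dens ι x)) :=
    isFiniteMeasure_withDensity_ofReal (g0_dens_int ι).2
  apply Measure.ext_of_charFun
  funext t
  rw [ProbabilityTheory.charFun_stdGaussian, charFun_apply,
    integral_withDensity_eq_integral_toReal_smul
      (g0_dens_cont ι).measurable.ennreal_ofReal (by simp)]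
  have h := GaussianFourier.integral_cexp_neg_mul_sq_norm_add (V := EuclideanSpace ℝ ι)
    (b := (1 / 2 : ℂ)) (by norm_num) Complex.I t
  have hp : (0 : ℝ) < 2 * Real.pi := by positivity
  calc Complex.exp (-(‖t‖ : ℂ) ^ 2 / 2)
      = (((2 * Real.pi) ^ (-(Fintype.card ι : ℝ) / 2) : ℝ) : ℂ) *
        ((Real.pi / (1 / 2 : ℂ)) ^ (Module.finrank ℝ (EuclideanSpace ℝ ι) / 2 : ℂ) *
          Complex.exp (Complex.I ^ 2 * ‖t‖ ^ 2 / (4 * (1 / 2 : ℂ)))) := by
        have h1 : ((Real.pi : ℂ) / (1 / 2 : ℂ)) = ((2 * Real.pi : ℝ) : ℂ) := by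
          push_cast; ring
        have h2 : (Module.finrank ℝ (EuclideanSpace ℝ ι) / 2 : ℂ) =
            (((Fintype.card ι : ℝ) / 2 : ℝ) : ℂ) := by
          simp
        rw [h1, h2, ← Complex.ofReal_cpow hp.le, ← mul_assoc, ← Complex.ofReal_mul,
          ← Real.rpow_add hp, Complex.I_sq]
        have h3 : -(Fintype.card ι : ℝ) / 2 + (Fintype.card ι : ℝ) / 2 = 0 := by ring
        rw [h3, Real.rpow_zero, Complex.ofReal_one, one_mul]
        congr 1; ring
    _ = _ := by
        rw [← h, ← integral_const_mul]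
        congr 1
        funext x
        rw [ENNReal.toReal_ofReal (g0_dens_nonneg ι x), Complex.real_smul, g0_dens,
          Complex.ofReal_mul, mul_assoc, Complex.ofReal_exp, ← Complex.exp_add]
        congr 2
        push_cast
        rw [real_inner_comm x t]
        ring

private lemma g0_int (ι : Type) [Fintype ι] (F : EuclideanSpace ℝ ι → ℂ) :
    ∫ x, F x ∂(ga ι) = ∫ x, (g0_dens ι x : ℂ) * F x := by
  rw [g0_ga, integral_withDensity_eq_integral_toReal_smul
      (g0_dens_cont ι).measurable.ennreal_ofReal (by simp)]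
  congr 1
  funext x
  rw [ENNReal.toReal_ofReal (g0_dens_nonneg ι x), Complex.real_smul]

theorem gauss_limit {ι : Type} [Fintype ι] {G : EuclideanSpace ℝ ι → ℂ}
    (hc : Continuous G) (hi : Integrable G volume) :
    Filter.Tendsto (fun h : ℝ => ((h ^ ((Fintype.card ι : ℝ) / 2) : ℝ) : ℂ) *
        ∫ x, G (Real.sqrt h • x) ∂(ga ι)) Filter.atTop
      (nhds ((((2 * Real.pi) ^ (-(Fintype.card ι : ℝ) / 2) : ℝ) : ℂ) * ∫ x, G x)) := by
  set c : ℝ := (2 * Real.pi) ^ (-(Fintype.card ι : ℝ) / 2) with hcdef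
  have key : ∀ h : ℝ, 0 < h → ((h ^ ((Fintype.card ι : ℝ) / 2) : ℝ) : ℂ) *
        ∫ x, G (Real.sqrt h • x) ∂(ga ι) =
      (c : ℂ) * ∫ x, (Real.exp (-(1 / 2) * (‖x‖ ^ 2 / h)) : ℂ) * G x := by
    intro h hh
    rw [g0_int]
    have hs : 0 < Real.sqrt h := Real.sqrt_pos.2 hh
    have h1 : ∀ x : EuclideanSpace ℝ ι, (g0_dens ι x : ℂ) * G (Real.sqrt h • x) =
        (fun y : EuclideanSpace ℝ ι =>
          (c : ℂ) * ((Real.exp (-(1 / 2) * (‖y‖ ^ 2 / h)) : ℂ) * G y)) (Real.sqrt h • x) := by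
      intro x
      simp only [g0_dens]
      rw [norm_smul, Real.norm_of_nonneg hs.le, mul_pow, Real.sq_sqrt hh.le,
        mul_div_cancel_left₀ _ hh.ne', ← hcdef, Complex.ofReal_mul, mul_assoc]
    simp_rw [h1]
    rw [Measure.integral_comp_smul volume (fun y : EuclideanSpace ℝ ι =>
          (c : ℂ) * ((Real.exp (-(1 / 2) * (‖y‖ ^ 2 / h)) : ℂ) * G y)) (Real.sqrt h),
      finrank_euclideanSpace, integral_const_mul, Complex.real_smul, ← mul_assoc,
      ← Complex.ofReal_mul]
    have h2 : h ^ ((Fintype.card ι : ℝ) / 2) * |(Real.sqrt h ^ Fintype.card ι)⁻¹| = 1 := by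
      rw [abs_of_pos (by positivity), Real.sqrt_eq_rpow, ← Real.rpow_natCast, ← Real.rpow_mul hh.le]
      rw [show (1 / 2 : ℝ) * (Fintype.card ι : ℝ) = (Fintype.card ι : ℝ) / 2 by ring]
      exact mul_inv_cancel₀ (Real.rpow_pos_of_pos hh _).ne'
    rw [h2, Complex.ofReal_one, one_mul]
  refine Filter.Tendsto.congr' (f₁ := fun h : ℝ =>
    (c : ℂ) * ∫ x, (Real.exp (-(1 / 2) * (‖x‖ ^ 2 / h)) : ℂ) * G x) ?_ ?_
  · filter_upwards [Filter.eventually_gt_atTop (0 : ℝ)] with h hh
    exact (key h hh).symm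
  · apply Filter.Tendsto.const_mul
    have hlim : ∫ x, G x = ∫ x, ((1 : ℝ) : ℂ) * G x := by simp
    rw [hlim]
    apply tendsto_integral_filter_of_dominated_convergence (fun x => ‖G x‖)
    · filter_upwards with h
      apply Continuous.aestronglyMeasurable
      refine Continuous.mul ?_ hc
      exact Complex.continuous_ofReal.comp (by fun_prop)
    · filter_upwards [Filter.eventually_gt_atTop (0 : ℝ)] with h hh
      filter_upwards with x
      rw [norm_mul, Complex.norm_real, Real.norm_of_nonneg (Real.exp_pos _).le]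
      have : Real.exp (-(1 / 2) * (‖x‖ ^ 2 / h)) ≤ 1 := by
        rw [Real.exp_le_one_iff]
        have : 0 ≤ ‖x‖ ^ 2 / h := by positivity
        linarith
      exact mul_le_of_le_one_left (norm_nonneg _) this
    · exact hi.norm
    · filter_upwards with x
      apply Filter.Tendsto.mul_const
      apply (Complex.continuous_ofReal.tendsto _).comp
      have h0 : Filter.Tendsto (fun h : ℝ => -(1 / 2 : ℝ) * (‖x‖ ^ 2 / h)) Filter.atTop (nhds 0) := by
        have : Filter.Tendsto (fun h : ℝ => ‖x‖ ^ 2 / h) Filter.atTop (nhds 0) :=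
          tendsto_const_nhds.div_atTop Filter.tendsto_id
        simpa using this.const_mul (-(1 / 2 : ℝ))
      have := (Real.continuous_exp.tendsto 0).comp h0
      rw [Real.exp_zero] at this
      exact this

end Pool.Agent.OHT
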