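import Pool.Agent.OHT.Defs2
import Pool.Agent.OHT.G0
import Pool.Agent.OHT.B6
import Pool.Agent.OHT.C1
import Pool.Agent.OHT.B5

set_option autoImplicit false

open PowerSeries Finset MeasureTheory

namespace Pool.Agent.OHT

variable {V : Type} [Fintype V] [DecidableEq V]

theorem g1_nsq_nonneg (v : V) (x : Sp V) : 0 ≤ nsq v x :=
  Finset.sum_nonneg fun _ _ => sq_nonneg _

theorem g1_cont (D : Data V) (v : V) :
    Continuous fun x : Sp V => nodeC D v ((nsq v x : ℝ) : ℂ) := by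
  unfold nodeC
  have h1 : Continuous fun x : Sp V => ((nsq v x : ℝ) : ℂ) := by
    unfold nsq
    fun_prop
  have hs : ∀ x : Sp V, ((nsq v x : ℝ) : ℂ) ∈ slit (4 * Real.pi ^ 2) := by
    intro x
    right
    rw [Complex.ofReal_re]
    have := g1_nsq_nonneg v x
    have := Real.pi_pos
    have : 0 < 4 * Real.pi ^ 2 := by positivity
    linarith
  refine Continuous.mul (continuous_finsetProd _ fun k _ =>
    (differentiable_Ec k).continuous.comp h1) (Continuous.pow ?_ _)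
  exact Continuous.inv₀ ((differentiable_Ec 1).continuous.comp h1) fun x =>
    Ec_one_ne_zero (hs x)

theorem g1_bdd {δ : ℝ} (hδ : 0 < δ) (m : ℕ) :
    ∃ C : ℝ, 0 < C ∧ ∀ r : ℝ, 0 ≤ r → (1 + r) ^ m * Real.exp (-(δ * r)) ≤ C := by
  refine ⟨m.factorial / δ ^ m * Real.exp δ, by positivity, fun r hr => ?_⟩
  have h1 := Real.pow_div_factorial_le_exp (δ * (1 + r)) (by positivity) m
  rw [div_le_iff₀ (by positivity), mul_pow] at h1
  have h2 : (1 + r) ^ m ≤ m.factorial / δ ^ m * Real.exp (δ * (1 + r)) := by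
    rw [div_mul_eq_mul_div, le_div_iff₀ (by positivity)]
    linarith
  calc (1 + r) ^ m * Real.exp (-(δ * r))
      ≤ m.factorial / δ ^ m * Real.exp (δ * (1 + r)) * Real.exp (-(δ * r)) :=
        mul_le_mul_of_nonneg_right h2 (Real.exp_pos _).le
    _ = m.factorial / δ ^ m * Real.exp δ := by
        rw [mul_assoc, ← Real.exp_add]
        congr 2
        ring

theorem g1_factor {D : Data V} (hD : D.IsSplice) (v : V)
    (hv : ∑ k ∈ D.leaf v, (1 / k : ℝ) < ((D.val v - 2 : ℕ) : ℝ)) (N : ℕ) :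
    ∃ C : ℝ, 0 < C ∧ ∀ r : ℝ, 0 ≤ r →
      ‖nodeC D v ((r ^ 2 : ℝ) : ℂ)‖ ≤ C * ((1 + r) ^ N)⁻¹ := by
  set δ : ℝ := (((D.val v - 2 : ℕ) : ℝ) - ∑ k ∈ D.leaf v, (1 / k : ℝ)) / 2 with hδ
  have hδ0 : 0 < δ := by
    rw [hδ]
    linarith
  obtain ⟨C, hC, hb⟩ := g1_bdd hδ0 (D.val v - 2 + N)
  refine ⟨C, hC, fun r hr => ?_⟩
  have h1 := nodeC_le D v (fun k hk => le_trans (by norm_num) (hD.two_le v k hk)) hr
  refine le_trans h1 ?_
  have hp : 0 < (1 + r) ^ N := by positivity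
  rw [← div_eq_mul_inv, le_div_iff₀ hp]
  refine le_trans (le_of_eq ?_) (hb r hr)
  rw [pow_add]
  have : (∑ k ∈ D.leaf v, (1 / k : ℝ) - ((D.val v - 2 : ℕ) : ℝ)) * r / 2 = -(δ * r) := by
    rw [hδ]
    ring
  rw [this]
  ring

theorem g1_prod {ι : Type} (s : Finset ι) (r : ι → ℝ) (hr : ∀ i, 0 ≤ r i) :
    1 + ∑ i ∈ s, r i ≤ ∏ i ∈ s, (1 + r i) := by
  classical
  induction s using Finset.induction_on with
  | empty => simp
  | insert a s ha ih =>
    rw [Finset.sum_insert ha, Finset.prod_insert ha]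
    have h1 : 0 ≤ ∑ i ∈ s, r i := Finset.sum_nonneg fun i _ => hr i
    have h2 := hr a
    calc 1 + (r a + ∑ i ∈ s, r i) ≤ (1 + r a) * (1 + ∑ i ∈ s, r i) := by nlinarith
      _ ≤ (1 + r a) * ∏ i ∈ s, (1 + r i) := mul_le_mul_of_nonneg_left ih (by linarith)

theorem g1_norm_le (y : Sp V) : ‖y‖ ≤ ∑ v, Real.sqrt (nsq v y) := by
  have h0 : 0 ≤ ∑ v, Real.sqrt (nsq v y) := Finset.sum_nonneg fun _ _ => Real.sqrt_nonneg _
  rw [EuclideanSpace.norm_eq]
  refine Real.sqrt_le_iff.2 ⟨h0, ?_⟩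
  have h1 : ∑ i : V × Fin 3, ‖y i‖ ^ 2 = ∑ v, nsq v y := by
    rw [Fintype.sum_prod_type]
    refine Finset.sum_congr rfl fun v _ => ?_
    unfold nsq
    refine Finset.sum_congr rfl fun i _ => ?_
    rw [Real.norm_eq_abs, sq_abs]
  rw [h1]
  have h2 : ∀ v, nsq v y = Real.sqrt (nsq v y) ^ 2 := fun v =>
    (Real.sq_sqrt (g1_nsq_nonneg v y)).symm
  calc ∑ v, nsq v y = ∑ v, Real.sqrt (nsq v y) ^ 2 := Finset.sum_congr rfl fun v _ => h2 v
    _ ≤ (∑ v, Real.sqrt (nsq v y)) ^ 2 :=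
        Finset.sum_sq_le_sq_sum_of_nonneg fun i _ => Real.sqrt_nonneg _

theorem g1_scale (v : V) (T : Sp V ≃L[ℝ] Sp V) {h : ℝ} (hh : 0 ≤ h) (x : Sp V) :
    nsq v (T (Real.sqrt h • x)) = h * nsq v (T x) := by
  rw [map_smul]
  unfold nsq
  rw [Finset.mul_sum]
  refine Finset.sum_congr rfl fun i _ => ?_
  rw [PiLp.smul_apply, smul_eq_mul, mul_pow, Real.sq_sqrt hh]

theorem g1_int {D : Data V} (hD : D.IsSplice)
    (hv : ∀ v, ∑ k ∈ D.leaf v, (1 / k : ℝ) < ((D.val v - 2 : ℕ) : ℝ)) (T : Sp V ≃L[ℝ] Sp V)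
    (hG : Continuous fun x : Sp V => ∏ v, nodeC D v ((nsq v (T x) : ℝ) : ℂ)) :
    Integrable (fun x : Sp V => ∏ v, nodeC D v ((nsq v (T x) : ℝ) : ℂ)) volume := by
  set N : ℕ := Module.finrank ℝ (Sp V) + 1 with hN
  choose C hC hb using fun v => g1_factor hD v (hv v) N
  -- the norm of `T x` controls the norm of `x`
  obtain ⟨c, hc, hcT⟩ : ∃ c : ℝ, 0 < c ∧ ∀ x, c * (1 + ‖x‖) ≤ 1 + ‖T x‖ := by
    set M : ℝ := max 1 ‖(T.symm : Sp V →L[ℝ] Sp V)‖ with hM
    have hM1 : 1 ≤ M := le_max_left _ _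
    refine ⟨M⁻¹, by positivity, fun x => ?_⟩
    have h1 : ‖x‖ ≤ M * ‖T x‖ := by
      have h2 := (T.symm : Sp V →L[ℝ] Sp V).le_opNorm (T x)
      have h3 : (T.symm : Sp V →L[ℝ] Sp V) (T x) = x := T.symm_apply_apply x
      rw [h3] at h2
      exact le_trans h2 (mul_le_mul_of_nonneg_right (le_max_right _ _) (norm_nonneg _))
    rw [inv_mul_le_iff₀ (by positivity)]
    nlinarith
  have hint : Integrable (fun x : Sp V => (∏ v, C v) * (c⁻¹) ^ N * (1 + ‖x‖) ^ (-(N : ℝ)))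
      volume := by
    refine Integrable.const_mul (integrable_one_add_norm ?_) _
    rw [hN]
    push_cast
    linarith
  refine hint.mono' hG.aestronglyMeasurable (Filter.Eventually.of_forall fun x => ?_)
  rw [norm_prod]
  have h1 : ∀ v, ‖nodeC D v ((nsq v (T x) : ℝ) : ℂ)‖ ≤
      C v * ((1 + Real.sqrt (nsq v (T x))) ^ N)⁻¹ := by
    intro v
    have h2 := hb v (Real.sqrt (nsq v (T x))) (Real.sqrt_nonneg _)
    rwa [Real.sq_sqrt (g1_nsq_nonneg v _)] at h2
  have h3 : c * (1 + ‖x‖) ≤ ∏ v, (1 + Real.sqrt (nsq v (T x))) := by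
    refine le_trans (hcT x) (le_trans ?_ (g1_prod univ _ fun v => Real.sqrt_nonneg _))
    have := g1_norm_le (T x)
    linarith
  calc ∏ v, ‖nodeC D v ((nsq v (T x) : ℝ) : ℂ)‖
      ≤ ∏ v, C v * ((1 + Real.sqrt (nsq v (T x))) ^ N)⁻¹ :=
        Finset.prod_le_prod (fun _ _ => norm_nonneg _) fun v _ => h1 v
    _ = (∏ v, C v) * ((∏ v, (1 + Real.sqrt (nsq v (T x)))) ^ N)⁻¹ := by
        rw [Finset.prod_mul_distrib, ← Finset.prod_pow, Finset.prod_inv_distrib]
    _ ≤ (∏ v, C v) * ((c * (1 + ‖x‖)) ^ N)⁻¹ := by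
        refine mul_le_mul_of_nonneg_left ?_ (Finset.prod_nonneg fun v _ => (hC v).le)
        refine inv_anti₀ (by positivity) (pow_le_pow_left₀ (by positivity) h3 N)
    _ = (∏ v, C v) * (c⁻¹) ^ N * (1 + ‖x‖) ^ (-(N : ℝ)) := by
        rw [Real.rpow_neg (by positivity), Real.rpow_natCast, mul_pow, mul_inv, inv_pow]
        ring

theorem fn_limit {D : Data V} (hD : D.IsSplice)
    (hv : ∀ v, ∑ k ∈ D.leaf v, (1 / k : ℝ) < ((D.val v - 2 : ℕ) : ℝ)) :
    ∃ C : ℝ, 0 < C ∧ Filter.Tendsto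
      (fun h : ℝ => ((h ^ ((3 : ℝ) * Fintype.card V / 2) : ℝ) : ℂ) * fn D h)
      Filter.atTop (nhds (C : ℂ)) := by
  obtain ⟨T, hT⟩ := integral_cov hD
  have hG : Continuous fun x : Sp V => ∏ v, nodeC D v ((nsq v (T x) : ℝ) : ℂ) :=
    continuous_finsetProd _ fun v _ => (g1_cont D v).comp T.continuous
  have hi := g1_int hD hv T hG
  have hlim := gauss_limit hG hi
  -- the integrand is real and positive
  choose g hg0 hg using fun (v : V) (x : Sp V) => nodeC_real D v (g1_nsq_nonneg v (T x))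
  have hreal : ∀ x, ∏ v, nodeC D v ((nsq v (T x) : ℝ) : ℂ) = ((∏ v, g v x : ℝ) : ℂ) := by
    intro x
    rw [Complex.ofReal_prod]
    exact Finset.prod_congr rfl fun v _ => hg v x
  have hpos : ∀ x, 0 < ∏ v, g v x := fun x => Finset.prod_pos fun v _ => hg0 v x
  have hi' : Integrable (fun x : Sp V => ∏ v, g v x) volume := by
    have h1 := hi.re
    refine h1.congr (Filter.Eventually.of_forall fun x => ?_)
    change RCLike.re (∏ v, nodeC D v ((nsq v (T x) : ℝ) : ℂ)) = ∏ v, g v x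
    rw [hreal x]
    exact Complex.ofReal_re _
  have hint : ∫ x : Sp V, ∏ v, nodeC D v ((nsq v (T x) : ℝ) : ℂ) =
      ((∫ x : Sp V, ∏ v, g v x : ℝ) : ℂ) := by
    rw [← integral_complex_ofReal]
    exact integral_congr_ae (Filter.Eventually.of_forall fun x => hreal x)
  have hipos : 0 < ∫ x : Sp V, ∏ v, g v x := by
    rw [integral_pos_iff_support_of_nonneg (fun x => (hpos x).le) hi']
    have : Function.support (fun x : Sp V => ∏ v, g v x) = Set.univ := by
      ext x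
      simp [(hpos x).ne', Function.mem_support]
    rw [this]
    exact Measure.measure_univ_pos.2 (NeZero.ne _)
  refine ⟨(2 * Real.pi) ^ (-(Fintype.card (V × Fin 3) : ℝ) / 2) * ∫ x : Sp V, ∏ v, g v x,
    mul_pos (Real.rpow_pos_of_pos (by positivity) _) hipos, ?_⟩
  rw [Complex.ofReal_mul, ← hint]
  refine hlim.congr' ?_
  filter_upwards [Filter.eventually_ge_atTop (0 : ℝ)] with h hh
  have hcard : (Fintype.card (V × Fin 3) : ℝ) / 2 = (3 : ℝ) * Fintype.card V / 2 := by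
    rw [Fintype.card_prod, Fintype.card_fin]
    push_cast
    ring
  rw [hcard]
  congr 1
  unfold fn
  rw [hT, integral_map T.continuous.aemeasurable]
  · refine integral_congr_ae (Filter.Eventually.of_forall fun x => ?_)
    refine Finset.prod_congr rfl fun v _ => ?_
    simp only [g1_scale v T hh x]
    push_cast
    rfl
  · refine Continuous.aestronglyMeasurable ?_
    have h2 : Continuous fun x : Sp V => ∏ v, nodeC D v ((nsq v (Real.sqrt h • x) : ℝ) : ℂ) :=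
      continuous_finsetProd _ fun v _ => (g1_cont D v).comp (continuous_const_smul _)
    refine h2.congr fun x => ?_
    refine Finset.prod_congr rfl fun v _ => ?_
    have h3 := g1_scale v (ContinuousLinearEquiv.refl ℝ (Sp V)) hh x
    simp only [ContinuousLinearEquiv.refl_apply] at h3
    rw [h3]
    push_cast
    rfl

end Pool.Agent.OHT
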