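import Pool.Agent.OHT.Defs2

set_option autoImplicit false

open PowerSeries Finset MeasureTheory

namespace Pool.Agent.OHT

variable {V : Type} [Fintype V] [DecidableEq V]

/-- real and nonnegative -/
private def p1_nn (z : ℂ) : Prop := 0 ≤ z.re ∧ z.im = 0

private theorem p1_isOpen (c : ℝ) : IsOpen (slit c) := by
  have : slit c = {z : ℂ | z.im ≠ 0} ∪ {z : ℂ | -c < z.re} := by
    ext z
    simp [slit]
  rw [this]
  exact (isOpen_ne_fun Complex.continuous_im continuous_const).union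
    (isOpen_lt continuous_const Complex.continuous_re)

private theorem p1_ball {c t : ℝ} (hc : 0 < c) (ht : 0 ≤ t) :
    Metric.ball (t : ℂ) (t + c) ⊆ slit c := by
  intro z hz
  by_contra h
  simp only [slit, Set.mem_setOf_eq, not_or, not_not, not_lt] at h
  rw [Metric.mem_ball, Complex.dist_eq] at hz
  have h1 : |(z - t).re| ≤ ‖z - t‖ := Complex.abs_re_le_norm _
  rw [Complex.sub_re, Complex.ofReal_re] at h1
  have h2 := neg_le_abs (z.re - t)
  linarith [h.2]

private theorem p1_nn_hasSum {f : ℕ → ℂ} {a : ℂ} (h : HasSum f a) (hf : ∀ n, p1_nn (f n)) :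
    p1_nn a := by
  have h1 := Complex.hasSum_re h
  have h2 := Complex.hasSum_im h
  refine ⟨h1.nonneg fun n => (hf n).1, ?_⟩
  have h3 : (fun n => (f n).im) = fun _ => 0 := funext fun n => (hf n).2
  rw [h3] at h2
  exact h2.unique hasSum_zero

private theorem p1_nn_mul {z w : ℂ} (hz : p1_nn z) (hw : p1_nn w) : p1_nn (z * w) := by
  refine ⟨?_, ?_⟩
  · rw [Complex.mul_re, hz.2, hw.2, mul_zero, sub_zero]
    exact mul_nonneg hz.1 hw.1
  · rw [Complex.mul_im, hz.2, hw.2]
    ring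

private theorem p1_nn_real {x : ℝ} (hx : 0 ≤ x) : p1_nn (x : ℂ) := ⟨by simpa, by simp⟩

private theorem p1_step {c : ℝ} (hc : 0 < c) {g : ℂ → ℂ} (hg : DifferentiableOn ℂ g (slit c))
    {t s : ℝ} (ht : 0 ≤ t) (hs : 0 ≤ s) (hst : s < t + c)
    (h : ∀ n, p1_nn (iteratedDeriv n g t)) (n : ℕ) : p1_nn (iteratedDeriv n g ((t + s : ℝ) : ℂ)) := by
  have hball := p1_ball hc ht
  have hg' : AnalyticOnNhd ℂ g (Metric.ball (t : ℂ) (t + c)) :=
    (hg.mono hball).analyticOnNhd Metric.isOpen_ball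
  have hd : DifferentiableOn ℂ (iteratedDeriv n g) (Metric.ball (t : ℂ) (t + c)) := by
    rw [iteratedDeriv_eq_iterate]
    exact (hg'.iterated_deriv n).differentiableOn
  have hz : ((t + s : ℝ) : ℂ) ∈ Metric.ball (t : ℂ) (t + c) := by
    rw [Metric.mem_ball, Complex.dist_eq]
    push_cast
    rw [add_sub_cancel_left, Complex.norm_real, Real.norm_of_nonneg hs]
    exact hst
  have hsum := Complex.hasSum_taylorSeries_on_ball hd hz
  refine p1_nn_hasSum hsum fun m => ?_
  have h1 : iteratedDeriv m (iteratedDeriv n g) (t : ℂ) = iteratedDeriv (m + n) g t := by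
    simp only [iteratedDeriv_eq_iterate]
    rw [Function.iterate_add_apply]
  rw [h1, smul_eq_mul, smul_eq_mul]
  refine p1_nn_mul ?_ (p1_nn_mul ?_ (h _))
  · have : ((m.factorial : ℂ))⁻¹ = (((m.factorial : ℝ)⁻¹ : ℝ) : ℂ) := by push_cast; rfl
    rw [this]
    exact p1_nn_real (by positivity)
  · have : (((t + s : ℝ) : ℂ) - t) ^ m = ((s ^ m : ℝ) : ℂ) := by
      push_cast
      rw [add_sub_cancel_left]
    rw [this]
    exact p1_nn_real (by positivity)

private theorem p1_all {c : ℝ} (hc : 0 < c) {g : ℂ → ℂ} (hg : DifferentiableOn ℂ g (slit c))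
    (h : ∀ n, p1_nn (iteratedDeriv n g 0)) {t : ℝ} (ht : 0 ≤ t) : p1_nn (g t) := by
  obtain ⟨N, hN⟩ := exists_nat_gt (t / c)
  have hN0 : (0 : ℝ) < N := lt_of_le_of_lt (div_nonneg ht hc.le) hN
  set δ : ℝ := t / N with hδ
  have hδ0 : 0 ≤ δ := div_nonneg ht hN0.le
  have hδc : δ < c := by
    rw [hδ, div_lt_iff₀ hN0]
    rw [div_lt_iff₀ hc] at hN
    linarith
  have key : ∀ j : ℕ, ∀ n, p1_nn (iteratedDeriv n g ((j * δ : ℝ) : ℂ)) := by
    intro j
    induction j with
    | zero => simpa using h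
    | succ j ih =>
      intro n
      have h0 : 0 ≤ (j : ℝ) * δ := by positivity
      have := p1_step hc hg h0 hδ0 (by linarith) ih n
      convert this using 4
      push_cast
      ring
  have h1 := key N 0
  rw [iteratedDeriv_zero] at h1
  have h2 : (N : ℝ) * δ = t := by
    rw [hδ]
    field_simp
  rwa [h2] at h1

private theorem p1_coeff {c : ℝ} (hc : 0 < c) {g : ℂ → ℂ} {b : ℕ → ℝ}
    (hs : ∀ t : ℂ, ‖t‖ < c → HasSum (fun k => (b k : ℂ) * t ^ k) (g t)) (n : ℕ) :
    iteratedDeriv n g 0 = n.factorial * b n := by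
  have h1 : HasFPowerSeriesAt g
      (FormalMultilinearSeries.ofScalars ℂ (fun k => (b k : ℂ))) 0 := by
    rw [hasFPowerSeriesAt_iff]
    filter_upwards [Metric.ball_mem_nhds (0 : ℂ) hc] with z hz
    rw [mem_ball_zero_iff] at hz
    have := hs z hz
    rw [zero_add]
    have e : (fun k => z ^ k • (FormalMultilinearSeries.ofScalars ℂ
        (fun k => (b k : ℂ))).coeff k) = fun k => (b k : ℂ) * z ^ k := by
      funext k
      rw [FormalMultilinearSeries.coeff_ofScalars, smul_eq_mul, mul_comm]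
    rw [e]
    exact this
  obtain ⟨r, hr⟩ := h1
  have h2 := hr.factorial_smul 1 n
  rw [iteratedDeriv_eq_iteratedFDeriv, ← h2, nsmul_eq_mul]
  congr 1
  have h3 : (FormalMultilinearSeries.ofScalars ℂ (fun k => (b k : ℂ))) n (fun _ => (1 : ℂ)) =
      (FormalMultilinearSeries.ofScalars ℂ (fun k => (b k : ℂ))).coeff n := rfl
  rw [h3, FormalMultilinearSeries.coeff_ofScalars]

private theorem p1_main {c : ℝ} (hc : 0 < c) {g : ℂ → ℂ} (hg : DifferentiableOn ℂ g (slit c))
    {b : ℕ → ℝ} (hb : ∀ k, 0 ≤ b k)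
    (hs : ∀ t : ℂ, ‖t‖ < c → HasSum (fun k => (b k : ℂ) * t ^ k) (g t)) {t : ℝ} (ht : 0 ≤ t) :
    p1_nn (g t) := by
  refine p1_all hc hg (fun n => ?_) ht
  rw [p1_coeff hc hs]
  exact p1_nn_mul (by
    have := p1_nn_real (x := (n.factorial : ℝ)) (by positivity)
    simpa using this) (p1_nn_real (hb n))

theorem pringsheim {c : ℝ} (hc : 0 < c) {g : ℂ → ℂ} (hg : DifferentiableOn ℂ g (slit c))
    {b : ℕ → ℝ} (hb : ∀ k, 0 ≤ b k)
    (hs : ∀ t : ℂ, ‖t‖ < c → HasSum (fun k => (b k : ℂ) * t ^ k) (g t)) (r : ℝ) :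
    ∃ C, ∀ k, b k * r ^ k ≤ C := by
  refine ⟨(g (|r| : ℝ)).re, fun K => ?_⟩
  have h1 : b K * r ^ K ≤ b K * |r| ^ K := by
    refine mul_le_mul_of_nonneg_left ?_ (hb K)
    rw [← abs_pow]
    exact le_abs_self _
  refine h1.trans ?_
  -- remove the term number `K`
  have h2 : p1_nn ((fun t : ℂ => g t - (b K : ℂ) * t ^ K) ((|r| : ℝ) : ℂ)) := by
    refine p1_main (g := fun t : ℂ => g t - (b K : ℂ) * t ^ K) hc
      (b := fun k => if k = K then 0 else b k) ?_ ?_ ?_ (abs_nonneg r)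
    · refine hg.sub ?_
      fun_prop
    · intro k
      split_ifs
      · exact le_rfl
      · exact hb k
    · intro t ht
      have h3 := (hs t ht).sub (hasSum_ite_eq K ((b K : ℂ) * t ^ K))
      have e : (fun k => ((if k = K then 0 else b k : ℝ) : ℂ) * t ^ k) =
          fun k => (b k : ℂ) * t ^ k - if k = K then (b K : ℂ) * t ^ K else 0 := by
        funext k
        by_cases hk : k = K
        · subst hk
          simp
        · simp [hk]
      rw [e]
      exact h3
  have h3 := h2.1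
  simp only [Complex.sub_re] at h3
  have h4 : ((b K : ℂ) * ((|r| : ℝ) : ℂ) ^ K).re = b K * |r| ^ K := by
    rw [← Complex.ofReal_pow, ← Complex.ofReal_mul, Complex.ofReal_re]
  rw [h4] at h3
  linarith

end Pool.Agent.OHT
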