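import Pool.Agent.OHT.Defs2
import Pool.Agent.OHT.P1
import Pool.Agent.OHT.F1
import Pool.Agent.OHT.F2d
import Pool.Agent.OHT.E2
import Pool.Agent.OHT.E3
import Pool.Agent.OHT.E1
import Pool.Agent.OHT.A1
import Pool.Agent.OHT.F2a

set_option autoImplicit false

open PowerSeries Finset MeasureTheory

namespace Pool.Agent.OHT

variable {V : Type} [Fintype V] [DecidableEq V]

private theorem p2_Kf_pos {n : ℕ} (hn : 0 < n) (k : ℕ) : 0 < Kf n k := by
  have h : (0 : ℝ) < n := by exact_mod_cast hn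
  unfold Kf
  have h1 : 0 < Real.Gamma (k + (n : ℝ) / 2) := Real.Gamma_pos_of_pos (by positivity)
  have h2 : 0 < Real.Gamma ((n : ℝ) / 2) := Real.Gamma_pos_of_pos (by positivity)
  positivity

private theorem p2_Kf_succ {n : ℕ} (hn : 0 < n) (k : ℕ) : Kf n (k + 1) = (2 * k + n) * Kf n k := by
  have h : (0 : ℝ) < n := by exact_mod_cast hn
  unfold Kf
  have h1 : Real.Gamma (((k + 1 : ℕ) : ℝ) + (n : ℝ) / 2) =
      (k + (n : ℝ) / 2) * Real.Gamma (k + (n : ℝ) / 2) := by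
    rw [← Real.Gamma_add_one (by positivity)]
    congr 1
    push_cast
    ring
  rw [h1, pow_succ]
  ring

private theorem p2_Kf_le {n : ℕ} (hn : 0 < n) (k : ℕ) :
    Kf n k ≤ k.factorial * ((n : ℝ) + 2) ^ k := by
  have h : (0 : ℝ) < n := by exact_mod_cast hn
  induction k with
  | zero =>
    unfold Kf
    have h2 : 0 < Real.Gamma ((n : ℝ) / 2) := Real.Gamma_pos_of_pos (by positivity)
    simp [div_self h2.ne']
  | succ k ih =>
    rw [p2_Kf_succ hn]
    have h3 : (2 * k + n : ℝ) ≤ (k + 1) * (n + 2) := by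
      have : (0 : ℝ) ≤ k * n := by positivity
      nlinarith
    calc (2 * k + n : ℝ) * Kf n k ≤ ((k + 1) * (n + 2)) * (k.factorial * ((n : ℝ) + 2) ^ k) :=
          mul_le_mul h3 ih (p2_Kf_pos hn k).le (by positivity)
      _ = ((k + 1).factorial : ℝ) * ((n : ℝ) + 2) ^ (k + 1) := by
          rw [Nat.factorial_succ]
          push_cast
          ring

private theorem p2_key {ι : Type} [Fintype ι] [Nonempty ι] {c : ℝ}
    {u : ℂ → EuclideanSpace ℝ ι → ℂ} {p : ℕ → EuclideanSpace ℝ ι → ℂ} (h : Fam c u p)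
    {a : ℕ → ℝ} (ha : ∀ k, 0 ≤ a k) (hp : ∀ k, ∫ x, p k x ∂(ga ι) = ((a k : ℝ) : ℂ))
    {ρ : ℝ} (hρ : 0 < ρ) : ∃ C : ℝ, ∀ k, a k ≤ C * k.factorial * ρ ^ k := by
  obtain ⟨g, hg, hs, -⟩ := h.sphere
  set n := Fintype.card ι with hn'
  have hn : 0 < n := Fintype.card_pos
  have hs' : ∀ t : ℂ, ‖t‖ < c → HasSum (fun k => ((a k / Kf n k : ℝ) : ℂ) * t ^ k) (g t) := by
    intro t ht
    have h1 := hs t ht
    have h2 : (fun k => ((a k / Kf n k : ℝ) : ℂ) * t ^ k) =
        fun k => ((∫ x, p k x ∂(ga ι)) / (Kf (Fintype.card ι) k : ℂ)) * t ^ k := by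
      funext k
      rw [hp k, Complex.ofReal_div]
    rw [h2]
    exact h1
  obtain ⟨C, hC⟩ := pringsheim h.pos hg (b := fun k => a k / Kf n k)
    (fun k => div_nonneg (ha k) (p2_Kf_pos hn k).le) hs' (((n : ℝ) + 2) / ρ)
  have hC0 : 0 ≤ C := by
    have h0 := hC 0
    have : 0 ≤ a 0 / Kf n 0 * (((n : ℝ) + 2) / ρ) ^ 0 :=
      mul_nonneg (div_nonneg (ha 0) (p2_Kf_pos hn 0).le) (by positivity)
    exact this.trans h0
  refine ⟨C, fun k => ?_⟩
  have h1 := hC k
  have h2 := p2_Kf_le hn k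
  have h3 := p2_Kf_pos hn k
  have hn2 : (0 : ℝ) < (n : ℝ) + 2 := by positivity
  have h4 : a k ≤ C * (ρ / ((n : ℝ) + 2)) ^ k * Kf n k := by
    have h5 : a k = (a k / Kf n k * (((n : ℝ) + 2) / ρ) ^ k) * (ρ / ((n : ℝ) + 2)) ^ k * Kf n k := by
      rw [div_pow, div_pow]
      field_simp
    rw [h5]
    have : 0 ≤ (ρ / ((n : ℝ) + 2)) ^ k := by positivity
    gcongr
  calc a k ≤ C * (ρ / ((n : ℝ) + 2)) ^ k * Kf n k := h4
    _ ≤ C * (ρ / ((n : ℝ) + 2)) ^ k * (k.factorial * ((n : ℝ) + 2) ^ k) := by gcongr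
    _ = C * k.factorial * ρ ^ k := by
        rw [div_pow]
        field_simp

private theorem p2_contra {D : Data V} [Nonempty V] (h : D.IsSplice)
    (H : ∀ ρ : ℝ, 0 < ρ → Gev ρ (part D)) : False := by
  obtain ⟨v⟩ := ‹Nonempty V›
  have h1 : 0 < D.lk v v := lk_pos h v v
  have h2 : D.lk v v ≤ top D := Finset.le_sup (f := fun v => D.lk v v) (mem_univ v)
  have h3 : (0 : ℝ) < (top D : ℝ) := by exact_mod_cast h1.trans_le h2
  have h4 : 0 < (top D : ℝ) / Real.pi ^ 2 := by positivity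
  exact part_not_gev h (ρ := (top D : ℝ) / Real.pi ^ 2 / 2) (by positivity) (by linarith)
    (H _ (by positivity))

theorem orientation {V' : Type} [Fintype V'] [DecidableEq V'] [Nonempty V] [Nonempty V']
    {D : Data V} (hD : D.IsSplice) {D' : Data V'} (hD' : D'.IsSplice) (κ : ℝ)
    (he : rescale κ (exp ℝ) * part D = rescale (-1 : ℝ) (part D')) : False := by
  have hsign : ∀ k, 0 ≤ coeff k (rescale (-1 : ℝ) (part D')) := fun k => by
    rw [coeff_rescale]
    exact part_sign hD' k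
  rcases le_or_gt 0 κ with hκ | hκ
  · obtain ⟨c, u, p, hF, hp, -⟩ := fam_exp hD hκ
    refine p2_contra hD' fun ρ hρ => ?_
    obtain ⟨C, hC⟩ := p2_key hF (a := fun k => coeff k (rescale (-1 : ℝ) (part D'))) hsign
      (fun k => by rw [hp k, he]) hρ
    refine ⟨C, fun k => ?_⟩
    have h1 := hC k
    rw [coeff_rescale] at h1
    have h2 : |coeff k (part D')| = (-1) ^ k * coeff k (part D') := by
      rw [← abs_of_nonneg (part_sign hD' k), abs_mul, abs_pow, abs_neg, abs_one, one_pow, one_mul]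
    rw [h2]
    exact h1
  · have he2 : part D = rescale (-κ) (exp ℝ) * rescale (-1 : ℝ) (part D') := by
      rw [← he, ← mul_assoc, exp_mul_exp_eq_exp_add, neg_add_cancel, rescale_zero]
      simp
    have hpos : ∀ k, 0 ≤ coeff k (part D) := by
      intro k
      rw [he2, PowerSeries.coeff_mul]
      refine sum_nonneg fun q _ => mul_nonneg ?_ (hsign _)
      rw [coeff_rescale, coeff_exp]
      have : 0 ≤ -κ := by linarith
      have h1 : (0 : ℝ) ≤ (algebraMap ℚ ℝ) (1 / (q.1.factorial : ℚ)) := by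
        simp
      positivity
    obtain ⟨c, u, p, hF, hp, -⟩ := fam_node hD
    refine p2_contra hD fun ρ hρ => ?_
    obtain ⟨C, hC⟩ := p2_key hF (a := fun k => coeff k (part D)) hpos hp hρ
    refine ⟨C, fun k => ?_⟩
    rw [abs_of_nonneg (hpos k)]
    exact hC k

end Pool.Agent.OHT
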