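import Pool.Agent.OHT.A1
import Pool.Agent.OHT.A2
import Pool.Agent.OHT.A3
import Pool.Agent.OHT.A4
import Pool.Agent.OHT.A4b
import Pool.Agent.OHT.A5
import Pool.Agent.OHT.A6
import Pool.Agent.OHT.A7
import Pool.Agent.OHT.B1
import Pool.Agent.OHT.B2
import Pool.Agent.OHT.B3
import Pool.Agent.OHT.B4
import Pool.Agent.OHT.B5
import Pool.Agent.OHT.B6
import Pool.Agent.OHT.C1
import Pool.Agent.OHT.C2
import Pool.Agent.OHT.C3
import Pool.Agent.OHT.C4
import Pool.Agent.OHT.D1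
import Pool.Agent.OHT.D2
import Pool.Agent.OHT.E1
import Pool.Agent.OHT.E2
import Pool.Agent.OHT.E3
import Pool.Agent.OHT.F0
import Pool.Agent.OHT.F1
import Pool.Agent.OHT.F1c
import Pool.Agent.OHT.F2a
import Pool.Agent.OHT.F2b
import Pool.Agent.OHT.F2c
import Pool.Agent.OHT.F2d
import Pool.Agent.OHT.F2e
import Pool.Agent.OHT.P1
import Pool.Agent.OHT.P2
import Pool.Agent.OHT.G0
import Pool.Agent.OHT.G1
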