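import Mathlib

/-!
# The Ohtsuki series of the homology sphere links of surface singularities
-/

set_option autoImplicit false

open PowerSeries Finset

namespace Pool.Agent.OHT

/-- The data of a splice diagram with the set of nodes `V`: `leaf v` is the set of the weights of
the leaves at the node `v`, and `wt v w` is the weight at `v` of the edge from `v` to `w`
(`0` if there is no such edge). -/
structure Data (V : Type) where
  leaf : V → Finset ℕ
  wt : V → V → ℕ

namespace Data

variable {V : Type} [Fintype V] [DecidableEq V] (D : Data V)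

/-- The graph of the nodes. -/
def graph : SimpleGraph V := SimpleGraph.fromRel fun v w => D.wt v w ≠ 0

/-- The neighbours of a node. -/
def nbr (v : V) : Finset V := univ.filter fun w => D.wt v w ≠ 0

/-- The valence of a node: the number of its leaves and of its edges. -/
def val (v : V) : ℕ := (D.leaf v).card + (D.nbr v).card

/-- The node `u` lies on the path from `v` to `w`. -/
def On (v w u : V) : Prop := D.graph.dist v u + D.graph.dist u w = D.graph.dist v w

noncomputable instance (v w u : V) : Decidable (D.On v w u) := Classical.dec _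

/-- The linking number `ℓ_vw`: the product of all weights which are adjacent to, but not on, the
path from `v` to `w`; in particular `ℓ_vv` is the product of all weights at `v`. -/
noncomputable def lk (v w : V) : ℕ :=
  ∏ u with D.On v w u, ((∏ k ∈ D.leaf u, k) * ∏ x ∈ D.nbr u with ¬ D.On v w x, D.wt u x)

/-- The splice diagrams of the integral homology spheres which are links of normal surface
singularities and not `S³` (Eisenbud, Neumann): the nodes form a tree, the weights at each node
are pairwise coprime, the weights of the leaves are `≥ 2`, the valences are `≥ 3` and the edge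
determinants are positive. -/
structure IsSplice : Prop where
  tree : D.graph.IsTree
  symm : ∀ v w, D.wt v w ≠ 0 → D.wt w v ≠ 0
  irrefl : ∀ v, D.wt v v = 0
  two_le : ∀ v, ∀ k ∈ D.leaf v, 2 ≤ k
  coprime_leaf : ∀ v, ∀ k ∈ D.leaf v, ∀ l ∈ D.leaf v, k ≠ l → Nat.Coprime k l
  coprime_mixed : ∀ v, ∀ k ∈ D.leaf v, ∀ w ∈ D.nbr v, Nat.Coprime k (D.wt v w)
  coprime_edge : ∀ v, ∀ w ∈ D.nbr v, ∀ x ∈ D.nbr v, w ≠ x → Nat.Coprime (D.wt v w) (D.wt v x)
  three_le : ∀ v, 3 ≤ D.val v
  edge_det : ∀ v, ∀ w ∈ D.nbr v, D.lk v w < D.wt v w * D.wt w v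

end Data

/-- `sinhc (x / (2 k)) = sinh (x / (2 k)) / (x / (2 k))` as a power series in `y = x ^ 2`. -/
noncomputable def sinhc (k : ℕ) : ℝ⟦X⟧ :=
  PowerSeries.mk fun m => 1 / ((2 * k : ℝ) ^ (2 * m) * (2 * m + 1).factorial)

/-- `sinh (ħ / 2) / (ħ / 2)` as a power series in `ħ`. -/
noncomputable def sinhcHalf : ℝ⟦X⟧ :=
  PowerSeries.mk fun n => if Even n then (1 / 2) ^ n / (n + 1).factorial else 0

variable {V : Type} [Fintype V] [DecidableEq V]

/-- The integrand at the node `v`, as a power series in `y = x ^ 2`: the product of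
`sinhc (x / (2 k))` over the weights `k` of the leaves at `v`, divided by
`sinhc (x / 2) ^ (val v - 2)`. -/
noncomputable def node (D : Data V) (v : V) : ℝ⟦X⟧ :=
  (∏ k ∈ D.leaf v, sinhc k) * ((sinhc 1)⁻¹) ^ (D.val v - 2)

/-- The covariance matrix of the Gaussian vector `(X_v)`, `X_v ∈ ℝ³`: the matrix `2 ℓ_vw` for each
of the three coordinates, which are independent. -/
noncomputable def cov (D : Data V) : Matrix (V × Fin 3) (V × Fin 3) ℝ :=
  Matrix.of fun a b => if a.2 = b.2 then 2 * (D.lk a.1 b.1 : ℝ) else 0

/-- The moment `E ∏ |X_v| ^ (2 j_v)` of the centred Gaussian vector with covariance `cov D`. -/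
noncomputable def moment (D : Data V) (j : V → ℕ) : ℝ :=
  ∫ x, ∏ v, (∑ i, x (v, i) ^ 2) ^ j v ∂(ProbabilityTheory.multivariateGaussian 0 (cov D))

/-- The formal Gaussian integral `E ∏ node_v(ħ |X_v| ^ 2)`. -/
noncomputable def part (D : Data V) : ℝ⟦X⟧ :=
  PowerSeries.mk fun n => ∑ j ∈ (univ : Finset V).piAntidiag n,
    (∏ v, coeff (j v) (node D v)) * moment D j

/-- The sign of an orientation. -/
noncomputable def sign (σ : Bool) : ℝ := if σ then 1 else -1

/-- `S³`, and the homology sphere links of surface singularities with `n + 1` nodes, with both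
orientations (`true` is `+`, `false` is `-`). -/
inductive Sphere : Type where
  | three : Sphere
  | link (σ : Bool) (n : ℕ) (D : Data (Fin (n + 1))) (hD : D.IsSplice) : Sphere

/-- The Ohtsuki series, where `κ` is the constant in the exponential factor (for `S³` the series
is `1`). -/
noncomputable def series (κ : ℝ) : Sphere → ℝ⟦X⟧
  | .three => 1
  | .link σ _ D _ => rescale κ (exp ℝ) * sinhcHalf⁻¹ * rescale (sign σ) (part D)

/-- The number of nodes. -/
def Sphere.nodes : Sphere → ℕ
  | .three => 0
  | .link _ n _ _ => n + 1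

/-- The largest linking number `ℓ_vv`. -/
noncomputable def Sphere.maxLk : Sphere → ℕ
  | .three => 1
  | .link _ _ D _ => univ.sup fun v => D.lk v v

/-- The same orientation (`S³` has no preferred one). -/
def Sphere.SameSign : Sphere → Sphere → Prop
  | .link σ _ _ _, .link σ' _ _ _ => σ = σ'
  | _, _ => True

end Pool.Agent.OHT
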