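import Pool.Agent.OHT.Defs

/-!
# Auxiliary definitions for the proof
-/

set_option autoImplicit false

open PowerSeries Finset

namespace Pool.Agent.OHT

variable {V : Type} [Fintype V] [DecidableEq V]

/-- The matrix of the linking numbers. -/
noncomputable def lkMat (D : Data V) : Matrix V V ℝ := Matrix.of fun v w => (D.lk v w : ℝ)

/-- The largest `ℓ_vv`. -/
noncomputable def top (D : Data V) : ℕ := univ.sup fun v => D.lk v v

/-- Factorial growth of order one with the rate `ρ`. -/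
def Gev (ρ : ℝ) (f : ℝ⟦X⟧) : Prop := ∃ C : ℝ, ∀ k : ℕ, |coeff k f| ≤ C * k.factorial * ρ ^ k

/-- Convergence (with some positive radius). -/
def Conv (f : ℝ⟦X⟧) : Prop := ∃ C r : ℝ, 0 < r ∧ ∀ k : ℕ, |coeff k f| * r ^ k ≤ C

/-- `sinhc (x / (2 k))` as an entire function of `z = x ^ 2`. -/
noncomputable def Ec (k : ℕ) (z : ℂ) : ℂ :=
  ∑' m : ℕ, z ^ m / ((2 * k : ℂ) ^ (2 * m) * (2 * m + 1).factorial)

/-- The integrand at a node as a function of `z = x ^ 2`. -/
noncomputable def nodeC (D : Data V) (v : V) (z : ℂ) : ℂ :=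
  (∏ k ∈ D.leaf v, Ec k z) * ((Ec 1 z)⁻¹) ^ (D.val v - 2)

/-- `cosh (√z)`, an entire function. -/
noncomputable def Cc (z : ℂ) : ℂ := ∑' m : ℕ, z ^ m / (2 * m).factorial

/-- The complex plane without the half-line `(-∞, -c]`. -/
def slit (c : ℝ) : Set ℂ := {z | z.im ≠ 0 ∨ -c < z.re}

/-- The real Gaussian space of a diagram. -/
abbrev Sp (V : Type) [Fintype V] : Type := EuclideanSpace ℝ (V × Fin 3)

/-- `|x_v| ^ 2`. -/
noncomputable def nsq (v : V) (x : Sp V) : ℝ := ∑ i, x (v, i) ^ 2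

/-- The function `F(h) = E ∏ node_v(h |X_v| ^ 2)`, `h ≥ 0`, for the Gaussian vector `X` with the
covariance matrix `cov D`. -/
noncomputable def fn (D : Data V) (h : ℝ) : ℂ :=
  ∫ x, ∏ v, nodeC D v (h * nsq v x) ∂(ProbabilityTheory.multivariateGaussian 0 (cov D))

/-- A family of functions `u t x`, homogeneous in the sense that `u t (s x) = u (s² t) x`,
holomorphic in `t` and of moderate growth, with its expansion `u t x = ∑ t ^ k p_k(x)`. -/
structure Fam {ι : Type} [Fintype ι] (c : ℝ) (u : ℂ → EuclideanSpace ℝ ι → ℂ)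
    (p : ℕ → EuclideanSpace ℝ ι → ℂ) : Prop where
  pos : 0 < c
  scale : ∀ (s : ℝ) (t : ℂ) (x : EuclideanSpace ℝ ι), u t (s • x) = u (s ^ 2 * t) x
  cont : ContinuousOn (fun q : ℂ × EuclideanSpace ℝ ι => u q.1 q.2)
    (slit c ×ˢ Metric.closedBall 0 1)
  diff : ∀ x ∈ Metric.closedBall (0 : EuclideanSpace ℝ ι) 1,
    DifferentiableOn ℂ (fun t => u t x) (slit c)
  growth : ∃ C : ℝ, ∀ t : ℝ, 0 ≤ t → ∀ x ∈ Metric.closedBall (0 : EuclideanSpace ℝ ι) 1,
    ‖u t x‖ ≤ C * Real.exp (C * Real.sqrt t)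
  hom : ∀ (k : ℕ) (s : ℝ) (x : EuclideanSpace ℝ ι), p k (s • x) = s ^ (2 * k) * p k x
  pcont : ∀ k, Continuous (p k)
  ser : ∀ x ∈ Metric.closedBall (0 : EuclideanSpace ℝ ι) 1, ∀ t : ℂ, ‖t‖ < c →
    HasSum (fun k => t ^ k * p k x) (u t x)

/-- The standard Gaussian measure. -/
noncomputable abbrev ga (ι : Type) [Fintype ι] : MeasureTheory.Measure (EuclideanSpace ℝ ι) :=
  ProbabilityTheory.stdGaussian (EuclideanSpace ℝ ι)

/-- `E |x| ^ (2 k)` for the standard Gaussian vector in dimension `n`. -/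
noncomputable def Kf (n k : ℕ) : ℝ :=
  2 ^ k * Real.Gamma (k + (n : ℝ) / 2) / Real.Gamma ((n : ℝ) / 2)

end Pool.Agent.OHT
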